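import Pool.Agent.N976.TL.Stm

/-!
From covers of compact parts to covers of the whole singular set (helper976).
-/

set_option autoImplicit false

open MeasureTheory Set Metric
open scoped ContDiff ENNReal

namespace Pool.Agent.N976.TL

open H459R3.NS W221.NS Pool.Agent.Y8 Pool.Agent.N977.H

/-- Countable unions. -/
theorem glue {g : ℕ → ℝ} (hg : ∀ i, 0 ≤ g i) (K : ℕ → Set (ℝ × V))
    (hK : ∀ n, CovG g (K n)) (N : ℕ) {ε : ℝ} (hε : 0 < ε) :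
    ∃ (ι : Type) (_ : Countable ι) (s : ι → ℝ) (y : ι → V) (l : ι → ℕ),
      (∀ i, N ≤ l i) ∧ ∑' i, ENNReal.ofReal (rr (l i) * g (l i)) ≤ ENNReal.ofReal ε ∧
      ∀ n, ∀ z ∈ K n, ∃ i, |z.1 - s i| < rr (l i) ^ 2 ∧ ‖z.2 - y i‖ < rr (l i) := by
  have hch : ∀ n : ℕ, ∃ S : Finset (ℕ × (ℝ × V)), (∀ q ∈ S, N ≤ q.1) ∧
      K n ⊆ ⋃ q ∈ S, Cy q.1 q.2 ∧ ∑ q ∈ S, rr q.1 * g q.1 ≤ ε / 2 * (1 / 2) ^ n := fun n =>
    hK n N _ (by positivity)
  choose S hS1 hS2 hS3 using hch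
  refine ⟨Σ n : ℕ, S n, inferInstance, fun i => i.2.1.2.1, fun i => i.2.1.2.2,
    fun i => i.2.1.1, fun i => hS1 i.1 i.2.1 i.2.2, ?_, ?_⟩
  · rw [ENNReal.tsum_sigma' (fun i : Σ n : ℕ, S n => ENNReal.ofReal (rr i.2.1.1 * g i.2.1.1))]
    have h1 : ∀ n : ℕ, ∑' q : S n, ENNReal.ofReal (rr q.1.1 * g q.1.1)
        ≤ ENNReal.ofReal (ε / 2 * (1 / 2) ^ n) := by
      intro n
      rw [tsum_fintype, Finset.sum_coe_sort (S n) (fun q : ℕ × (ℝ × V) =>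
        ENNReal.ofReal (rr q.1 * g q.1)),
        ← ENNReal.ofReal_sum_of_nonneg fun q _ => mul_nonneg (rr0 _).le (hg _)]
      exact ENNReal.ofReal_le_ofReal (hS3 n)
    refine (ENNReal.tsum_le_tsum h1).trans ?_
    rw [← ENNReal.ofReal_tsum_of_nonneg (fun j => by positivity)
      ((summable_geometric_of_lt_one (by norm_num) (by norm_num)).mul_left _), tsum_mul_left,
      tsum_geometric_two]
    apply ENNReal.ofReal_le_ofReal
    linarith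
  · intro n z hz
    have h1 := hS2 n hz
    simp only [mem_iUnion] at h1
    obtain ⟨q, hq, h2⟩ := h1
    refine ⟨⟨n, ⟨q, hq⟩⟩, ?_, ?_⟩
    · have h3 : z.1 ∈ Ioo (q.2.1 - rr q.1 ^ 2) (q.2.1 + rr q.1 ^ 2) := h2.1
      show |z.1 - q.2.1| < rr q.1 ^ 2
      rw [abs_lt]
      constructor <;> linarith [h3.1, h3.2]
    · have h3 : z.2 ∈ ball q.2.2 (rr q.1) := h2.2
      rw [mem_ball, dist_eq_norm] at h3
      exact h3

/-- The exhaustion by compact time intervals. -/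
lemma exh {T t : ℝ} (ht : t ∈ Ioo 0 T) : ∃ n : ℕ,
    t ∈ Icc (T / (n + 2)) (T - T / (n + 2)) := by
  have hT : 0 < T := ht.1.trans ht.2
  obtain ⟨n, hn⟩ := exists_nat_gt (T / min t (T - t))
  have hm : 0 < min t (T - t) := lt_min ht.1 (by linarith [ht.2])
  have h1 : T / (n + 2) ≤ min t (T - t) := by
    rw [div_lt_iff₀ hm] at hn
    rw [div_le_iff₀ (by positivity)]
    nlinarith
  exact ⟨n, h1.trans (min_le_left _ _), by linarith [h1.trans (min_le_right t (T - t))]⟩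

/-- The covers of the singular set. -/
theorem cov1 (hC : S_C2) {T E D : ℝ} {G : Set ℝ} {u : ℝ → V → V} {p : ℝ → V → ℝ}
    (hN : Turb 1 T E D G u p) {g : ℕ → ℝ} (hg : ∀ i, 0 ≤ g i) (hm : Monotone g)
    (hl : ∀ η > 0, ∀ n : ℕ, ∃ J ≥ n, g J * (1 + Real.log J) ^ 6 ≤ η * J ^ 2) (N : ℕ) {ε : ℝ}
    (hε : 0 < ε) :
    ∃ (ι : Type) (_ : Countable ι) (s : ι → ℝ) (y : ι → V) (l : ι → ℕ),
      (∀ i, N ≤ l i) ∧ ∑' i, ENNReal.ofReal (rr (l i) * g (l i)) ≤ ENNReal.ofReal ε ∧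
      ∀ t ∈ Ioo 0 T, ∀ x : V, SingPt G u t x →
        ∃ i, |t - s i| < rr (l i) ^ 2 ∧ ‖x - y i‖ < rr (l i) := by
  rcases le_or_gt T 0 with hT | hT
  · refine ⟨Empty, inferInstance, fun _ => 0, fun _ => 0, fun _ => N, fun i => i.elim, by simp,
      fun t ht => ?_⟩
    have := ht.1.trans ht.2
    linarith
  obtain ⟨ι, hι, s, y, l, h1, h2, h3⟩ := glue hg
    (fun n => Sg G u (T / ((Nat.unpair n).1 + 2)) (T - T / ((Nat.unpair n).1 + 2))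
      ((Nat.unpair n).2 : ℝ))
    (fun n => hC T E D G u p hN _ _ _ (by positivity) (by
      have : 0 < T / (((Nat.unpair n).1 : ℝ) + 2) := by positivity
      linarith) g hg hm hl) N hε
  refine ⟨ι, hι, s, y, l, h1, h2, fun t ht x hx => ?_⟩
  obtain ⟨n, hn⟩ := exh ht
  obtain ⟨L, hL⟩ := exists_nat_gt ‖x‖
  refine h3 (Nat.pair n L) (t, x) ⟨?_, ?_, hx⟩
  · simpa using hn
  · simpa using hL

/-- The covers of the set of bounded density. -/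
theorem cov2 {δ : ℝ → ℝ} {T : ℝ} {G : Set ℝ} {u : ℝ → V → V} {M : ℝ} (hM : 0 ≤ M)
    (hC : ∀ τ₁ τ₂ L : ℝ, 0 < τ₁ → τ₂ < T → ∀ (M : ℝ) (k : ℕ), 0 ≤ M →
      CovG (fun i => 2 ^ (δ M * i)) (SgM G u τ₁ τ₂ L M k)) (N : ℕ) {ε : ℝ} (hε : 0 < ε) :
    ∃ (ι : Type) (_ : Countable ι) (s : ι → ℝ) (y : ι → V) (l : ι → ℕ),
      (∀ i, N ≤ l i) ∧
      ∑' i, ENNReal.ofReal (rr (l i) * 2 ^ (δ M * l i)) ≤ ENNReal.ofReal ε ∧
      ∀ t ∈ Ioo 0 T, ∀ x : V, SingPt G u t x →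
        (∃ k : ℕ, ∀ i ≥ k, ∫⁻ q in Cy i (t, x), gG G u q ≤ ENNReal.ofReal (M * rr i)) →
        ∃ i, |t - s i| < rr (l i) ^ 2 ∧ ‖x - y i‖ < rr (l i) := by
  rcases le_or_gt T 0 with hT | hT
  · refine ⟨Empty, inferInstance, fun _ => 0, fun _ => 0, fun _ => N, fun i => i.elim, by simp,
      fun t ht => ?_⟩
    have := ht.1.trans ht.2
    linarith
  obtain ⟨ι, hι, s, y, l, h1, h2, h3⟩ := glue (g := fun i => (2 : ℝ) ^ (δ M * i))
    (fun i => by positivity)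
    (fun n => SgM G u (T / ((Nat.unpair (Nat.unpair n).1).1 + 2))
      (T - T / ((Nat.unpair (Nat.unpair n).1).1 + 2))
      ((Nat.unpair (Nat.unpair n).1).2 : ℝ) M (Nat.unpair n).2)
    (fun n => hC _ _ _ (by positivity) (by
      have : 0 < T / (((Nat.unpair (Nat.unpair n).1).1 : ℝ) + 2) := by positivity
      linarith) M _ hM) N hε
  refine ⟨ι, hι, s, y, l, h1, h2, fun t ht x hx hk => ?_⟩
  obtain ⟨n, hn⟩ := exh ht
  obtain ⟨L, hL⟩ := exists_nat_gt ‖x‖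
  obtain ⟨k, hk⟩ := hk
  refine h3 (Nat.pair (Nat.pair n L) k) (t, x) ⟨⟨?_, ?_, hx⟩, ?_⟩
  · simpa using hn
  · simpa using hL
  · simpa using hk

end Pool.Agent.N976.TL
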