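import Pool.Agent.N976.TL.Stm

/-!
Project TL (helper976): the choice of the density (helper704).
-/

set_option autoImplicit false

namespace Pool.Agent.N976.TL

namespace C1

open Filter

theorem ev1 : ∀ᶠ J : ℕ in atTop, (1 + Real.log J) ^ 6 ≤ 3 * (J : ℝ) := by
  have h1 : ∀ᶠ x : ℝ in atTop, ‖Real.log x ^ 6‖ ≤ 1 * ‖id x‖ :=
    (Real.isLittleO_pow_log_id_atTop (n := 6)).def one_pos
  have h2 : Tendsto (fun J : ℕ => Real.exp 1 * (J : ℝ)) atTop atTop :=
    tendsto_natCast_atTop_atTop.const_mul_atTop (Real.exp_pos 1)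
  filter_upwards [h2.eventually h1, eventually_ge_atTop 1] with J hJ hJ1
  have hJ0 : (0 : ℝ) < J := by exact_mod_cast hJ1
  have h3 : Real.log (Real.exp 1 * J) = 1 + Real.log J := by
    rw [Real.log_mul (Real.exp_pos 1).ne' hJ0.ne', Real.log_exp]
  rw [h3, Real.norm_eq_abs, Real.norm_eq_abs, one_mul, id, abs_of_nonneg (by positivity : 0 ≤
    Real.exp 1 * (J : ℝ))] at hJ
  have h4 := (le_abs_self _).trans hJ
  have h5 := Real.exp_one_lt_d9
  nlinarith

theorem ev2 {c : ℝ} (hc : 0 < c) : ∀ᶠ J : ℕ in atTop, Real.log J ≤ c * (J : ℝ) := by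
  have h1 : ∀ᶠ x : ℝ in atTop, ‖Real.log x‖ ≤ c * ‖id x‖ :=
    Real.isLittleO_log_id_atTop.def hc
  filter_upwards [tendsto_natCast_atTop_atTop.eventually h1] with J hJ
  rw [Real.norm_eq_abs, Real.norm_eq_abs, id, abs_of_nonneg (Nat.cast_nonneg J : (0 : ℝ) ≤ J)] at hJ
  exact (le_abs_self _).trans hJ

theorem ev3 (T : ℝ) : ∀ᶠ J : ℕ in atTop, T ≤ (J : ℝ) :=
  tendsto_natCast_atTop_atTop.eventually_ge_atTop T

end C1

theorem t_C1 : S_C1 := by
  intro P B D δ k₀ N g hP hB hD hδ hg hgg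
  have hP0 : 0 < P := by linarith
  have hlogB : 0 ≤ Real.log B := Real.log_nonneg hB
  set s : ℝ := 1 / (8 * P * (2 * P + 4)) with hs
  have hs0 : 0 < s := by positivity
  have hsP : s * (8 * P * (2 * P + 4)) = 1 := by
    rw [hs]; field_simp
  have hs1 : s ≤ 1 := by
    rw [hs, div_le_one (by positivity)]
    nlinarith
  set κ : ℝ := s ^ 2 with hκ
  have hκ0 : 0 < κ := by positivity
  have hκ1 : κ ≤ 1 := by nlinarith
  set η : ℝ := min 1 (δ * κ / (D + 1)) with hη
  have hη0 : 0 < η := lt_min one_pos (by positivity)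
  have hη1 : η ≤ 1 := min_le_left _ _
  have hη2 : η * (D + 1) ≤ δ * κ := by
    have := min_le_right 1 (δ * κ / (D + 1))
    rw [← hη, le_div_iff₀ (by positivity)] at this
    exact this
  obtain ⟨n, hn⟩ := Filter.eventually_atTop.1 (C1.ev1.and ((C1.ev2 (c := 1 / (8 * P))
    (by positivity)).and ((C1.ev3 (3 / κ)).and ((C1.ev3 (4 * P * (k₀ + 1 + Real.log B))).and
    ((C1.ev3 (P * D / δ)).and (C1.ev3 1))))))
  obtain ⟨J, hJn, hJ⟩ := hgg η hη0 (max n N)
  obtain ⟨h1, h2, h3, h4, h5, h6⟩ := hn J ((le_max_left _ _).trans hJn)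
  refine ⟨J, (le_max_right _ _).trans hJn, ?_⟩
  have hJ0 : (0 : ℝ) < J := by linarith
  set ℓ : ℝ := Real.log J with hℓ
  have hℓ0 : 0 ≤ ℓ := Real.log_nonneg h6
  set L : ℝ := 1 + ℓ with hL
  have hL1 : 1 ≤ L := by linarith
  have hL0 : 0 < L := by linarith
  have hJℓ : (J : ℝ) = Real.exp ℓ := (Real.exp_log hJ0).symm
  -- the density
  set Λ : ℝ := κ * J ^ 2 / L ^ 6 with hΛ
  have hΛ0 : 0 < Λ := by positivity
  have hΛ1 : 1 ≤ Λ := by
    rw [hΛ, le_div_iff₀ (by positivity), one_mul]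
    rw [div_le_iff₀ hκ0] at h3
    refine h1.trans ?_
    nlinarith
  have hΛ2 : Λ ≤ (J : ℝ) ^ 2 := by
    rw [hΛ, div_le_iff₀ (by positivity)]
    have h7 : 1 ≤ L ^ 6 := one_le_pow₀ hL1
    have h8 : 0 ≤ (J : ℝ) ^ 2 := by positivity
    nlinarith
  have hlΛ0 : 0 ≤ Real.log Λ := Real.log_nonneg hΛ1
  have hlΛ : Real.log Λ ≤ 2 * ℓ := by
    have := Real.log_le_log hΛ0 hΛ2
    rw [Real.log_pow] at this
    exact_mod_cast this
  have hsq : √Λ = s * J / L ^ 3 := by
    have : Λ = (s * J / L ^ 3) ^ 2 := by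
      rw [hΛ, hκ, div_pow _ (L ^ 3), mul_pow, ← pow_mul L]
    rw [this, Real.sqrt_sq (by positivity)]
  have hfirst : P * (k₀ + 1 + Real.log B + Real.log Λ) ≤ J / 2 := by
    have h7 : P * (2 * ℓ) ≤ J / 4 := by
      have : P * (2 * ℓ) ≤ P * (2 * (1 / (8 * P) * J)) := by
        apply mul_le_mul_of_nonneg_left _ hP0.le
        linarith
      have h8 : P * (2 * (1 / (8 * P) * (J : ℝ))) = J / 4 := by
        field_simp
        ring
      linarith
    have h8 : P * Real.log Λ ≤ P * (2 * ℓ) := mul_le_mul_of_nonneg_left hlΛ hP0.le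
    have h9 : P * (k₀ + 1 + Real.log B + Real.log Λ) =
        P * (k₀ + 1 + Real.log B) + P * Real.log Λ := by ring
    rw [h9]
    linarith
  refine ⟨Λ, hΛ1, hfirst, ?_, ?_⟩
  · have h7 : g J ≤ η / κ * Λ := by
      have : η / κ * Λ = η * J ^ 2 / L ^ 6 := by
        rw [hΛ]; field_simp
      rw [this, le_div_iff₀ (by positivity)]
      exact hJ
    have h8 : 0 ≤ D / Λ := by positivity
    calc g J * (D / Λ) ≤ η / κ * Λ * (D / Λ) := mul_le_mul_of_nonneg_right h7 h8
      _ = η * D / κ := by field_simp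
      _ ≤ δ := by
        rw [div_le_iff₀ hκ0]
        nlinarith
  · have h7 : g J ≤ (J : ℝ) ^ 2 := by
      have h8 : 1 ≤ L ^ 6 := one_le_pow₀ hL1
      have h9 := hg J
      have h10 : 0 ≤ (J : ℝ) ^ 2 := by positivity
      nlinarith
    have h8 : (J : ℝ) ^ 2 = Real.exp (2 * ℓ) := by
      rw [hJℓ, ← Real.exp_nat_mul]; norm_num
    have h9 : Λ ^ P ≤ Real.exp (2 * P * ℓ) := by
      have : Λ ^ P ≤ ((J : ℝ) ^ 2) ^ P := Real.rpow_le_rpow hΛ0.le hΛ2 hP0.le
      refine this.trans (le_of_eq ?_)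
      rw [h8, ← Real.exp_mul]
      congr 1
      ring
    have h10 : Real.exp (-(J - P * (k₀ + 1 + Real.log B + Real.log Λ)) /
        (P * √Λ * (1 + Real.log Λ) ^ 2)) ≤ Real.exp (-((2 * P + 4) * ℓ)) := by
      apply Real.exp_le_exp.2
      rw [neg_div, neg_le_neg_iff, le_div_iff₀ (by positivity)]
      have e1 : (1 + Real.log Λ) ^ 2 ≤ (2 * L) ^ 2 := by
        apply pow_le_pow_left₀ (by linarith)
        linarith
      have e2 : P * √Λ * (1 + Real.log Λ) ^ 2 ≤ 4 * P * s * J / L := by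
        calc P * √Λ * (1 + Real.log Λ) ^ 2 ≤ P * √Λ * (2 * L) ^ 2 :=
              mul_le_mul_of_nonneg_left e1 (by positivity)
          _ = 4 * P * s * J / L := by
            rw [hsq]; field_simp; ring
      have e3 : (2 * P + 4) * ℓ * (P * √Λ * (1 + Real.log Λ) ^ 2) ≤
          (2 * P + 4) * L * (4 * P * s * J / L) := by
        apply mul_le_mul _ e2 (by positivity) (by positivity)
        apply mul_le_mul_of_nonneg_left (by linarith) (by positivity)
      have e4 : (2 * P + 4) * L * (4 * P * s * J / L) = J / 2 := by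
        have : (2 * P + 4) * L * (4 * P * s * J / L) = (s * (8 * P * (2 * P + 4))) * J / 2 := by
          field_simp
          ring
        rw [this, hsP, one_mul]
      linarith
    have hnn : 0 ≤ g J := hg J
    calc g J * (P * Λ ^ P * D * Real.exp (-(J - P * (k₀ + 1 + Real.log B + Real.log Λ)) /
        (P * √Λ * (1 + Real.log Λ) ^ 2)))
        ≤ Real.exp (2 * ℓ) * (P * Real.exp (2 * P * ℓ) * D * Real.exp (-((2 * P + 4) * ℓ))) := by
          rw [← h8]
          gcongr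
      _ = P * D * (Real.exp (2 * ℓ) * Real.exp (2 * P * ℓ) * Real.exp (-((2 * P + 4) * ℓ))) := by
          ring
      _ = P * D * Real.exp (-(2 * ℓ)) := by
          rw [← Real.exp_add, ← Real.exp_add]
          congr 2
          ring
      _ = P * D / J ^ 2 := by
          rw [Real.exp_neg, h8]
          rfl
      _ ≤ δ := by
          rw [div_le_iff₀ (by positivity)]
          rw [div_le_iff₀ hδ] at h5
          have e5 : (J : ℝ) * δ ≤ δ * J ^ 2 := by
            have : (J : ℝ) ≤ J ^ 2 := by nlinarith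
            nlinarith
          linarith

end Pool.Agent.N976.TL
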