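import Pool.Agent.N976.TL.Stm
import Pool.Agent.N977.H.Count

/-!
# TL/C2: assembly of the covers (helper400)
-/

set_option autoImplicit false

open MeasureTheory Set Metric
open scoped ContDiff ENNReal

namespace Pool.Agent.N976.TL

open H459R3.NS W221.NS Pool.Agent.Y8 Pool.Agent.N977.H

namespace C2

lemma c2_exists_rr {a : ℝ} (ha : 0 < a) : ∃ n : ℕ, ∀ k ≥ n, rr k < a := by
  obtain ⟨n, hn⟩ := exists_pow_lt_of_lt_one ha (show (1 / 2 : ℝ) < 1 by norm_num)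
  exact ⟨n, fun k hk => lt_of_le_of_lt (rr_anti hk) hn⟩

lemma c2_rr_sq (k : ℕ) : rr k ^ 2 ≤ rr k := by
  have h0 := rr0 k
  have h1 := rr1 k
  nlinarith

lemma c2_nb_mono {K K' : Set (ℝ × V)} (h : K ⊆ K') (j : ℕ) : Nb K j ⊆ Nb K' j :=
  biUnion_subset_biUnion_left h

lemma c2_nb_sub (G : Set ℝ) (u : ℝ → V → V) (τ₁ τ₂ L : ℝ) (k : ℕ) :
    Nb (Sg G u τ₁ τ₂ L) k ⊆ univ ×ˢ ball (0 : V) (|L| + 1) := by
  intro q hq
  unfold Nb at hq
  rw [mem_iUnion₂] at hq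
  obtain ⟨z, hz, hq⟩ := hq
  refine ⟨mem_univ _, ?_⟩
  have h1 : q.2 ∈ ball z.2 (rr k) := hq.2
  have h2 : ‖z.2‖ < L := hz.2.1
  rw [mem_ball_zero_iff]
  rw [mem_ball, dist_eq_norm] at h1
  have h3 : ‖q.2‖ ≤ ‖q.2 - z.2‖ + ‖z.2‖ := by
    calc ‖q.2‖ = ‖(q.2 - z.2) + z.2‖ := by rw [sub_add_cancel]
      _ ≤ _ := norm_add_le _ _
  have h4 := rr1 k
  have h5 := le_abs_self L
  linarith

lemma c2_nb_fin {T E D : ℝ} {G : Set ℝ} {u : ℝ → V → V} {p : ℝ → V → ℝ}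
    (hN : Turb 1 T E D G u p) (τ₁ τ₂ L : ℝ) (k : ℕ) :
    ∫⁻ q in Nb (Sg G u τ₁ τ₂ L) k, Y7.FtG 16 G u q ≠ ⊤ := by
  refine ne_top_of_le_ne_top (FtG_fin hN (|L| + 1)) ?_
  refine (lintegral_mono_set (c2_nb_sub G u τ₁ τ₂ L k)).trans (le_of_eq ?_)
  rw [Measure.volume_eq_prod, ← Measure.prod_restrict, lintegral_prod_symm _
    (Y7.FtG_meas 16 hN).aemeasurable, Measure.restrict_univ]

end C2

open C2 in
theorem t_C2 : S_A9 → S_BM → S_C0 → S_C1 → S_C2 := by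
  classical
  intro h9 hBM hC0 hC1 T E D G u p hN τ₁ τ₂ L hτ₁ hτ₂ g hg0 hgm hJg N ε hε
  obtain ⟨m, C, θ, hm, hC, hθ, H9⟩ := h9
  obtain ⟨B, hB, H9'⟩ := H9 T E D G u p hN
  obtain ⟨P, hP, HM⟩ := hBM m C θ (by omega) hC hθ
  set F : ℝ × V → ℝ≥0∞ := Y7.FtG 16 G u with hF
  have hFm : Measurable F := Y7.FtG_meas 16 hN
  obtain ⟨n1, hn1⟩ := c2_exists_rr (a := τ₁ / 2) (by positivity)
  obtain ⟨n2, hn2⟩ := c2_exists_rr (a := T - τ₂) (by linarith)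
  set k₀ : ℕ := max (max 3 (N + 1)) (max n1 n2) with hk₀
  have hk3 : 3 ≤ k₀ := (le_max_left _ _).trans (le_max_left _ _)
  have hkN : N + 1 ≤ k₀ := (le_max_right _ _).trans (le_max_left _ _)
  have hk1 : rr k₀ < τ₁ / 2 := hn1 k₀ ((le_max_left _ _).trans (le_max_right _ _))
  have hk2 : rr k₀ < T - τ₂ := hn2 k₀ ((le_max_right _ _).trans (le_max_right _ _))
  have hksq := c2_rr_sq k₀
  set K : Set (ℝ × V) := Sg G u τ₁ τ₂ L with hK
  have hPt : ∀ z ∈ K, ∃ e X : ℕ → ℝ, PtD F m C θ B k₀ z e X := by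
    intro z hz
    have h1 : τ₁ ≤ z.1 := hz.1.1
    have h2 : z.1 ≤ τ₂ := hz.1.2
    exact H9' k₀ z hk3 (by linarith) (by linarith) hz.2.2
  set D' : ℝ := (∫⁻ q in Nb K k₀, F q).toReal with hD'
  have hD'0 : 0 ≤ D' := ENNReal.toReal_nonneg
  have hD'1 : ∫⁻ q in Nb K k₀, F q ≤ ENNReal.ofReal D' := by
    rw [hD', ENNReal.ofReal_toReal (c2_nb_fin hN τ₁ τ₂ L k₀)]
  obtain ⟨J, hJN, Λ, hΛ, hJ1, hJ2, hJ3⟩ := hC1 P B D' (ε / 4) k₀ (2 * N + 2) g hP hB hD'0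
    (by positivity) hg0 hJg
  have hlB : 0 ≤ Real.log B := Real.log_nonneg hB
  have hlΛ : 0 ≤ Real.log Λ := Real.log_nonneg hΛ
  have hJ0 : (0 : ℝ) ≤ J := Nat.cast_nonneg J
  -- the points of small density
  set K1 : Set (ℝ × V) := {z ∈ K | ∀ i, k₀ ≤ i → i ≤ J →
    ∫⁻ q in Cy i z, F q ≤ ENNReal.ofReal (Λ * rr i)} with hK1
  have hK1K : K1 ⊆ K := fun z hz => hz.1
  obtain ⟨S1, J', hJ'J, hJJ', hS1, hS1c⟩ := HM F hFm K1 B D' Λ k₀ J hB hD'0 hΛ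
    (fun z hz => hPt z (hK1K hz)) (fun z hz => hz.2)
    ((lintegral_mono_set (c2_nb_mono hK1K k₀)).trans hD'1) (by linarith)
  have hJ'2 : (J : ℝ) / 2 ≤ J' := by
    have h1 : P * (1 + Real.log Λ) ≤ P * (k₀ + 1 + Real.log B + Real.log Λ) := by
      apply mul_le_mul_of_nonneg_left _ (by linarith)
      have : (0 : ℝ) ≤ k₀ := Nat.cast_nonneg _
      linarith
    linarith
  have hJ'N : N ≤ J' := by
    have h1 : ((2 * N + 2 : ℕ) : ℝ) ≤ J := by exact_mod_cast hJN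
    push_cast at h1
    have h2 : (N : ℝ) ≤ J' := by linarith
    exact_mod_cast h2
  -- the points of large density
  obtain ⟨S2, hS2a, hS2b, hS2c⟩ := hC0 F hFm (K \ K1) D' Λ k₀ J hD'0 (by linarith) (by omega)
    (by
      intro z hz
      by_contra hcon
      push Not at hcon
      exact hz.2 ⟨hz.1, hcon⟩)
    ((lintegral_mono_set (c2_nb_mono (fun z hz => hz.1) k₀)).trans hD'1)
  have hf0 : ∀ q : ℕ × (ℝ × V), 0 ≤ rr q.1 * g q.1 := fun q =>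
    mul_nonneg (rr0 q.1).le (hg0 q.1)
  refine ⟨S2 ∪ S1.image (fun z => (J', z)), ?_, ?_, ?_⟩
  · intro q hq
    rcases Finset.mem_union.1 hq with h | h
    · have := (hS2a q h).1
      omega
    · obtain ⟨z, -, rfl⟩ := Finset.mem_image.1 h
      exact hJ'N
  · intro z hz
    rw [mem_iUnion₂]
    by_cases h : z ∈ K1
    · obtain ⟨w, hw, hzw⟩ := mem_iUnion₂.1 (hS1 h)
      exact ⟨(J', w), Finset.mem_union_right _ (Finset.mem_image_of_mem _ hw), hzw⟩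
    · obtain ⟨q, hq, hzq⟩ := mem_iUnion₂.1 (hS2b ⟨hz, h⟩)
      exact ⟨q, Finset.mem_union_left _ hq, hzq⟩
  · have h1 : ∑ q ∈ S2 ∪ S1.image (fun z => (J', z)), rr q.1 * g q.1 ≤
        ∑ q ∈ S2, rr q.1 * g q.1 + ∑ q ∈ S1.image (fun z => (J', z)), rr q.1 * g q.1 := by
      rw [← Finset.sum_union_inter]
      have : 0 ≤ ∑ q ∈ S2 ∩ S1.image (fun z => (J', z)), rr q.1 * g q.1 :=
        Finset.sum_nonneg fun q _ => hf0 q
      linarith
    have h2 : ∑ q ∈ S1.image (fun z => (J', z)), rr q.1 * g q.1 = S1.card * rr J' * g J' := by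
      rw [Finset.sum_image (fun a _ b _ h => (Prod.mk.inj h).2)]
      show ∑ _x ∈ S1, rr J' * g J' = _
      rw [Finset.sum_const, nsmul_eq_mul]
      ring
    have h3 : S1.card * rr J' * g J' ≤ ε / 4 := by
      have h4 : 0 ≤ S1.card * rr J' := mul_nonneg (Nat.cast_nonneg _) (rr0 J').le
      calc S1.card * rr J' * g J' ≤ S1.card * rr J' * g J :=
            mul_le_mul_of_nonneg_left (hgm hJ'J) h4
        _ = g J * (S1.card * rr J') := by ring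
        _ ≤ _ := mul_le_mul_of_nonneg_left hS1c (hg0 J)
        _ ≤ ε / 4 := hJ3
    have h5 : ∑ q ∈ S2, rr q.1 * g q.1 ≤ g J * ∑ q ∈ S2, rr q.1 := by
      rw [Finset.mul_sum]
      refine Finset.sum_le_sum fun q hq => ?_
      rw [mul_comm]
      have h6 := (hS2a q hq).2
      exact mul_le_mul_of_nonneg_right (hgm (by omega)) (rr0 q.1).le
    have h6 : g J * ∑ q ∈ S2, rr q.1 ≤ ε / 2 := by
      calc g J * ∑ q ∈ S2, rr q.1 ≤ g J * (2 * D' / Λ) :=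
            mul_le_mul_of_nonneg_left hS2c (hg0 J)
        _ = 2 * (g J * (D' / Λ)) := by ring
        _ ≤ ε / 2 := by linarith
    rw [h2] at h1
    linarith

end Pool.Agent.N976.TL
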