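import Pool.Agent.N976.TL.D1

/-!
The covers of the set of the singular points of bounded density (project TL, part D2).
-/

set_option autoImplicit false

open MeasureTheory Set Metric
open scoped ContDiff ENNReal

namespace Pool.Agent.N976.TL

open H459R3.NS W221.NS Pool.Agent.Y8 Pool.Agent.N977.H

namespace D2

/-- The exponential decay beats the small power. -/
lemma limJ {Q : ℝ} (A c : ℝ) {ε : ℝ} (hQ : 0 < Q) (hA : 0 ≤ A) (hε : 0 < ε) :
    ∃ n : ℕ, ∀ J : ℕ, n ≤ J →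
      A * Real.exp (-(J - c) / Q) * (2 : ℝ) ^ (1 / (2 * Q) * (J : ℝ)) ≤ ε := by
  have h1 : Filter.Tendsto (fun J : ℕ => (J : ℝ) / (2 * Q)) Filter.atTop Filter.atTop :=
    tendsto_natCast_atTop_atTop.atTop_div_const (by positivity)
  have h2 := (Real.tendsto_exp_neg_atTop_nhds_zero.comp h1).const_mul (A * Real.exp (c / Q))
  rw [mul_zero] at h2
  obtain ⟨n, hn⟩ := Filter.eventually_atTop.1 (h2.eventually_le_const hε)
  refine ⟨n, fun J hJ => le_trans ?_ (hn J hJ)⟩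
  simp only [Function.comp_apply]
  have h3 : (2 : ℝ) ^ (1 / (2 * Q) * (J : ℝ)) ≤ Real.exp (1 / (2 * Q) * (J : ℝ)) := by
    rw [Real.rpow_def_of_pos (by norm_num)]
    apply Real.exp_le_exp.2
    have h4 : Real.log 2 ≤ 1 := by
      have := Real.log_two_lt_d9
      linarith
    have h5 : 0 ≤ 1 / (2 * Q) * (J : ℝ) := by positivity
    nlinarith
  have h6 : 0 ≤ A * Real.exp (-(J - c) / Q) := by positivity
  refine (mul_le_mul_of_nonneg_left h3 h6).trans (le_of_eq ?_)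
  rw [mul_assoc, mul_assoc, ← Real.exp_add, ← Real.exp_add]
  congr 2
  field_simp
  ring

lemma sum_half (i : ℕ) : ∑ j ∈ Finset.range i, ((1 : ℝ) / 2) ^ (i - j) ≤ 1 := by
  have h : ∑ j ∈ Finset.range i, ((1 : ℝ) / 2) ^ (i - j) = 1 - (1 / 2) ^ i := by
    induction i with
    | zero => simp
    | succ n ih =>
      rw [Finset.sum_range_succ]
      have e : ∑ j ∈ Finset.range n, ((1 : ℝ) / 2) ^ (n + 1 - j)
          = 1 / 2 * ∑ j ∈ Finset.range n, ((1 : ℝ) / 2) ^ (n - j) := by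
        rw [Finset.mul_sum]
        refine Finset.sum_congr rfl fun j hj => ?_
        rw [Finset.mem_range] at hj
        have : n + 1 - j = (n - j) + 1 := by omega
        rw [this, pow_succ]
        ring
      rw [e, ih]
      have : n + 1 - n = 1 := by omega
      rw [this, pow_one, pow_succ]
      ring
  rw [h]
  have : (0 : ℝ) < (1 / 2) ^ i := by positivity
  linarith

/-- The density of the function of the gradient. -/
lemma dens {C D M H : ℝ} (hC : 0 < C) (hM : 0 ≤ M) (hH : 0 ≤ H) {k i : ℕ} (g : ℕ → ℝ≥0∞)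
    (h1 : ∀ j ≥ k, g j ≤ ENNReal.ofReal (M * rr j)) (h2 : ∀ j, g j ≤ ENNReal.ofReal H)
    (hi : 4 ^ k * H + |D| ≤ 2 ^ i) :
    ENNReal.ofReal C * (∑ j ∈ Finset.range i, ENNReal.ofReal ((1 / 8) ^ (i - j)) * g j
      + ENNReal.ofReal ((1 / 8) ^ i * D)) ≤ ENNReal.ofReal (C * (M + 2) * rr i) := by
  have hri := rr0 i
  have hr : (2 : ℝ) ^ i * rr i = 1 := by
    unfold rr
    rw [← mul_pow]
    norm_num
  have h4 : ∀ j ∈ Finset.range i, ENNReal.ofReal ((1 / 8) ^ (i - j)) * g j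
      ≤ ENNReal.ofReal ((1 / 2) ^ (i - j) * ((M + 1) * rr i)) := by
    intro j hj
    rw [Finset.mem_range] at hj
    rcases le_or_gt k j with hkj | hkj
    · refine (mul_le_mul_right (h1 j hkj) _).trans ?_
      rw [← ENNReal.ofReal_mul (by positivity)]
      apply ENNReal.ofReal_le_ofReal
      have e1 : rr i = (1 / 2) ^ (i - j) * rr j := D1.rr_mul hj.le
      have e2 : ((1 : ℝ) / 8) ^ (i - j) = (1 / 4) ^ (i - j) * (1 / 2) ^ (i - j) := by
        rw [← mul_pow]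
        norm_num
      have e3 : ((1 : ℝ) / 4) ^ (i - j) ≤ (1 / 2) ^ (i - j) :=
        pow_le_pow_left₀ (by norm_num) (by norm_num) _
      have e4 : (1 / 8) ^ (i - j) * (M * rr j) = (1 / 4) ^ (i - j) * (M * rr i) := by
        rw [e2, e1]
        ring
      rw [e4]
      refine mul_le_mul e3 ?_ (by positivity) (by positivity)
      nlinarith
    · refine (mul_le_mul_right (h2 j) _).trans ?_
      rw [← ENNReal.ofReal_mul (by positivity)]
      apply ENNReal.ofReal_le_ofReal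
      have e2 : ((1 : ℝ) / 8) ^ (i - j) = (1 / 2) ^ (i - j) * (1 / 4) ^ (i - j) := by
        rw [← mul_pow]
        norm_num
      have e3 : ((1 : ℝ) / 4) ^ (i - j) = rr i ^ 2 * 4 ^ j := by
        have h5 : ((1 : ℝ) / 4) ^ i = (1 / 4) ^ (i - j) * (1 / 4) ^ j := by
          rw [← pow_add]
          congr 1
          omega
        have h6 : rr i ^ 2 = (1 / 4) ^ i := by
          unfold rr
          rw [← pow_mul, mul_comm, pow_mul]
          norm_num
        rw [h6, h5, mul_assoc, ← mul_pow]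
        norm_num
      have e4 : (4 : ℝ) ^ j ≤ 4 ^ k := pow_le_pow_right₀ (by norm_num) hkj.le
      rw [e2, e3, mul_assoc]
      refine mul_le_mul_of_nonneg_left ?_ (by positivity)
      have h7 : 4 ^ k * H ≤ 2 ^ i := by
        have := abs_nonneg D
        linarith
      calc rr i ^ 2 * 4 ^ j * H ≤ rr i ^ 2 * 4 ^ k * H := by gcongr
        _ = rr i ^ 2 * (4 ^ k * H) := by ring
        _ ≤ rr i ^ 2 * 2 ^ i := by gcongr
        _ = rr i * (2 ^ i * rr i) := by ring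
        _ = rr i := by rw [hr, mul_one]
        _ ≤ (M + 1) * rr i := by nlinarith
  have h5 : ∑ j ∈ Finset.range i, ENNReal.ofReal ((1 / 8) ^ (i - j)) * g j
      ≤ ENNReal.ofReal ((M + 1) * rr i) := by
    refine (Finset.sum_le_sum h4).trans ?_
    rw [← ENNReal.ofReal_sum_of_nonneg (fun j _ => by positivity), ← Finset.sum_mul]
    apply ENNReal.ofReal_le_ofReal
    have := sum_half i
    have h6 : 0 ≤ (M + 1) * rr i := by positivity
    nlinarith
  have h6 : ENNReal.ofReal ((1 / 8) ^ i * D) ≤ ENNReal.ofReal (rr i) := by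
    apply ENNReal.ofReal_le_ofReal
    have e1 : ((1 : ℝ) / 8) ^ i ≤ rr i ^ 2 := by
      have h6 : rr i ^ 2 = (1 / 4) ^ i := by
        unfold rr
        rw [← pow_mul, mul_comm, pow_mul]
        norm_num
      rw [h6]
      exact pow_le_pow_left₀ (by norm_num) (by norm_num) _
    have e2 : |D| ≤ 2 ^ i := by
      have : 0 ≤ 4 ^ k * H := by positivity
      linarith
    calc (1 / 8) ^ i * D ≤ (1 / 8) ^ i * |D| := by
          gcongr
          exact le_abs_self D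
      _ ≤ rr i ^ 2 * 2 ^ i := by gcongr
      _ = rr i * (2 ^ i * rr i) := by ring
      _ = rr i := by rw [hr, mul_one]
  calc _ ≤ ENNReal.ofReal C * (ENNReal.ofReal ((M + 1) * rr i) + ENNReal.ofReal (rr i)) :=
        mul_le_mul_right (add_le_add h5 h6) _
    _ = ENNReal.ofReal (C * (M + 2) * rr i) := by
        rw [← ENNReal.ofReal_add (by positivity) hri.le, ← ENNReal.ofReal_mul hC.le]
        congr 1
        ring

/-- The dissipation in a cylinder is bounded by the total dissipation. -/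
lemma gG_bd : ∃ C : ℝ, 0 < C ∧ ∀ (T E D : ℝ) (G : Set ℝ) (u : ℝ → V → V) (p : ℝ → V → ℝ),
    Turb 1 T E D G u p → ∀ (z : ℝ × V) (j : ℕ),
      ∫⁻ q in Cy j z, gG G u q ≤ ENNReal.ofReal (C * |D|) := by
  obtain ⟨C, hC, hb⟩ := ball_le 1
  refine ⟨C, hC, fun T E D G u p hN z j => ?_⟩
  rw [D1.lint_Cy (D1.gG_meas hN)]
  have h1 : ∀ τ, ∫⁻ y in ball z.2 (rr j), gG G u (τ, y)
      ≤ G.indicator (fun τ => ENNReal.ofReal C * ENNReal.ofReal (enstrophy (u τ))) τ := by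
    intro τ
    by_cases hτ : τ ∈ G
    · have hu := hN.spv hτ
      have h4 : ∀ y, gG G u (τ, y) = ENNReal.ofReal (gsq (u τ) y) := by
        intro y
        unfold gG
        exact indicator_of_mem (show (τ, y) ∈ G ×ˢ (univ : Set V) from ⟨hτ, mem_univ _⟩) _
      simp only [h4]
      rw [indicator_of_mem hτ]
      have hgc : Continuous (gsq (u τ)) := (gsq_sm hu.1).continuous
      refine (lintegral_mono_set (ball_subset_ball (rr1 j))).trans ?_
      rw [← ofReal_integral_eq_lintegral_ofReal (ballint hgc _ _)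
        (Filter.Eventually.of_forall fun x => gsq_nn _ _), ← ENNReal.ofReal_mul hC.le]
      apply ENNReal.ofReal_le_ofReal
      have h5 := hb _ hgc (gsq_per hu.2) (gsq_nn (u τ)) z.2
      rw [← enst_eq hu.1] at h5
      exact h5
    · rw [indicator_of_notMem hτ]
      have h4 : ∀ y, gG G u (τ, y) = 0 := by
        intro y
        unfold gG
        exact indicator_of_notMem (fun h => hτ h.1) _
      simp only [h4, lintegral_zero]
      exact le_rfl
  refine (lintegral_mono h1).trans ((setLIntegral_le_lintegral _ _).trans ?_)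
  rw [lintegral_indicator hN.openG.measurableSet,
    lintegral_const_mul' _ _ ENNReal.ofReal_ne_top, ENNReal.ofReal_mul hC.le]
  exact mul_le_mul_right ((D1.enst_lint hN).trans
    (ENNReal.ofReal_le_ofReal (le_abs_self D))) _

/-- The integral over the neighbourhood is finite. -/
lemma nb_fin {T E D : ℝ} {G : Set ℝ} {u : ℝ → V → V} {p : ℝ → V → ℝ} (hN : Turb 1 T E D G u p)
    {K : Set (ℝ × V)} {L : ℝ} (hK : ∀ z ∈ K, ‖z.2‖ < L) (k : ℕ) :
    ∫⁻ q in Nb K k, Y7.FtG 16 G u q ≠ ⊤ := by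
  have hFm := Y7.FtG_meas 16 hN
  have h1 : Nb K k ⊆ (univ : Set ℝ) ×ˢ ball (0 : V) (L + 1) := by
    intro q hq
    unfold Nb at hq
    simp only [mem_iUnion] at hq
    obtain ⟨z, hz, hq⟩ := hq
    refine ⟨mem_univ _, ?_⟩
    have h2 := hq.2
    have h3 := hK z hz
    have h4 := rr1 k
    rw [mem_ball] at h2
    rw [mem_ball_zero_iff]
    rw [dist_eq_norm] at h2
    have h5 : q.2 = (q.2 - z.2) + z.2 := by abel
    rw [h5]
    exact (norm_add_le _ _).trans_lt (by linarith)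
  refine ne_top_of_le_ne_top ?_ (lintegral_mono_set h1)
  rw [Measure.volume_eq_prod, ← Measure.prod_restrict, Measure.restrict_univ,
    lintegral_prod_symm _ hFm.aemeasurable]
  exact FtG_fin hN (L + 1)

end D2

open D2 in
theorem t_D2 : S_A9 → S_BM → S_D1 → S_D2 := by
  classical
  rintro ⟨m, C, θ, hm, hC, hθ, hA9⟩ hB ⟨C₁, hC₁, hD1⟩
  obtain ⟨P, hP, hBM⟩ := hB m C θ (by omega) hC hθ
  obtain ⟨C₂, hC₂⟩ : ∃ C₂, C₂ = 2 * C₁ + 1 := ⟨_, rfl⟩
  have hC21 : 1 ≤ C₂ := by rw [hC₂]; linarith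
  have hl2 : 0 ≤ Real.log C₂ := Real.log_nonneg hC21
  have hs2 : 0 < √C₂ := Real.sqrt_pos.2 (by linarith)
  refine ⟨1 / (2 * (P * √C₂ * (1 + Real.log C₂) ^ 2)), by positivity, ?_⟩
  intro T E D G u p hN τ₁ τ₂ L h1 h2 M k hM N ε hε
  obtain ⟨Λ, hΛ⟩ : ∃ Λ, Λ = C₂ * (1 + M) := ⟨_, rfl⟩
  obtain ⟨Q, hQ⟩ : ∃ Q, Q = P * √Λ * (1 + Real.log Λ) ^ 2 := ⟨_, rfl⟩
  have hΛM : 1 ≤ Λ := by rw [hΛ]; nlinarith
  have hlΛ : 0 ≤ Real.log Λ := Real.log_nonneg hΛM
  have hsΛ : 0 < √Λ := Real.sqrt_pos.2 (by linarith)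
  have hQ0 : 0 < Q := by rw [hQ]; positivity
  have hl1 : 0 ≤ Real.log (1 + M) := Real.log_nonneg (by linarith)
  have hs1 : 0 < √(1 + M) := Real.sqrt_pos.2 (by linarith)
  have hdM : dM (1 / (2 * (P * √C₂ * (1 + Real.log C₂) ^ 2))) M ≤ 1 / (2 * Q) := by
    unfold dM
    rw [div_div]
    apply one_div_le_one_div_of_le (by positivity)
    have e1 : √Λ = √C₂ * √(1 + M) := by
      rw [hΛ, Real.sqrt_mul (by linarith)]
    have e2 : Real.log Λ = Real.log C₂ + Real.log (1 + M) := by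
      rw [hΛ, Real.log_mul (by linarith) (by linarith)]
    have e3 : (1 + Real.log Λ) ^ 2 ≤ ((1 + Real.log C₂) * (1 + Real.log (1 + M))) ^ 2 := by
      apply pow_le_pow_left₀ (by linarith)
      rw [e2]
      nlinarith [mul_nonneg hl2 hl1]
    calc 2 * Q = 2 * (P * √Λ) * (1 + Real.log Λ) ^ 2 := by rw [hQ]; ring
      _ ≤ 2 * (P * √Λ) * ((1 + Real.log C₂) * (1 + Real.log (1 + M))) ^ 2 := by gcongr
      _ = 2 * (P * √C₂ * (1 + Real.log C₂) ^ 2) * (√(1 + M) * (1 + Real.log (1 + M)) ^ 2) := by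
          rw [e1]
          ring
  obtain ⟨B, hB1, hPt⟩ := hA9 T E D G u p hN
  obtain ⟨Cb, hCb, hb⟩ := gG_bd
  obtain ⟨H, hH⟩ : ∃ H, H = Cb * |D| := ⟨_, rfl⟩
  have hH0 : 0 ≤ H := by rw [hH]; positivity
  obtain ⟨k', hk'⟩ := pow_unbounded_of_one_lt (4 ^ k * H + |D|) (one_lt_two (α := ℝ))
  obtain ⟨n, hn⟩ := exists_pow_lt_of_lt_one (show 0 < min (τ₁ / 2) (T - τ₂) from
    lt_min (by linarith) (by linarith)) (show (1 / 4 : ℝ) < 1 by norm_num)
  obtain ⟨k₀, hk₀⟩ : ∃ k₀, k₀ = max (max 3 k') n := ⟨_, rfl⟩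
  have hk3 : 3 ≤ k₀ := by rw [hk₀]; exact (le_max_left _ _).trans (le_max_left _ _)
  have hkk : k' ≤ k₀ := by rw [hk₀]; exact (le_max_right _ _).trans (le_max_left _ _)
  have hkn : n ≤ k₀ := by rw [hk₀]; exact le_max_right _ _
  have hrk : rr k₀ ^ 2 < min (τ₁ / 2) (T - τ₂) := by
    refine lt_of_le_of_lt ?_ hn
    have h6 : rr n ^ 2 = (1 / 4) ^ n := by
      unfold rr
      rw [← pow_mul, mul_comm, pow_mul]
      norm_num
    rw [← h6]
    exact pow_le_pow_left₀ (rr0 _).le (rr_anti hkn) 2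
  have hrk1 := hrk.trans_le (min_le_left _ _)
  have hrk2 := hrk.trans_le (min_le_right _ _)
  obtain ⟨K, hK⟩ : ∃ K, K = SgM G u τ₁ τ₂ L M k := ⟨_, rfl⟩
  obtain ⟨F, hF⟩ : ∃ F, F = Y7.FtG 16 G u := ⟨_, rfl⟩
  have hFm : Measurable F := by rw [hF]; exact Y7.FtG_meas 16 hN
  have hKm : ∀ z ∈ K, (z.1 ∈ Icc τ₁ τ₂ ∧ ‖z.2‖ < L ∧ SingPt G u z.1 z.2) ∧
      ∀ i ≥ k, ∫⁻ q in Cy i z, gG G u q ≤ ENNReal.ofReal (M * rr i) := by
    intro z hz
    rw [hK] at hz
    exact hz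
  have hPD : ∀ z ∈ K, ∃ e X : ℕ → ℝ, PtD F m C θ B k₀ z e X := by
    intro z hz
    obtain ⟨⟨hz1, -, hz3⟩, -⟩ := hKm z hz
    rw [hF]
    exact hPt k₀ z hk3 (by linarith [hz1.1]) (by linarith [hz1.2]) hz3
  have hdens : ∀ z ∈ K, ∀ i, k₀ ≤ i → ∫⁻ q in Cy i z, F q ≤ ENNReal.ofReal (Λ * rr i) := by
    intro z hz i hi
    have hri := rr0 i
    rw [hF]
    refine (hD1 T E D G u p hN z i).trans ((dens (M := M) (H := H) hC₁ hM hH0
      (fun j => ∫⁻ q in Cy j z, gG G u q) (hKm z hz).2 (fun j => by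
        rw [hH]
        exact hb T E D G u p hN z j) ?_).trans ?_)
    · refine hk'.le.trans (pow_le_pow_right₀ (by norm_num) (hkk.trans hi))
    · apply ENNReal.ofReal_le_ofReal
      refine mul_le_mul_of_nonneg_right ?_ hri.le
      rw [hΛ, hC₂]
      nlinarith [mul_nonneg hC₁.le hM]
  have hfin : ∫⁻ q in Nb K k₀, F q ≠ ⊤ := by
    rw [hF]
    exact nb_fin hN (fun z hz => (hKm z hz).1.2.1) k₀
  obtain ⟨D₀, hD₀⟩ : ∃ D₀, D₀ = (∫⁻ q in Nb K k₀, F q).toReal := ⟨_, rfl⟩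
  have hD0 : 0 ≤ D₀ := by rw [hD₀]; exact ENNReal.toReal_nonneg
  have hFD : ∫⁻ q in Nb K k₀, F q ≤ ENNReal.ofReal D₀ := by
    rw [hD₀, ENNReal.ofReal_toReal hfin]
  obtain ⟨c, hc⟩ : ∃ c, c = P * (k₀ + 1 + Real.log B + Real.log Λ) := ⟨_, rfl⟩
  have hA0 : 0 ≤ P * Λ ^ P * D₀ := by positivity
  obtain ⟨n₁, hn₁⟩ := limJ (P * Λ ^ P * D₀) c hQ0 hA0 hε
  obtain ⟨J, hJ⟩ : ∃ J, J = max n₁ (max ⌈c⌉₊ ⌈N + P * (1 + Real.log Λ)⌉₊) := ⟨_, rfl⟩
  have hJ1 : n₁ ≤ J := by rw [hJ]; exact le_max_left _ _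
  have hJ2 : c ≤ J := by
    refine (Nat.le_ceil c).trans ?_
    rw [hJ]
    exact_mod_cast (le_max_left _ _).trans (le_max_right _ _)
  have hJ3 : N + P * (1 + Real.log Λ) ≤ J := by
    refine (Nat.le_ceil _).trans ?_
    rw [hJ]
    exact_mod_cast (le_max_right _ _).trans (le_max_right _ _)
  obtain ⟨S, J', hJJ, hJJ', hcov, hcard⟩ := hBM F hFm K B D₀ Λ k₀ J hB1 hD0 hΛM hPD
    (fun z hz i hi _ => hdens z hz i hi) hFD (by rw [← hc]; exact hJ2)
  refine ⟨S.image (fun z => (J', z)), ?_, ?_, ?_⟩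
  · intro q hq
    obtain ⟨z, -, rfl⟩ := Finset.mem_image.1 hq
    have h3 : (N : ℝ) ≤ J' := by linarith
    exact_mod_cast h3
  · rw [← hK]
    intro z hz
    have h3 := hcov hz
    simp only [mem_iUnion, exists_prop] at h3 ⊢
    obtain ⟨x, hx, hzx⟩ := h3
    exact ⟨(J', x), Finset.mem_image_of_mem _ hx, hzx⟩
  · rw [Finset.sum_image (fun a _ b _ hab => (Prod.ext_iff.1 hab).2)]
    simp only [Finset.sum_const, nsmul_eq_mul]
    have h3 : (2 : ℝ) ^ (dM (1 / (2 * (P * √C₂ * (1 + Real.log C₂) ^ 2))) M * (J' : ℝ))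
        ≤ 2 ^ (1 / (2 * Q) * (J : ℝ)) := by
      apply Real.rpow_le_rpow_of_exponent_le (by norm_num)
      have h5 : (J' : ℝ) ≤ J := by exact_mod_cast hJJ
      exact mul_le_mul hdM h5 (Nat.cast_nonneg _) (by positivity)
    have h4 : (P * Λ ^ P * D₀) * Real.exp (-(J - c) / Q)
        = P * Λ ^ P * D₀ * Real.exp
        (-(J - P * (k₀ + 1 + Real.log B + Real.log Λ)) /
          (P * √Λ * (1 + Real.log Λ) ^ 2)) := by
      rw [hc, hQ]
    rw [← h4] at hcard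
    calc (S.card : ℝ) * (rr J' *
          2 ^ (dM (1 / (2 * (P * √C₂ * (1 + Real.log C₂) ^ 2))) M * (J' : ℝ)))
        = S.card * rr J' *
          2 ^ (dM (1 / (2 * (P * √C₂ * (1 + Real.log C₂) ^ 2))) M * (J' : ℝ)) := by ring
      _ ≤ (P * Λ ^ P * D₀) * Real.exp (-(J - c) / Q) * 2 ^ (1 / (2 * Q) * (J : ℝ)) := by
          refine mul_le_mul hcard h3 (by positivity) (by positivity)
      _ ≤ ε := hn₁ J hJ1

end Pool.Agent.N976.TL
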