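import Pool.Agent.N976.TL.Fin
import Pool.Agent.Y7.WLoc

/-!
The final form of the second theorem: viscosity (helper976).
-/

set_option autoImplicit false

open MeasureTheory Set Metric
open scoped ContDiff ENNReal

namespace Pool.Agent.N976.TL

open H459R3.NS W221.NS Pool.Agent.Y8 Pool.Agent.N977.H

lemma gG_meas {G : Set ℝ} {u : ℝ → V → V} (hG : IsOpen G)
    (hu : ContDiffOn ℝ ∞ (fun z : ℝ × V => u z.1 z.2) (G ×ˢ univ)) : Measurable (gG G u) := by
  have hgs : ContinuousOn (fun z : ℝ × V => gsq (u z.1) z.2) (G ×ˢ univ) :=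
    (gsq_joint hG hu).continuousOn
  have hS : MeasurableSet (G ×ˢ (univ : Set V)) := hG.measurableSet.prod MeasurableSet.univ
  exact W919.MH.MARK3.measurable_indicator hS hgs

/-- Change of variables in time. -/
lemma lint_scale {ν : ℝ} (hν : 0 < ν) {f : ℝ × V → ℝ≥0∞} (hf : Measurable f) :
    ∫⁻ q, f q = ENNReal.ofReal ν * ∫⁻ q : ℝ × V, f (ν * q.1, q.2) := by
  have hm : Measure.map (Prod.map (fun t : ℝ => ν * t) (id : V → V)) (volume : Measure (ℝ × V))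
      = ENNReal.ofReal ν⁻¹ • (volume : Measure (ℝ × V)) := by
    rw [Measure.volume_eq_prod, ← Measure.map_prod_map _ _ (by fun_prop) measurable_id,
      Real.map_volume_mul_left hν.ne', abs_of_pos (inv_pos.2 hν), Measure.map_id,
      Measure.prod_smul_left]
  have h1 := lintegral_map (μ := (volume : Measure (ℝ × V))) hf
    (show Measurable (Prod.map (fun t : ℝ => ν * t) (id : V → V)) by fun_prop)
  rw [hm, lintegral_smul_measure, smul_eq_mul] at h1
  have h2 : ∫⁻ q : ℝ × V, f (ν * q.1, q.2)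
      = ∫⁻ q : ℝ × V, f (Prod.map (fun t : ℝ => ν * t) (id : V → V) q) := rfl
  rw [h2, ← h1, ← mul_assoc, ← ENNReal.ofReal_mul hν.le, mul_inv_cancel₀ hν.ne',
    ENNReal.ofReal_one, one_mul]

/-- The density of the dissipation of the rescaled solution. -/
lemma dens_scale {ν T E D : ℝ} {G : Set ℝ} {u : ℝ → V → V} {p : ℝ → V → ℝ} (hν : 0 < ν)
    (hN : Turb ν T E D G u p) (i : ℕ) (t : ℝ) (x : V) {M : ℝ} (hM : 0 ≤ M)
    (h : ∫⁻ q in {q : ℝ × V | q.1 ∈ G ∧ ν * |q.1 - t| < rr i ^ 2 ∧ ‖q.2 - x‖ < rr i},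
      ENNReal.ofReal (gsq (u q.1) q.2) ≤ ENNReal.ofReal (M * ν * rr i)) :
    ∫⁻ q in Cy i (ν * t, x), gG {t | t / ν ∈ G} (fun t x => ν⁻¹ • u (t / ν) x) q
      ≤ ENNReal.ofReal (M * rr i) := by
  have h1 := (Pool.Agent.Y96.NS.t_WSCAL ν T E D G u p hν hN).1
  have hm := gG_meas (u := fun t x => ν⁻¹ • u (t / ν) x) h1.openG h1.smooth_u
  have hCm : MeasurableSet (Cy i (ν * t, x)) := measurableSet_Ioo.prod measurableSet_ball
  have hSm : MeasurableSet {q : ℝ × V | q.1 ∈ G ∧ ν * |q.1 - t| < rr i ^ 2 ∧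
      ‖q.2 - x‖ < rr i} := by
    refine (hN.openG.measurableSet.preimage measurable_fst).inter (MeasurableSet.inter ?_ ?_)
    · exact measurableSet_lt (Continuous.measurable (f := fun q : ℝ × V => ν * |q.1 - t|)
        (by fun_prop)) measurable_const
    · exact measurableSet_lt (Continuous.measurable (f := fun q : ℝ × V => ‖q.2 - x‖)
        (by fun_prop)) measurable_const
  rw [← lintegral_indicator hCm, lint_scale hν (hm.indicator hCm)]
  rw [← lintegral_indicator hSm] at h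
  have e : ∀ q : ℝ × V, (Cy i (ν * t, x)).indicator
      (gG {t | t / ν ∈ G} (fun t x => ν⁻¹ • u (t / ν) x)) (ν * q.1, q.2)
      = ENNReal.ofReal ((ν⁻¹) ^ 2) * {q : ℝ × V | q.1 ∈ G ∧ ν * |q.1 - t| < rr i ^ 2 ∧
        ‖q.2 - x‖ < rr i}.indicator (fun q => ENNReal.ofReal (gsq (u q.1) q.2)) q := by
    intro q
    have e1 : ν * q.1 / ν = q.1 := by field_simp
    have e2 : ν * |q.1 - t| = |ν * q.1 - ν * t| := by
      rw [← mul_sub, abs_mul, abs_of_pos hν]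
    by_cases hq : q ∈ {q : ℝ × V | q.1 ∈ G ∧ ν * |q.1 - t| < rr i ^ 2 ∧ ‖q.2 - x‖ < rr i}
    · rw [indicator_of_mem hq, indicator_of_mem]
      · unfold gG
        rw [indicator_of_mem]
        · simp only
          rw [Pool.Agent.Y96.NS.gsq_sm, e1, ENNReal.ofReal_mul (by positivity)]
        · refine ⟨?_, mem_univ _⟩
          show ν * q.1 / ν ∈ G
          rw [e1]
          exact hq.1
      · refine ⟨?_, ?_⟩
        · have h3 := hq.2.1
          rw [e2, abs_lt] at h3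
          exact ⟨by simp only; linarith [h3.1], by simp only; linarith [h3.2]⟩
        · rw [mem_ball, dist_eq_norm]
          exact hq.2.2
    · rw [indicator_of_notMem hq, mul_zero]
      by_cases hc : (ν * q.1, q.2) ∈ Cy i (ν * t, x)
      · rw [indicator_of_mem hc]
        unfold gG
        rw [indicator_of_notMem]
        intro h4
        have h5 : ν * q.1 / ν ∈ G := h4.1
        rw [e1] at h5
        apply hq
        refine ⟨h5, ?_, ?_⟩
        · rw [e2, abs_lt]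
          have h6 : ν * q.1 ∈ Ioo (ν * t - rr i ^ 2) (ν * t + rr i ^ 2) := hc.1
          exact ⟨by linarith [h6.1], by linarith [h6.2]⟩
        · have h6 : q.2 ∈ ball x (rr i) := hc.2
          rwa [mem_ball, dist_eq_norm] at h6
      · rw [indicator_of_notMem hc]
  simp_rw [e]
  rw [lintegral_const_mul' _ _ ENNReal.ofReal_ne_top]
  refine (mul_le_mul_right (mul_le_mul_right h _) _).trans ?_
  rw [← ENNReal.ofReal_mul (by positivity), ← ENNReal.ofReal_mul hν.le]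
  apply ENNReal.ofReal_le_ofReal
  apply le_of_eq
  field_simp

/-- The second main theorem. -/
theorem fin2 {c : ℝ} (hc : ∀ (T E D : ℝ) (G : Set ℝ) (u : ℝ → V → V) (p : ℝ → V → ℝ),
      Turb 1 T E D G u p → ∀ τ₁ τ₂ L : ℝ, 0 < τ₁ → τ₂ < T → ∀ (M : ℝ) (k : ℕ), 0 ≤ M →
        CovG (fun i => 2 ^ (dM c M * i)) (SgM G u τ₁ τ₂ L M k))
    {ν T E D : ℝ} {G : Set ℝ} {u : ℝ → V → V} {p : ℝ → V → ℝ} (hν : 0 < ν)
    (hN : Turb ν T E D G u p) {M : ℝ} (hM : 0 ≤ M) {ε : ℝ} (hε : 0 < ε) :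
    ∃ (ι : Type) (_ : Countable ι) (s : ι → ℝ) (y : ι → V) (r : ι → ℝ),
      (∀ i, 0 < r i ∧ r i ≤ ε) ∧
      ∑' i, ENNReal.ofReal (r i ^ (1 - dM c M)) ≤ ENNReal.ofReal ε ∧
      ∀ t ∈ Ioo 0 T, ∀ x : V, SingPt G u t x →
        (∃ r₀ > 0, ∀ r ∈ Ioo 0 r₀,
          ∫⁻ q in {q : ℝ × V | q.1 ∈ G ∧ ν * |q.1 - t| < r ^ 2 ∧ ‖q.2 - x‖ < r},
            ENNReal.ofReal (gsq (u q.1) q.2) ≤ ENNReal.ofReal (M * ν * r)) →
        ∃ i, ν * |t - s i| < r i ^ 2 ∧ ‖x - y i‖ < r i := by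
  obtain ⟨J₀, hJ₀⟩ := ex_rr hε
  obtain ⟨h1, h2⟩ := Pool.Agent.Y96.NS.t_WSCAL ν T E D G u p hν hN
  obtain ⟨ι, hι, s, y, l, hl, hs, hcv⟩ := cov2 (δ := dM c) hM
    (fun τ₁ τ₂ L h3 h4 M k h5 => hc _ _ _ _ _ _ h1 τ₁ τ₂ L h3 h4 M k h5) J₀ hε
  refine ⟨ι, hι, fun i => s i / ν, y, fun i => rr (l i), fun i => ⟨rr0 _, ?_⟩, ?_, ?_⟩
  · exact (rr_anti (hl i)).trans hJ₀
  · refine le_trans (le_of_eq ?_) hs
    refine tsum_congr fun i => ?_
    congr 1
    have h3 : rr (l i) = (2 : ℝ) ^ (-(l i : ℝ)) := by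
      unfold rr
      rw [Real.rpow_neg (by norm_num), Real.rpow_natCast, one_div, inv_pow]
    simp only
    rw [h3, ← Real.rpow_mul (by norm_num), ← Real.rpow_add (by norm_num)]
    congr 1
    ring
  · intro t ht x hx hd
    obtain ⟨r₀, hr₀, hd⟩ := hd
    obtain ⟨k, hk⟩ := ex_rr (half_pos hr₀)
    obtain ⟨i, hi1, hi2⟩ := hcv (ν * t) ⟨mul_pos hν ht.1, mul_lt_mul_of_pos_left ht.2 hν⟩ x
      (h2 t x hx) ⟨k, fun i hi => dens_scale hν hN i t x hM (hd (rr i) ⟨rr0 i,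
        ((rr_anti hi).trans hk).trans_lt (half_lt_self hr₀)⟩)⟩
    refine ⟨i, ?_, hi2⟩
    have e : ν * |t - s i / ν| = |ν * t - s i| := by
      rw [← abs_of_pos hν, ← abs_mul, abs_of_pos hν]
      congr 1
      field_simp
    rw [e]
    exact hi1

end Pool.Agent.N976.TL
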