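import Pool.Agent.N976.TL.Stm

/-!
# TL/A2 (project TL, subtask 5379, helper42): the estimate on the whole time interval

The windows of length `h * rr i ^ 2`, `h = c / (1 + a + e)`, cover the interval; they overlap at most
twice, so the sum of the integrals of the function of the gradient is at most twice the integral.
-/

set_option autoImplicit false

open MeasureTheory Set Metric
open scoped ContDiff ENNReal

namespace Pool.Agent.N976.TL

open H459R3.NS W221.NS Pool.Agent.Y8 Pool.Agent.N977.H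

namespace A2

/-- the integral over an interval is the sum over the pieces -/
lemma sum_Ioc (f : ℝ → ℝ≥0∞) (b δ : ℝ) (hδ : 0 ≤ δ) (N : ℕ) :
    ∑ j ∈ Finset.range N, ∫⁻ t in Ioc (b + j * δ) (b + (j + 1) * δ), f t =
      ∫⁻ t in Ioc b (b + N * δ), f t := by
  induction N with
  | zero => simp
  | succ N ih =>
    rw [Finset.sum_range_succ, ih]
    have h1 : b ≤ b + N * δ := by
      have : (0 : ℝ) ≤ N * δ := by positivity
      linarith
    have h2 : b + N * δ ≤ b + (N + 1) * δ := by linarith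
    rw [← lintegral_union measurableSet_Ioc, Ioc_union_Ioc_eq_Ioc h1 h2]
    · push_cast; rfl
    · rw [disjoint_left]
      intro x hx hx'
      exact absurd hx.2 (not_le.2 hx'.1)

lemma lint_Ioo_Ioc (f : ℝ → ℝ≥0∞) (b d : ℝ) : ∫⁻ t in Ioc b d, f t = ∫⁻ t in Ioo b d, f t := by
  rw [restrict_Ioo_eq_restrict_Ioc]

lemma Dc_mono {C C' f f' A : ℝ} {v : V → V} (h : Dc C f A v) (hC : C ≤ C') (hf : f ≤ f') :
    Dc C' f' A v := by
  obtain ⟨W, h1, h2, h3⟩ := h
  refine ⟨W, h1, h2.trans hf, fun z hz i => ⟨(h3 z hz i).1.trans ?_, fun j =>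
    ((h3 z hz i).2 j).trans ?_⟩⟩ <;> exact mul_le_mul_of_nonneg_right hC (Real.sqrt_nonneg _)

end A2

open A2 in
theorem t_A2 (hA : S_A2a) : S_A2 := by
  obtain ⟨C, c, hC, hc, hc2, H⟩ := hA
  have hK : 0 < 4 / c + 16 := by positivity
  refine ⟨C * (4 / c + 16), mul_pos hC hK, ?_⟩
  intro T E D G u p hT t₀ x₀ y i a e hL ha hmo
  have he := hL.e0
  have hr := rr0 i
  obtain ⟨R, hR⟩ : ∃ R, R = rr i ^ 2 := ⟨_, rfl⟩
  have hR0 : 0 < R := by rw [hR]; positivity
  have h1ae : 0 < 1 + a + e := by linarith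
  obtain ⟨h, hh⟩ : ∃ h, h = c / (1 + a + e) := ⟨_, rfl⟩
  have hh0 : 0 < h := by rw [hh]; positivity
  have hhc : h * (1 + a + e) = c := by rw [hh]; field_simp
  have hh2 : h ≤ 1 / 2 := by
    have : h ≤ c := by
      rw [hh, div_le_iff₀ h1ae]
      nlinarith
    linarith
  have hq : (1 + a) * e + e ^ 2 = e * (1 + a + e) := by ring
  have heh : e / h = ((1 + a) * e + e ^ 2) / c := by
    rw [hq, ← hhc]
    field_simp
  have hS : rr (i + 1) ^ 2 = R / 4 := by rw [rrS, hR]; ring
  have hL' := hL.hF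
  rw [← hR] at hL'
  have hWi : Wi t₀ i = Ioo (t₀ - R) (t₀ + R) := by unfold Wi; rw [hR]
  have hWi1 : Wi t₀ (i + 1) = Ioo (t₀ - R / 4) (t₀ + R / 4) := by unfold Wi; rw [hS]
  have hHR := H T E D G u p hT t₀ x₀ y i a e hL ha hmo h hh0 hhc.le
  simp only [← hR] at hHR
  have hQ0 : 0 ≤ (1 + a) * e + e ^ 2 := by rw [hq]; positivity
  have hhR : h * R ≤ R / 2 := by nlinarith
  have hhR0 : 0 < h * R := mul_pos hh0 hR0
  refine ⟨?_, ?_⟩
  swap
  · -- the second part
    rintro t ⟨ht, htG⟩
    rw [hWi1] at ht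
    have hsub : Ioo (t + h * R / 16 - h * R) (t + h * R / 16) ⊆ Wi t₀ i := by
      rw [hWi]
      exact Ioo_subset_Ioo (by linarith [ht.1]) (by linarith [ht.2])
    have h1 := (hHR (t + h * R / 16) t e (by linarith [ht.1]) (by linarith [ht.2])
      ⟨by linarith, by linarith⟩ he ((lintegral_mono_set hsub).trans hL')).2 htG
      (by linarith) (by linarith)
    refine Dc_mono h1 ?_ ?_
    · have : (1 : ℝ) ≤ 4 / c + 16 := by
        have : 0 < 4 / c := by positivity
        linarith
      exact le_mul_of_one_le_right hC.le this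
    · rw [mul_assoc]
      refine mul_le_mul_of_nonneg_left ?_ hC.le
      rw [heh]
      have h2 : ((1 + a) * e + e ^ 2) / c ≤ 4 / c * ((1 + a) * e + e ^ 2) := by
        rw [div_mul_eq_mul_div]
        refine div_le_div_of_nonneg_right ?_ hc.le
        linarith
      have h3 : e ^ 2 ≤ 16 * ((1 + a) * e + e ^ 2) := by nlinarith [mul_nonneg ha he.le, sq_nonneg e]
      linarith
  · -- the first part
    obtain ⟨N, hN⟩ : ∃ N : ℕ, N = ⌈8 / (9 * h)⌉₊ := ⟨_, rfl⟩
    obtain ⟨δ, hδ⟩ : ∃ δ, δ = 9 / 16 * h * R := ⟨_, rfl⟩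
    have hδ0 : 0 < δ := by rw [hδ]; positivity
    have hN1 : 8 / (9 * h) ≤ N := by rw [hN]; exact Nat.le_ceil _
    have hN2 : (N : ℝ) < 8 / (9 * h) + 1 := by
      rw [hN]; exact Nat.ceil_lt_add_one (by positivity)
    have e1 : 8 / (9 * h) * δ = R / 2 := by rw [hδ]; field_simp; ring
    have hNδ1 : R / 2 ≤ N * δ := by rw [← e1]; exact mul_le_mul_of_nonneg_right hN1 hδ0.le
    have hNδ2 : N * δ ≤ R / 2 + δ := by
      have := mul_le_mul_of_nonneg_right hN2.le hδ0.le
      rw [add_mul, e1, one_mul] at this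
      exact this
    obtain ⟨b, hb⟩ : ∃ b, b = t₀ - R / 4 - δ := ⟨_, rfl⟩
    have hδR : δ ≤ 9 / 32 * R := by rw [hδ]; nlinarith
    have hhδ : h * R ≤ 2 * δ := by rw [hδ]; nlinarith
    -- the integrals of F
    obtain ⟨F, hF⟩ : ∃ F : ℝ → ℝ≥0∞, F = fun τ => Y7.FtG 16 G u (τ, y) := ⟨_, rfl⟩
    obtain ⟨s, hs⟩ : ∃ s : ℕ → ℝ, s = fun j : ℕ => b + ((j : ℝ) + 2) * δ := ⟨_, rfl⟩
    obtain ⟨I, hI⟩ : ∃ I : ℕ → ℝ≥0∞, I = fun j => ∫⁻ τ in Ioo (s j - h * R) (s j), F τ := ⟨_, rfl⟩
    have hIle : ∀ j, I j ≤ (∫⁻ τ in Ioc (b + j * δ) (b + (j + 1) * δ), F τ) +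
        ∫⁻ τ in Ioc (b + ((j + 1 : ℕ) : ℝ) * δ) (b + (((j + 1 : ℕ) : ℝ) + 1) * δ), F τ := by
      intro j
      rw [hI]
      refine le_trans (lintegral_mono_set ?_) (lintegral_union_le _ _ _)
      intro x hx
      simp only [hs] at hx
      by_cases hx' : x ≤ b + (j + 1) * δ
      · left
        exact ⟨by linarith [hx.1], hx'⟩
      · right
        push Not at hx'
        push_cast
        exact ⟨hx', by linarith [hx.2]⟩
    have hcov : Ioc b (b + ((N + 1 : ℕ) : ℝ) * δ) ⊆ Wi t₀ i := by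
      rw [hWi]
      intro x hx
      push_cast at hx
      constructor
      · have := hx.1; rw [hb] at this; linarith
      · have := hx.2; rw [hb] at this; linarith
    have hsumF : ∑ j ∈ Finset.range (N + 1), ∫⁻ τ in Ioc (b + j * δ) (b + (j + 1) * δ), F τ ≤
        ENNReal.ofReal (e / R) := by
      rw [sum_Ioc F b δ hδ0.le]
      refine (lintegral_mono_set hcov).trans ?_
      rw [hF]
      exact hL'
    have hsumI : ∑ j ∈ Finset.range N, I j ≤ 2 * ENNReal.ofReal (e / R) := by
      calc ∑ j ∈ Finset.range N, I j ≤ ∑ j ∈ Finset.range N,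
            ((∫⁻ τ in Ioc (b + j * δ) (b + (j + 1) * δ), F τ) +
            ∫⁻ τ in Ioc (b + ((j + 1 : ℕ) : ℝ) * δ) (b + (((j + 1 : ℕ) : ℝ) + 1) * δ), F τ) :=
            Finset.sum_le_sum fun j _ => hIle j
        _ = (∑ j ∈ Finset.range N, ∫⁻ τ in Ioc (b + j * δ) (b + (j + 1) * δ), F τ) +
            ∑ j ∈ Finset.range N, ∫⁻ τ in Ioc (b + ((j + 1 : ℕ) : ℝ) * δ)
              (b + (((j + 1 : ℕ) : ℝ) + 1) * δ), F τ := Finset.sum_add_distrib
        _ ≤ ENNReal.ofReal (e / R) + ENNReal.ofReal (e / R) := by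
            refine add_le_add ?_ ?_
            · refine le_trans ?_ hsumF
              rw [Finset.sum_range_succ]
              exact le_self_add
            · refine le_trans ?_ hsumF
              rw [Finset.sum_range_succ' _ N]
              exact le_self_add
        _ = _ := by rw [two_mul]
    have hfin : ∀ j ∈ Finset.range N, I j ≠ ⊤ := by
      intro j hj
      have h1 := Finset.single_le_sum (f := I) (fun _ _ => bot_le) hj
      exact ((h1.trans hsumI).trans_lt (ENNReal.mul_lt_top (by norm_num) ENNReal.ofReal_lt_top)).ne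
    have hsumR : ∑ j ∈ Finset.range N, (I j).toReal ≤ 2 * (e / R) := by
      rw [← ENNReal.toReal_sum hfin]
      have h1 := ENNReal.toReal_mono (ENNReal.mul_lt_top (by norm_num)
        (ENNReal.ofReal_lt_top (r := e / R))).ne hsumI
      rwa [ENNReal.toReal_mul, ENNReal.toReal_ofNat, ENNReal.toReal_ofReal (by positivity)] at h1
    obtain ⟨g, hg⟩ : ∃ g : ℕ → ℝ, g = fun j => R * (I j).toReal + e * h := ⟨_, rfl⟩
    have hg0 : ∀ j, 0 < g j := by
      intro j
      rw [hg]
      have : 0 ≤ R * (I j).toReal := by positivity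
      have := mul_pos he hh0
      show 0 < R * (I j).toReal + e * h
      linarith
    have hNh : (N : ℝ) * h ≤ 2 := by
      have h1 : (8 / (9 * h) + 1) * h = 8 / 9 + h := by field_simp
      have h2 := mul_le_mul_of_nonneg_right hN2.le hh0.le
      rw [h1] at h2
      linarith
    have hsumg : ∑ j ∈ Finset.range N, g j ≤ 4 * e := by
      rw [hg, Finset.sum_add_distrib, ← Finset.mul_sum, Finset.sum_const, Finset.card_range,
        nsmul_eq_mul]
      have h1 : R * ∑ j ∈ Finset.range N, (I j).toReal ≤ R * (2 * (e / R)) :=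
        mul_le_mul_of_nonneg_left hsumR hR0.le
      have h2 : R * (2 * (e / R)) = 2 * e := by field_simp
      have h3 : (N : ℝ) * (e * h) ≤ 2 * e := by
        have := mul_le_mul_of_nonneg_right hNh he.le
        linarith
      linarith
    -- the windows
    have hwin : ∀ j ∈ Finset.range N, ∫⁻ t in Ioc (b + ((j + 1 : ℕ) : ℝ) * δ)
        (b + (((j + 1 : ℕ) : ℝ) + 1) * δ), ENNReal.ofReal (B2 x₀ (rr (i + 1)) (u t)) ≤
        ENNReal.ofReal (C * rr i * (g j / h + g j ^ 2)) := by
      intro j hj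
      have hjN : (j : ℝ) + 1 ≤ N := by exact_mod_cast Finset.mem_range.1 hj
      have hj0 : (0 : ℝ) ≤ j := Nat.cast_nonneg j
      have hsj : s j = b + ((j : ℝ) + 2) * δ := by rw [hs]
      have h1 : t₀ - R ≤ s j - h * R := by
        rw [hsj, hb]
        have : 0 ≤ (j : ℝ) * δ := by positivity
        linarith
      have h2 : s j < t₀ + R := by
        rw [hsj, hb]
        have : ((j : ℝ) + 1) * δ ≤ N * δ := mul_le_mul_of_nonneg_right hjN hδ0.le
        linarith
      have h3 : ∫⁻ τ in Ioo (s j - h * R) (s j), Y7.FtG 16 G u (τ, y) ≤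
          ENNReal.ofReal (g j / R) := by
        have h4 : I j = ∫⁻ τ in Ioo (s j - h * R) (s j), Y7.FtG 16 G u (τ, y) := by
          rw [hI, hF]
        rw [← h4, ← ENNReal.ofReal_toReal (hfin j hj)]
        refine ENNReal.ofReal_le_ofReal ?_
        rw [le_div_iff₀ hR0, hg]
        have := mul_pos he hh0
        show (I j).toReal * R ≤ R * (I j).toReal + e * h
        linarith
      have h5 := (hHR (s j) (s j) (g j) h1 h2 ⟨by linarith, le_rfl⟩ (hg0 j) h3).1
      rw [lint_Ioo_Ioc]
      have h6 : b + ((j + 1 : ℕ) : ℝ) * δ = s j - 9 / 16 * h * R := by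
        rw [hsj, ← hδ]; push_cast; ring
      have h7 : b + (((j + 1 : ℕ) : ℝ) + 1) * δ = s j := by
        rw [hsj]; push_cast; ring
      rw [h6, h7]
      exact h5
    have hcov2 : Wi t₀ (i + 1) ⊆ Ioc (b + δ) ((b + δ) + N * δ) := by
      rw [hWi1]
      intro x hx
      constructor
      · have := hx.1; rw [hb]; linarith
      · have := hx.2; rw [hb]; linarith
    calc ∫⁻ t in Wi t₀ (i + 1), ENNReal.ofReal (B2 x₀ (rr (i + 1)) (u t))
        ≤ ∫⁻ t in Ioc (b + δ) ((b + δ) + N * δ), ENNReal.ofReal (B2 x₀ (rr (i + 1)) (u t)) :=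
          lintegral_mono_set hcov2
      _ = ∑ j ∈ Finset.range N, ∫⁻ t in Ioc ((b + δ) + j * δ) ((b + δ) + (j + 1) * δ),
            ENNReal.ofReal (B2 x₀ (rr (i + 1)) (u t)) := (sum_Ioc _ _ _ hδ0.le N).symm
      _ ≤ ∑ j ∈ Finset.range N, ENNReal.ofReal (C * rr i * (g j / h + g j ^ 2)) := by
          refine Finset.sum_le_sum fun j hj => ?_
          have h6 : (b + δ) + (j : ℝ) * δ = b + ((j + 1 : ℕ) : ℝ) * δ := by push_cast; ring
          have h7 : (b + δ) + ((j : ℝ) + 1) * δ = b + (((j + 1 : ℕ) : ℝ) + 1) * δ := by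
            push_cast; ring
          rw [h6, h7]
          exact hwin j hj
      _ = ENNReal.ofReal (∑ j ∈ Finset.range N, C * rr i * (g j / h + g j ^ 2)) := by
          rw [ENNReal.ofReal_sum_of_nonneg]
          intro j _
          have := hg0 j
          positivity
      _ ≤ ENNReal.ofReal (C * (4 / c + 16) * rr i * ((1 + a) * e + e ^ 2)) := by
          refine ENNReal.ofReal_le_ofReal ?_
          rw [← Finset.mul_sum, Finset.sum_add_distrib, ← Finset.sum_div]
          have h8 : ∑ j ∈ Finset.range N, g j ^ 2 ≤ (4 * e) ^ 2 := by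
            have h13 : ∑ j ∈ Finset.range N, g j ^ 2 ≤
                ∑ j ∈ Finset.range N, g j * ∑ l ∈ Finset.range N, g l := by
              refine Finset.sum_le_sum fun j hj => ?_
              rw [sq]
              exact mul_le_mul_of_nonneg_left
                (Finset.single_le_sum (fun l _ => (hg0 l).le) hj) (hg0 j).le
            rw [← Finset.sum_mul, ← sq] at h13
            exact h13.trans
              (pow_le_pow_left₀ (Finset.sum_nonneg fun j _ => (hg0 j).le) hsumg 2)
          have h9 : (∑ j ∈ Finset.range N, g j) / h ≤ 4 * e / h :=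
            div_le_div_of_nonneg_right hsumg hh0.le
          have h10 : 4 * e / h = 4 / c * ((1 + a) * e + e ^ 2) := by
            rw [mul_div_assoc, heh]; ring
          have h11 : (4 * e) ^ 2 ≤ 16 * ((1 + a) * e + e ^ 2) := by
            nlinarith [mul_nonneg ha he.le, sq_nonneg e]
          have h12 : C * (4 / c + 16) * rr i * ((1 + a) * e + e ^ 2) =
            C * rr i * (4 / c * ((1 + a) * e + e ^ 2) + 16 * ((1 + a) * e + e ^ 2)) := by ring
          rw [h12]
          refine mul_le_mul_of_nonneg_left ?_ (by positivity)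
          linarith

end Pool.Agent.N976.TL
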