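import Pool.Agent.N976.TL.Stm

/-!
Project TL (helper976): the good levels (helper704).
-/

set_option autoImplicit false

open MeasureTheory Set Metric
open scoped ContDiff ENNReal

namespace Pool.Agent.N976.TL

open H459R3.NS W221.NS Pool.Agent.Y8 Pool.Agent.N977.H

namespace B2

lemma Cy_anti {i j : ℕ} (h : i ≤ j) (z : ℝ × V) : Cy j z ⊆ Cy i z := by
  have h1 := rr_anti h
  have h2 : rr j ^ 2 ≤ rr i ^ 2 := pow_le_pow_left₀ (rr0 _).le h1 2
  exact prod_mono (Ioo_subset_Ioo (by linarith) (by linarith)) (ball_subset_ball h1)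

lemma vball (x : V) {r : ℝ} (hr : 0 < r) : volume (ball x r) = ENNReal.ofReal (8 * r ^ 3) := by
  rw [Real.volume_pi_ball _ hr, Fintype.card_fin]
  congr 1
  ring

/-- The lower bound for the integral over a cylinder. -/
lemma low_int {F : ℝ × V → ℝ≥0∞} (hF : Measurable F) (z : ℝ × V) (i : ℕ) {e : ℝ} (he : 0 ≤ e)
    (h : ∀ᵐ y ∂(volume.restrict (ball z.2 (rr (i + 6)))),
      ENNReal.ofReal (e / rr i ^ 2) ≤ ∫⁻ τ in Wi z.1 i, F (τ, y)) :
    ENNReal.ofReal (rr i * e / 32768) ≤ ∫⁻ q in Cy i z, F q := by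
  have h1 : ∫⁻ q in Cy i z, F q = ∫⁻ y in ball z.2 (rr i), ∫⁻ τ in Wi z.1 i, F (τ, y) := by
    unfold Cy
    rw [Measure.volume_eq_prod, ← Measure.prod_restrict, lintegral_prod_symm' _ hF]
  rw [h1]
  have h2 : ∫⁻ y in ball z.2 (rr (i + 6)), ∫⁻ τ in Wi z.1 i, F (τ, y) ≤
      ∫⁻ y in ball z.2 (rr i), ∫⁻ τ in Wi z.1 i, F (τ, y) :=
    lintegral_mono_set (ball_subset_ball (rr_anti (by omega)))
  refine le_trans ?_ h2
  have h3 : ∫⁻ _ in ball z.2 (rr (i + 6)), ENNReal.ofReal (e / rr i ^ 2) ≤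
      ∫⁻ y in ball z.2 (rr (i + 6)), ∫⁻ τ in Wi z.1 i, F (τ, y) := lintegral_mono_ae h
  refine le_trans (le_of_eq ?_) h3
  rw [setLIntegral_const, vball _ (rr0 _), ← ENNReal.ofReal_mul (by positivity)]
  congr 1
  have h4 : rr (i + 6) = rr i / 64 := by
    unfold rr; rw [pow_add]; norm_num; ring
  have h5 := (rr0 i).ne'
  rw [h4]
  field_simp
  ring

end B2

theorem t_B2 : S_B1 → S_B2 := by
  intro hB1 m C θ hm hC hθ
  obtain ⟨P₁, θ', hP1, hθ', key⟩ := hB1 m (max C 32768) θ hm (lt_max_of_lt_left hC) hθ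
  have hP10 : 0 < P₁ := by linarith
  set C₁ : ℝ := C * (1 / θ' + P₁ + 1) with hC1
  have hC10 : 0 < C₁ := by positivity
  set P₂ : ℝ := 65536 * Real.exp P₁ / θ' with hP2
  have hP20 : 0 < P₂ := by positivity
  set P : ℝ := 1 + P₁ + P₂ + C₁ with hP
  have hP0 : 0 < P := by linarith
  refine ⟨P, by linarith, ?_⟩
  intro F hF z e X B Λ k₀ J hB hΛ hD hdens k w hk hw
  have hlogB : 0 ≤ Real.log B := Real.log_nonneg hB
  have hlogΛ : 0 ≤ Real.log Λ := Real.log_nonneg hΛ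
  have hΛ0 : 0 < Λ := by linarith
  have hk0 : (0 : ℝ) ≤ k₀ := Nat.cast_nonneg _
  have hkk : k₀ ≤ k := by
    have : (k₀ : ℝ) ≤ k := by nlinarith
    exact_mod_cast this
  have hlow : ∀ i, k₀ ≤ i → ENNReal.ofReal (rr i * e i / 32768) ≤ ∫⁻ q in Cy i z, F q :=
    fun i hi => B2.low_int hF z i (hD.e0 i) (hD.low i hi)
  have hebd : ∀ i, k₀ ≤ i → i ≤ J → e i ≤ max C 32768 * Λ := by
    intro i hi hiJ
    have h1 := (hlow i hi).trans (hdens i hi hiJ)
    have h2 := rr0 i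
    rw [ENNReal.ofReal_le_ofReal_iff (by positivity)] at h1
    have h3 : rr i * e i ≤ rr i * (32768 * Λ) := by
      rw [div_le_iff₀ (by norm_num)] at h1
      linarith
    have h4 : e i ≤ 32768 * Λ := le_of_mul_le_mul_left h3 h2
    have h5 : 32768 * Λ ≤ max C 32768 * Λ := mul_le_mul_of_nonneg_right (le_max_right _ _) hΛ0.le
    linarith
  have hrcs : ∀ i ≥ k₀, X (i + m) ≤ X i / 4 + max C 32768 * (e i + e i ^ 2) := by
    intro i hi
    have h1 := hD.rcs i hi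
    have h2 := hD.e0 i
    have h3 : C * (e i + e i ^ 2) ≤ max C 32768 * (e i + e i ^ 2) :=
      mul_le_mul_of_nonneg_right (le_max_left _ _) (by positivity)
    linarith
  set w₀ : ℕ := ⌈P₁ * (1 + Real.log Λ)⌉₊ with hw0
  have hw1 : P₁ * (1 + Real.log Λ) ≤ w₀ := Nat.le_ceil _
  have hw2 : (w₀ : ℝ) < P₁ * (1 + Real.log Λ) + 1 := Nat.ceil_lt_add_one (by positivity)
  have hw3 : w₀ ≤ w := by
    have : (w₀ : ℝ) < w + 1 := by nlinarith
    have h2 : w₀ < w + 1 := by exact_mod_cast this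
    omega
  have hgood : ∀ l, k ≤ l → l + w ≤ J → ∃ i, l ≤ i ∧ i ≤ l + w₀ ∧ θ' ≤ e i ∧
      X i ≤ P₁ * e i ^ 2 := by
    intro l hl hlJ
    refine key e X B Λ k₀ J hD.e0 hD.X0 hB hΛ hrcs hD.crit hD.base hebd l w₀ ?_ hw1 (by omega)
    have h1 : P₁ * (k₀ + 1 + Real.log B) ≤ P * (k₀ + 1 + Real.log B) :=
      mul_le_mul_of_nonneg_right (by linarith) (by positivity)
    have h2 : (k : ℝ) ≤ l := by exact_mod_cast hl
    linarith
  refine ⟨?_, ?_, ?_⟩
  · intro i hi hiJ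
    exact hdens i (hkk.trans hi) hiJ
  · intro i hi hiJ
    obtain ⟨i', h1, h2, h3, -⟩ := hgood i hi hiJ
    have h4 : ∫⁻ q in Cy i' z, F q ≤ ∫⁻ q in Cy i z, F q :=
      lintegral_mono_set (B2.Cy_anti h1 z)
    refine le_trans ?_ ((hlow i' (by omega)).trans h4)
    apply ENNReal.ofReal_le_ofReal
    have h5 : rr (i + w₀) ≤ rr i' := rr_anti h2
    have h6 := rr0 (i + w₀)
    have h7 : rr (i + w₀) * θ' / 32768 ≤ rr i' * e i' / 32768 := by
      apply div_le_div_of_nonneg_right _ (by norm_num)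
      exact mul_le_mul h5 h3 hθ'.le (rr0 _).le
    refine le_trans ?_ h7
    have h8 : rr (i + w₀) = rr i * (1 / 2) ^ w₀ := by unfold rr; rw [pow_add]
    have h9 : (2 : ℝ) ^ w₀ ≤ 2 * (Real.exp P₁ * Λ ^ P₁) := by
      have e1 : (2 : ℝ) ^ w₀ = (2 : ℝ) ^ (w₀ : ℝ) := (Real.rpow_natCast 2 w₀).symm
      have e2 : (2 : ℝ) ^ (w₀ : ℝ) ≤ (2 : ℝ) ^ (P₁ * (1 + Real.log Λ) + 1) :=
        Real.rpow_le_rpow_of_exponent_le (by norm_num) hw2.le
      have e3 : (2 : ℝ) ^ (P₁ * (1 + Real.log Λ) + 1) =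
          2 * (2 : ℝ) ^ (P₁ * (1 + Real.log Λ)) := by
        rw [Real.rpow_add (by norm_num), Real.rpow_one, mul_comm]
      have e4 : (2 : ℝ) ^ (P₁ * (1 + Real.log Λ)) ≤ Real.exp (P₁ * (1 + Real.log Λ)) := by
        rw [← Real.exp_one_rpow]
        exact Real.rpow_le_rpow (by norm_num) (by linarith [Real.exp_one_gt_d9]) (by positivity)
      have e5 : Real.exp (P₁ * (1 + Real.log Λ)) = Real.exp P₁ * Λ ^ P₁ := by
        rw [Real.rpow_def_of_pos hΛ0, ← Real.exp_add]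
        congr 1
        ring
      rw [e1]
      rw [← e5]
      linarith
    have h10 : Λ ^ P₁ ≤ Λ ^ P := Real.rpow_le_rpow_of_exponent_le hΛ (by linarith)
    have h11 : 32768 * (2 : ℝ) ^ w₀ ≤ P * Λ ^ P * θ' := by
      have f1 : P₂ * θ' = 65536 * Real.exp P₁ := by
        rw [hP2]; field_simp
      have f2 : 0 < Λ ^ P := Real.rpow_pos_of_pos hΛ0 _
      calc 32768 * (2 : ℝ) ^ w₀ ≤ 32768 * (2 * (Real.exp P₁ * Λ ^ P₁)) := by linarith
        _ = (65536 * Real.exp P₁) * Λ ^ P₁ := by ring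
        _ ≤ (65536 * Real.exp P₁) * Λ ^ P := mul_le_mul_of_nonneg_left h10 (by positivity)
        _ = P₂ * (Λ ^ P * θ') := by rw [← f1]; ring
        _ ≤ P * (Λ ^ P * θ') := mul_le_mul_of_nonneg_right (by linarith) (by positivity)
        _ = P * Λ ^ P * θ' := by ring
    have h12 : 0 < Λ ^ P := Real.rpow_pos_of_pos hΛ0 _
    have h13 := rr0 i
    rw [h8, one_div_pow]
    rw [div_mul_eq_mul_div, one_mul, div_le_div_iff₀ (by positivity) (by norm_num)]
    have h14 : rr i * (1 / 2 ^ w₀) * θ' * (P * Λ ^ P) =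
        rr i * (P * Λ ^ P * θ' / 2 ^ w₀) := by ring
    rw [h14]
    apply mul_le_mul_of_nonneg_left _ h13.le
    rw [le_div_iff₀ (by positivity)]
    exact h11
  · intro l hl hlJ
    obtain ⟨i, h1, h2, h3, h4⟩ := hgood l hl hlJ
    have he : 0 < e i := lt_of_lt_of_le hθ' h3
    have hi0 : k₀ ≤ i := by omega
    have hr := rr0 i
    refine ⟨i, e i, h1, by omega, he, hD.low i hi0, ?_⟩
    have hsΛ : 1 ≤ √Λ := Real.one_le_sqrt.2 hΛ
    rcases le_or_gt (e i) (√Λ) with h5 | h5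
    · refine (hD.mass i hi0).trans (ENNReal.ofReal_le_ofReal ?_)
      have h6 : √(X i) ≤ P₁ * e i := by
        rw [Real.sqrt_le_left (by positivity)]
        nlinarith
      have h7 : e i ≤ 1 / θ' * e i ^ 2 := by
        have : 1 / θ' * e i ^ 2 = e i * (e i / θ') := by ring
        rw [this]
        have h8 : 1 ≤ e i / θ' := by rw [le_div_iff₀ hθ', one_mul]; exact h3
        nlinarith
      have h8 : (1 + √(X i)) * e i + e i ^ 2 ≤ (1 / θ' + P₁ + 1) * e i ^ 2 := by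
        nlinarith
      calc C * rr i * ((1 + √(X i)) * e i + e i ^ 2)
          ≤ C * rr i * ((1 / θ' + P₁ + 1) * e i ^ 2) :=
            mul_le_mul_of_nonneg_left h8 (by positivity)
        _ = C₁ * (rr i * e i) * e i := by rw [hC1]; ring
        _ ≤ C₁ * (rr i * e i) * √Λ := mul_le_mul_of_nonneg_left h5 (by positivity)
        _ ≤ P * (rr i * e i) * √Λ := by
          apply mul_le_mul_of_nonneg_right _ (by positivity)
          exact mul_le_mul_of_nonneg_right (by linarith) (by positivity)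
        _ = P * √Λ * rr i * e i := by ring
    · have h6 : ∫⁻ q in Cy (i + 3) z, F q ≤ ∫⁻ q in Cy i z, F q :=
        lintegral_mono_set (B2.Cy_anti (by omega) z)
      refine (h6.trans (hdens i hi0 (by omega))).trans (ENNReal.ofReal_le_ofReal ?_)
      have h7 : Λ = √Λ * √Λ := (Real.mul_self_sqrt hΛ0.le).symm
      calc Λ * rr i = √Λ * rr i * √Λ := by
            rw [mul_right_comm, Real.mul_self_sqrt hΛ0.le]
        _ ≤ √Λ * rr i * e i := mul_le_mul_of_nonneg_left h5.le (by positivity)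
        _ ≤ P * (√Λ * rr i * e i) := by
          have : 0 ≤ √Λ * rr i * e i := by positivity
          nlinarith
        _ = P * √Λ * rr i * e i := by ring

end Pool.Agent.N976.TL
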