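import Pool.Agent.N976.TL.Stm

/-!
The decay of the mass of the neighbourhoods, one step: a disjoint family of small cylinders, the
bound for the part of each cylinder outside the neighbourhood, and the bounded overlap.
-/

set_option autoImplicit false

open MeasureTheory Set Metric
open scoped ContDiff ENNReal

namespace Pool.Agent.N976.TL

open H459R3.NS W221.NS Pool.Agent.Y8 Pool.Agent.N977.H

namespace B4

lemma mem_Cy {i : ℕ} {z q : ℝ × V} :
    q ∈ Cy i z ↔ |q.1 - z.1| < rr i ^ 2 ∧ ‖q.2 - z.2‖ < rr i := by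
  unfold Cy Wi
  rw [mem_prod, mem_Ioo, mem_ball, dist_eq_norm, abs_lt]
  constructor
  · rintro ⟨⟨h1, h2⟩, h3⟩
    exact ⟨⟨by linarith, by linarith⟩, h3⟩
  · rintro ⟨⟨h1, h2⟩, h3⟩
    exact ⟨⟨by linarith, by linarith⟩, h3⟩

lemma Cy_open (i : ℕ) (z : ℝ × V) : IsOpen (Cy i z) := isOpen_Ioo.prod isOpen_ball

lemma Cy_self (i : ℕ) (z : ℝ × V) : z ∈ Cy i z := by
  have h := rr0 i
  rw [mem_Cy]
  simp only [sub_self, abs_zero, norm_zero]
  exact ⟨by positivity, h⟩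

lemma Cy_anti {i j : ℕ} (h : j ≤ i) (z : ℝ × V) : Cy i z ⊆ Cy j z := by
  intro q hq
  rw [mem_Cy] at hq ⊢
  have h1 := rr_anti h
  exact ⟨hq.1.trans_le (pow_le_pow_left₀ (rr0 i).le h1 2), hq.2.trans_le h1⟩

lemma Nb_open (K : Set (ℝ × V)) (j : ℕ) : IsOpen (Nb K j) :=
  isOpen_biUnion fun z _ => Cy_open j z

lemma rr_add (i m : ℕ) : rr (i + m) = rr i / 2 ^ m := by
  unfold rr
  rw [pow_add, one_div_pow (a := (2 : ℝ)) m, mul_one_div]

lemma vol_Cy (i : ℕ) (z : ℝ × V) : volume (Cy i z) = ENNReal.ofReal (16 * rr i ^ 5) := by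
  unfold Cy Wi
  rw [Measure.volume_eq_prod, Measure.prod_prod, Real.volume_Ioo,
    Real.volume_pi_ball _ (rr0 i),
    ← ENNReal.ofReal_mul (by have := rr0 i; nlinarith [sq_nonneg (rr i)])]
  congr 1
  simp only [Fintype.card_fin]
  ring

/-- The cylinders of the balls which meet. -/
lemma cov {i i' j : ℕ} {z b q p : ℝ × V} (h1 : i' ≤ i) (h2 : i' + 4 ≤ j) (hq : q ∈ Cy j z)
    (hp : p ∈ Cy (i + 6) z) (hp' : p ∈ Cy (i' + 6) b) : q ∈ Cy (i' + 3) b := by
  rw [mem_Cy] at *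
  have hr := rr0 i'
  have e1 : rr j ≤ rr i' / 16 := by
    have := rr_anti h2
    rw [rr_add] at this
    norm_num at this
    exact this
  have e2 : rr (i + 6) ≤ rr i' / 64 := by
    have : rr (i + 6) ≤ rr (i' + 6) := rr_anti (by omega)
    rw [rr_add i' 6] at this
    norm_num at this
    exact this
  have e3 : rr (i' + 6) = rr i' / 64 := by rw [rr_add]; norm_num
  have e4 : rr (i' + 3) = rr i' / 8 := by rw [rr_add]; norm_num
  have f1 : rr j ^ 2 ≤ (rr i' / 16) ^ 2 := pow_le_pow_left₀ (rr0 j).le e1 2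
  have f2 : rr (i + 6) ^ 2 ≤ (rr i' / 64) ^ 2 := pow_le_pow_left₀ (rr0 _).le e2 2
  rw [e3] at hp'
  rw [e4]
  constructor
  · have a1 : |q.1 - b.1| ≤ |q.1 - z.1| + |p.1 - z.1| + |p.1 - b.1| := by
      have := abs_add_three (q.1 - z.1) (z.1 - p.1) (p.1 - b.1)
      rw [abs_sub_comm z.1 p.1] at this
      calc |q.1 - b.1| = |q.1 - z.1 + (z.1 - p.1) + (p.1 - b.1)| := by ring_nf
        _ ≤ _ := this
    nlinarith [hq.1, hp.1, hp'.1]
  · have a1 : ‖q.2 - b.2‖ ≤ ‖q.2 - z.2‖ + ‖p.2 - z.2‖ + ‖p.2 - b.2‖ := by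
      have := norm_add₃_le (a := q.2 - z.2) (b := z.2 - p.2) (c := p.2 - b.2)
      rw [norm_sub_rev z.2 p.2] at this
      calc ‖q.2 - b.2‖ = ‖q.2 - z.2 + (z.2 - p.2) + (p.2 - b.2)‖ := by
            congr 1; abel
        _ ≤ _ := this
    linarith [hq.2, hp.2, hp'.2]

/-- The small cylinders around the centres lie in a cylinder around the point. -/
lemma inn {i : ℕ} {b p : ℝ × V} (hi : 1 ≤ i) (hp : p ∈ Cy i b) : Cy (i + 6) b ⊆ Cy (i - 1) p := by
  intro q hq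
  obtain ⟨n, rfl⟩ : ∃ n, i = n + 1 := ⟨i - 1, by omega⟩
  rw [Nat.add_sub_cancel]
  rw [mem_Cy] at *
  have hr := rr0 n
  have e1 : rr (n + 1) = rr n / 2 := rrS n
  have e2 : rr (n + 1 + 6) = rr n / 128 := by
    rw [add_assoc, rr_add]; norm_num
  rw [e1] at hp
  rw [e2] at hq
  constructor
  · have a1 : |q.1 - p.1| ≤ |q.1 - b.1| + |p.1 - b.1| := by
      have := abs_add_le (q.1 - b.1) (b.1 - p.1)
      rw [abs_sub_comm b.1 p.1] at this
      calc |q.1 - p.1| = |q.1 - b.1 + (b.1 - p.1)| := by ring_nf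
        _ ≤ _ := this
    nlinarith [hq.1, hp.1]
  · have a1 : ‖q.2 - p.2‖ ≤ ‖q.2 - b.2‖ + ‖p.2 - b.2‖ := by
      have := norm_add_le (q.2 - b.2) (b.2 - p.2)
      rw [norm_sub_rev b.2 p.2] at this
      calc ‖q.2 - p.2‖ = ‖q.2 - b.2 + (b.2 - p.2)‖ := by
            congr 1; abel
        _ ≤ _ := this
    linarith [hq.2, hp.2]

/-- The number of the cylinders of one level around a point. -/
lemma cnt1 {i : ℕ} (hi : 1 ≤ i) {p : ℝ × V} (T : Finset (ℝ × V)) (hT : ∀ b ∈ T, p ∈ Cy i b)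
    (hd : (T : Set (ℝ × V)).PairwiseDisjoint (Cy (i + 6))) : T.card ≤ 2 ^ 35 := by
  have h1 : volume (⋃ b ∈ T, Cy (i + 6) b) = ∑ b ∈ T, volume (Cy (i + 6) b) :=
    measure_biUnion_finset hd fun b _ => (Cy_open _ _).measurableSet
  have h2 : volume (⋃ b ∈ T, Cy (i + 6) b) ≤ volume (Cy (i - 1) p) :=
    measure_mono (iUnion₂_subset fun b hb => inn hi (hT b hb))
  rw [h1] at h2
  simp only [vol_Cy] at h2
  rw [Finset.sum_const, nsmul_eq_mul, ← ENNReal.ofReal_natCast,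
    ← ENNReal.ofReal_mul (by positivity)] at h2
  have hr := rr0 (i + 6)
  have hr' := rr0 (i - 1)
  rw [ENNReal.ofReal_le_ofReal_iff (by positivity)] at h2
  have e1 : rr (i - 1) = 128 * rr (i + 6) := by
    obtain ⟨n, rfl⟩ : ∃ n, i = n + 1 := ⟨i - 1, by omega⟩
    rw [Nat.add_sub_cancel, add_assoc, rr_add]; norm_num; ring
  rw [e1] at h2
  have h3 : 0 < rr (i + 6) ^ 5 := by positivity
  have h4 : (T.card : ℝ) ≤ 2 ^ 35 := by
    have : (T.card : ℝ) * (16 * rr (i + 6) ^ 5) ≤ 2 ^ 35 * (16 * rr (i + 6) ^ 5) := by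
      calc _ ≤ _ := h2
        _ = _ := by ring
    exact le_of_mul_le_mul_right this (by positivity)
  exact_mod_cast h4

/-- The number of the cylinders around a point. -/
lemma cnt {l w : ℕ} (hl : 1 ≤ l) {p : ℝ × V} (lv : ℝ × V → ℕ) (T : Finset (ℝ × V))
    (h1 : ∀ b ∈ T, l ≤ lv b) (h2 : ∀ b ∈ T, lv b ≤ l + w) (hT : ∀ b ∈ T, p ∈ Cy (lv b) b)
    (hd : (T : Set (ℝ × V)).PairwiseDisjoint (fun b => Cy (lv b + 6) b)) :
    T.card ≤ 2 ^ 35 * (w + 1) := by
  have h3 : (T.image lv).card ≤ w + 1 := by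
    have : T.image lv ⊆ Finset.Icc l (l + w) := by
      intro i hi
      obtain ⟨b, hb, rfl⟩ := Finset.mem_image.1 hi
      exact Finset.mem_Icc.2 ⟨h1 b hb, h2 b hb⟩
    have h4 := Finset.card_le_card this
    rw [Nat.card_Icc] at h4
    omega
  refine (Finset.card_le_mul_card_image (f := lv) T (2 ^ 35) fun i hi => ?_).trans
    (Nat.mul_le_mul_left _ h3)
  obtain ⟨b, hb, rfl⟩ := Finset.mem_image.1 hi
  refine cnt1 (hl.trans (h1 b hb)) (p := p) _ ?_ ?_
  · intro c hc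
    rw [Finset.mem_filter] at hc
    rw [← hc.2]
    exact hT c hc.1
  · intro c hc d hd' hcd
    have hc' := Finset.mem_filter.1 (Finset.mem_coe.1 hc)
    have hd'' := Finset.mem_filter.1 (Finset.mem_coe.1 hd')
    have := hd (Finset.mem_coe.2 hc'.1) (Finset.mem_coe.2 hd''.1) hcd
    simp only [Function.onFun] at this ⊢
    rw [hc'.2, hd''.2] at this
    exact this

/-- The sum of the integrals over the cylinders. -/
lemma ovl {F : ℝ × V → ℝ≥0∞} (hF : Measurable F) {K U : Set (ℝ × V)} (hU : U ⊆ K) {l w j : ℕ}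
    (hl : 1 ≤ l) (lv : ℝ × V → ℕ) (h1 : ∀ b ∈ U, l ≤ lv b) (h2 : ∀ b ∈ U, lv b ≤ l + w)
    (hd : U.PairwiseDisjoint (fun b => Cy (lv b + 6) b)) (hc : U.Countable) :
    ∑' b : U, ∫⁻ q in Cy (lv b) b \ Nb K j, F q
      ≤ ((2 ^ 35 * (w + 1) : ℕ) : ℝ≥0∞) * ∫⁻ q in Nb K l \ Nb K j, F q := by
  have := hc.to_subtype
  have hm : ∀ b : U, MeasurableSet (Cy (lv b) b \ Nb K j) := fun b =>
    (Cy_open _ _).measurableSet.diff (Nb_open _ _).measurableSet
  have hm' : MeasurableSet (Nb K l \ Nb K j) :=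
    (Nb_open _ _).measurableSet.diff (Nb_open _ _).measurableSet
  have e1 : ∑' b : U, ∫⁻ q in Cy (lv b) b \ Nb K j, F q
      = ∫⁻ q, ∑' b : U, (Cy (lv b) b \ Nb K j).indicator F q := by
    rw [lintegral_tsum fun b => (hF.indicator (hm b)).aemeasurable]
    exact tsum_congr fun b => (lintegral_indicator (hm b) F).symm
  rw [e1, ← lintegral_indicator hm', ← lintegral_const_mul _ (hF.indicator hm')]
  refine lintegral_mono fun p => ?_
  by_cases hp : p ∈ Nb K l \ Nb K j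
  · rw [indicator_of_mem hp]
    rw [ENNReal.tsum_eq_iSup_sum]
    refine iSup_le fun T => ?_
    classical
    have e2 : ∑ b ∈ T, (Cy (lv b) b \ Nb K j).indicator F p
        = ((T.filter fun b : U => p ∈ Cy (lv b) (b : ℝ × V)).card : ℝ≥0∞) * F p := by
      rw [← nsmul_eq_mul, ← Finset.sum_const, Finset.sum_filter]
      refine Finset.sum_congr rfl fun b _ => ?_
      by_cases hb : p ∈ Cy (lv b) (b : ℝ × V)
      · have hb' : p ∈ Cy (lv b) (b : ℝ × V) \ Nb K j := ⟨hb, hp.2⟩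
        rw [if_pos hb, indicator_of_mem hb']
      · rw [if_neg hb, indicator_of_notMem fun h => hb h.1]
    rw [e2]
    gcongr
    rw [← Finset.card_map (Function.Embedding.subtype (· ∈ U))]
    refine cnt hl lv _ ?_ ?_ ?_ ?_ (p := p)
    · intro b hb
      obtain ⟨c, _, rfl⟩ := Finset.mem_map.1 hb
      exact h1 _ c.2
    · intro b hb
      obtain ⟨c, _, rfl⟩ := Finset.mem_map.1 hb
      exact h2 _ c.2
    · intro b hb
      obtain ⟨c, hc', rfl⟩ := Finset.mem_map.1 hb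
      exact (Finset.mem_filter.1 hc').2
    · refine hd.subset ?_
      intro b hb
      obtain ⟨c, _, rfl⟩ := Finset.mem_map.1 (Finset.mem_coe.1 hb)
      exact c.2
  · have e3 : ∀ b : U, (Cy (lv b) b \ Nb K j).indicator F p = 0 := by
      intro b
      refine indicator_of_notMem (fun h => hp ⟨?_, h.2⟩) _
      exact mem_iUnion₂.2 ⟨b, hU b.2, Cy_anti (h1 b b.2) _ h.1⟩
    simp only [e3, tsum_zero]
    exact zero_le

end B4

theorem t_B4 : S_B3 → S_B4 := by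
  intro hB3
  refine ⟨65536 * 2 ^ 35, by positivity, ?_⟩
  intro F hF K a b Λ w k J ha hb hΛ hG l j hl hj hJ hs
  have hgood : ∀ z ∈ K, ∃ (i : ℕ) (e : ℝ), l ≤ i ∧ i ≤ l + w ∧ 0 < e ∧
      (∀ᵐ y ∂(volume.restrict (ball z.2 (rr (i + 6)))),
        ENNReal.ofReal (e / rr i ^ 2) ≤ ∫⁻ τ in Wi z.1 i, F (τ, y)) ∧
      ∫⁻ q in Cy (i + 3) z, F q ≤ ENNReal.ofReal (a * rr i * e) := fun z hz =>
    (hG z hz).good l (by omega) (by omega)
  choose! lv e g1 g2 g3 g4 g5 using hgood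
  obtain ⟨U, hU, hd, hcov⟩ := Vitali.exists_disjoint_subfamily_covering_enlargement
    (fun z : ℝ × V => Cy (lv z + 6) z) K (fun z => rr (lv z)) (3 / 2) (by norm_num)
    (fun z _ => (rr0 _).le) 1 (fun z _ => rr1 _) (fun z _ => ⟨z, B4.Cy_self _ _⟩)
  have hc : U.Countable := hd.countable_of_isOpen (fun z _ => B4.Cy_open _ _)
    (fun z _ => ⟨z, B4.Cy_self _ _⟩)
  have := hc.to_subtype
  have s1 : Nb K j ⊆ ⋃ u : U, Cy (lv u + 3) (u : ℝ × V) := by
    intro q hq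
    obtain ⟨z, hz, hq⟩ := mem_iUnion₂.1 hq
    obtain ⟨u, hu, ⟨p, hp1, hp2⟩, hr⟩ := hcov z hz
    refine mem_iUnion.2 ⟨⟨u, hu⟩, ?_⟩
    refine B4.cov (i := lv z) ?_ ?_ hq hp1 hp2
    · by_contra hlt
      have h1 : rr (lv u) ≤ rr (lv z + 1) := rr_anti (Nat.lt_of_not_le hlt)
      rw [rrS] at h1
      have h2 := rr0 (lv z)
      linarith
    · have h3 : lv u ≤ l + w := g2 u (hU hu)
      exact (Nat.add_le_add_right h3 4).trans hj
  have s2 : ∀ u : U, ∫⁻ q in Cy (lv u + 3) (u : ℝ × V), F q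
      ≤ ENNReal.ofReal (65536 * a) * ∫⁻ q in Cy (lv u) (u : ℝ × V) \ Nb K j, F q := by
    intro u
    have hu := hU u.2
    have h1 := hB3 F hF K a b Λ w k J hb hΛ hG u hu (lv u) j (e u)
      (by have := g1 u hu; omega) (by have := g2 u hu; omega) hJ
      (hs.trans (mul_le_mul_of_nonneg_left
        (pow_le_pow_left₀ (rr0 _).le (rr_anti (g2 u hu)) 2) hb.le)) (g3 u hu) (g4 u hu)
    refine (g5 u hu).trans ?_
    refine le_trans (le_of_eq ?_) (mul_le_mul_right h1 _)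
    rw [← ENNReal.ofReal_mul (by positivity)]
    congr 1
    ring
  calc ∫⁻ q in Nb K j, F q ≤ ∫⁻ q in ⋃ u : U, Cy (lv u + 3) (u : ℝ × V), F q :=
        lintegral_mono_set s1
    _ ≤ ∑' u : U, ∫⁻ q in Cy (lv u + 3) (u : ℝ × V), F q := lintegral_iUnion_le _ _
    _ ≤ ∑' u : U, ENNReal.ofReal (65536 * a) * ∫⁻ q in Cy (lv u) (u : ℝ × V) \ Nb K j, F q :=
        ENNReal.tsum_le_tsum s2
    _ = ENNReal.ofReal (65536 * a) * ∑' u : U, ∫⁻ q in Cy (lv u) (u : ℝ × V) \ Nb K j, F q :=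
        ENNReal.tsum_mul_left
    _ ≤ ENNReal.ofReal (65536 * a) * (((2 ^ 35 * (w + 1) : ℕ) : ℝ≥0∞) *
          ∫⁻ q in Nb K l \ Nb K j, F q) := by
        gcongr
        exact B4.ovl hF hU (by omega) lv (fun b hb => g1 b (hU hb)) (fun b hb => g2 b (hU hb)) hd hc
    _ = ENNReal.ofReal (65536 * 2 ^ 35 * a * (w + 1)) * ∫⁻ q in Nb K l \ Nb K j, F q := by
        rw [← mul_assoc, ← ENNReal.ofReal_natCast, ← ENNReal.ofReal_mul (by positivity)]
        congr 2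
        push_cast
        ring

end Pool.Agent.N976.TL
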