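import Pool.Agent.N976.TL.Stm

/-!
Project TL (helper976), part BM: the iteration and the count (by helper301).
-/

set_option autoImplicit false

open MeasureTheory Set Metric
open scoped ContDiff ENNReal

namespace Pool.Agent.N976.TL

open H459R3.NS W221.NS Pool.Agent.Y8 Pool.Agent.N977.H

namespace BM

lemma Wi_anti (t₀ : ℝ) {i j : ℕ} (h : i ≤ j) : Wi t₀ j ⊆ Wi t₀ i := by
  unfold Wi
  have h1 : rr j ^ 2 ≤ rr i ^ 2 := pow_le_pow_left₀ (rr0 j).le (rr_anti h) 2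
  exact Ioo_subset_Ioo (by linarith) (by linarith)

lemma Cy_anti (z : ℝ × V) {i j : ℕ} (h : i ≤ j) : Cy j z ⊆ Cy i z :=
  prod_mono (Wi_anti _ h) (ball_subset_ball (rr_anti h))

lemma Nb_anti (K : Set (ℝ × V)) {i j : ℕ} (h : i ≤ j) : Nb K j ⊆ Nb K i :=
  iUnion₂_mono fun z _ => Cy_anti z h

lemma Nb_open (K : Set (ℝ × V)) (j : ℕ) : IsOpen (Nb K j) := by
  unfold Nb Cy Wi
  exact isOpen_biUnion fun z _ => isOpen_Ioo.prod isOpen_ball

/-- one step, real form -/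
lemma one_step (F : ℝ × V → ℝ≥0∞) (K : Set (ℝ × V)) (l j : ℕ) (hlj : l ≤ j) (Q t : ℝ) (hQ : 0 ≤ Q)
    (ht : 0 ≤ t)
    (h1 : ∫⁻ q in Nb K j, F q ≤ ENNReal.ofReal Q * ∫⁻ q in Nb K l \ Nb K j, F q)
    (h2 : ∫⁻ q in Nb K l, F q ≤ ENNReal.ofReal t) :
    ∫⁻ q in Nb K j, F q ≤ ENNReal.ofReal (Q / (1 + Q) * t) := by
  set A := ∫⁻ q in Nb K j, F q with hA
  set M := ∫⁻ q in Nb K l \ Nb K j, F q with hM
  have h3 : A + M ≤ ENNReal.ofReal t := by
    refine le_trans (le_of_eq ?_) h2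
    have h4 := lintegral_inter_add_sdiff F (Nb K l) (Nb_open K j).measurableSet (μ := volume)
    rw [inter_eq_self_of_subset_right (Nb_anti K hlj)] at h4
    exact h4
  have hAt : A ≠ (⊤ : ℝ≥0∞) := ne_top_of_le_ne_top ENNReal.ofReal_ne_top (le_trans le_self_add h3)
  have hMt : M ≠ (⊤ : ℝ≥0∞) := ne_top_of_le_ne_top ENNReal.ofReal_ne_top (le_trans le_add_self h3)
  have h5 : A.toReal ≤ Q * M.toReal := by
    have := ENNReal.toReal_mono (ENNReal.mul_ne_top ENNReal.ofReal_ne_top hMt) h1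
    rwa [ENNReal.toReal_mul, ENNReal.toReal_ofReal hQ] at this
  have h6 : A.toReal + M.toReal ≤ t := by
    have := ENNReal.toReal_mono ENNReal.ofReal_ne_top h3
    rwa [ENNReal.toReal_add hAt hMt, ENNReal.toReal_ofReal ht] at this
  rw [← ENNReal.ofReal_toReal hAt]
  apply ENNReal.ofReal_le_ofReal
  rw [div_mul_eq_mul_div, le_div_iff₀ (by positivity)]
  nlinarith

/-- the iteration -/
lemma iter (F : ℝ × V → ℝ≥0∞) (K : Set (ℝ × V)) (l₀ s U : ℕ) (Q D : ℝ) (hQ : 0 ≤ Q) (hD : 0 ≤ D)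
    (h0 : ∫⁻ q in Nb K l₀, F q ≤ ENNReal.ofReal D)
    (hstep : ∀ l, l₀ ≤ l → l + s ≤ U →
      ∫⁻ q in Nb K (l + s), F q ≤ ENNReal.ofReal Q * ∫⁻ q in Nb K l \ Nb K (l + s), F q) :
    ∀ n : ℕ, l₀ + n * s ≤ U →
      ∫⁻ q in Nb K (l₀ + n * s), F q ≤ ENNReal.ofReal ((Q / (1 + Q)) ^ n * D) := by
  intro n
  induction n with
  | zero =>
    intro _
    simpa using h0
  | succ n ih =>
    intro hn
    have e1 : l₀ + (n + 1) * s = l₀ + n * s + s := by ring
    rw [e1] at hn ⊢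
    have h1 := ih (by omega)
    have h2 := one_step F K (l₀ + n * s) (l₀ + n * s + s) (by omega) Q ((Q / (1 + Q)) ^ n * D) hQ
      (by positivity) (hstep _ (by omega) hn) h1
    refine h2.trans (le_of_eq ?_)
    congr 1
    rw [pow_succ]
    ring

lemma pow_exp (Q : ℝ) (hQ : 0 ≤ Q) (n : ℕ) : (Q / (1 + Q)) ^ n ≤ Real.exp (-(n / (1 + Q))) := by
  have h1 : Q / (1 + Q) = 1 - 1 / (1 + Q) := by
    field_simp
    ring
  have h2 : Q / (1 + Q) ≤ Real.exp (-(1 / (1 + Q))) := by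
    rw [h1]
    have := Real.add_one_le_exp (-(1 / (1 + Q)))
    linarith
  calc (Q / (1 + Q)) ^ n ≤ Real.exp (-(1 / (1 + Q))) ^ n :=
        pow_le_pow_left₀ (by positivity) h2 n
    _ = Real.exp (-(n / (1 + Q))) := by
        rw [← Real.exp_nat_mul]
        congr 1
        ring

/-- the choice of the step -/
lemma choose_r (P2 Λ : ℝ) (hP2 : 1 ≤ P2) (hΛ : 1 ≤ Λ) : ∃ r : ℕ,
    28311552 * Λ * (P2 * Λ ^ P2) ≤ 4 ^ r ∧
    (r : ℝ) ≤ (Real.log (28311552 * P2) + (P2 + 1) + 1) * (1 + Real.log Λ) := by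
  have hΛ0 : 0 < Λ := by linarith
  have hl : 0 ≤ Real.log Λ := Real.log_nonneg hΛ
  have hl2 : 0 ≤ Real.log (28311552 * P2) := Real.log_nonneg (by nlinarith)
  set y := Real.log (28311552 * P2) + (P2 + 1) * Real.log Λ with hy
  have hy0 : 0 ≤ y := by positivity
  refine ⟨⌈y⌉₊, ?_, ?_⟩
  · have h1 : 28311552 * Λ * (P2 * Λ ^ P2) = Real.exp y := by
      rw [hy, Real.exp_add, Real.exp_log (by positivity), add_mul, one_mul, Real.exp_add,
        Real.exp_log hΛ0, mul_comm P2 (Real.log Λ), Real.exp_mul, Real.exp_log hΛ0]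
      ring
    rw [h1]
    calc Real.exp y ≤ Real.exp (⌈y⌉₊ : ℝ) := Real.exp_le_exp.2 (Nat.le_ceil y)
      _ = Real.exp 1 ^ ⌈y⌉₊ := by rw [← Real.exp_nat_mul, mul_one]
      _ ≤ 4 ^ ⌈y⌉₊ := by
          apply pow_le_pow_left₀ (Real.exp_pos 1).le
          have := Real.exp_one_lt_d9
          linarith
  · have h2 : (⌈y⌉₊ : ℝ) < y + 1 := Nat.ceil_lt_add_one hy0
    nlinarith

lemma rr_pow (l w s : ℕ) (h : w ≤ s) : rr (l + s) ^ 2 * 4 ^ (s - w) = rr (l + w) ^ 2 := by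
  obtain ⟨d, rfl⟩ := Nat.exists_eq_add_of_le h
  have h1 : w + d - w = d := by omega
  rw [h1]
  unfold rr
  rw [← pow_mul, ← pow_mul]
  have : ((1 : ℝ) / 2) ^ ((l + (w + d)) * 2) = (1 / 2) ^ ((l + w) * 2) * (1 / 4) ^ d := by
    rw [show (l + (w + d)) * 2 = (l + w) * 2 + 2 * d by ring, pow_add, pow_mul (1 / 2 : ℝ) 2 d]
    norm_num
  rw [this, mul_assoc, ← mul_pow]
  norm_num

end BM

open BM

theorem t_BM : S_B2 → S_B4 → S_B5 → S_BM := by
  intro hB2 hB4 hB5 m C θ hm hC hθ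
  obtain ⟨P2, hP2, hB2⟩ := hB2 m C θ hm hC hθ
  obtain ⟨C4, hC4, hB4⟩ := hB4
  set cs : ℝ := 2 * P2 + 4 + (Real.log (28311552 * P2) + (P2 + 1) + 1) with hcs
  have hl2 : 0 ≤ Real.log (28311552 * P2) := Real.log_nonneg (by nlinarith)
  have hcs1 : 1 ≤ cs := by rw [hcs]; linarith
  set cq : ℝ := 1 + C4 * P2 * (2 * P2 + 1) with hcq
  have hcq1 : 1 ≤ cq := by
    rw [hcq]
    have : 0 ≤ C4 * P2 * (2 * P2 + 1) := by positivity
    linarith
  set P : ℝ := 8 * P2 + 8 + 2 * cs + cs * cq with hP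
  have hcc : 1 ≤ cs * cq := by nlinarith
  have hP1 : 1 ≤ P := by rw [hP]; nlinarith
  refine ⟨P, hP1, fun F hF K B D Λ k₀ J hB hD hΛ hPt hd hDk hJ => ?_⟩
  have hΛ0 : 0 < Λ := by linarith
  have hlB : 0 ≤ Real.log B := Real.log_nonneg hB
  have hlΛ : 0 ≤ Real.log Λ := Real.log_nonneg hΛ
  set lam : ℝ := 1 + Real.log Λ with hlam
  have hlam1 : 1 ≤ lam := by linarith
  set κ : ℝ := k₀ + 1 + Real.log B + Real.log Λ with hκ
  have hk0 : (0 : ℝ) ≤ k₀ := Nat.cast_nonneg _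
  have hκ1 : 1 ≤ κ := by rw [hκ]; linarith
  have hκlam : lam ≤ κ := by rw [hκ, hlam]; linarith
  have hκk : k₀ + 1 + Real.log B ≤ κ := by rw [hκ]; linarith
  have hs1 : 1 ≤ √Λ := Real.one_le_sqrt.2 hΛ
  -- the parameters
  set k : ℕ := ⌈P2 * (k₀ + 1 + Real.log B)⌉₊ with hk
  have hk1 : P2 * (k₀ + 1 + Real.log B) ≤ k := Nat.le_ceil _
  have hk2 : (k : ℝ) ≤ P2 * (k₀ + 1 + Real.log B) + 1 := (Nat.ceil_lt_add_one (by positivity)).le
  set w : ℕ := ⌈P2 * lam⌉₊ with hw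
  have hw1 : P2 * lam ≤ w := Nat.le_ceil _
  have hw2 : (w : ℝ) ≤ P2 * lam + 1 := (Nat.ceil_lt_add_one (by positivity)).le
  have hPl : 1 ≤ P2 * lam := by nlinarith
  obtain ⟨r, hr1, hr2⟩ := choose_r P2 Λ hP2 hΛ
  set s : ℕ := w + 4 + r with hs
  have hscs : (s : ℝ) ≤ cs * lam := by
    have h1 : (s : ℝ) = w + 4 + r := by rw [hs]; push_cast; ring
    rw [h1, hcs]
    have h2 : (w : ℝ) ≤ 2 * P2 * lam := by linarith
    have h3 : (4 : ℝ) ≤ 4 * lam := by linarith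
    nlinarith
  have hspos : (0 : ℝ) < s := by
    have : 0 < s := by omega
    exact_mod_cast this
  set a : ℝ := P2 * √Λ with ha
  set b : ℝ := 1 / (P2 * Λ ^ P2) with hb
  have hΛP : 0 < Λ ^ P2 := Real.rpow_pos_of_pos hΛ0 _
  have ha0 : 0 < a := by positivity
  have hb0 : 0 < b := by positivity
  have hGd : ∀ z ∈ K, Gd F a b Λ w k J z := by
    intro z hz
    obtain ⟨e, X, hPD⟩ := hPt z hz
    exact hB2 F hF z e X B Λ k₀ J hB hΛ hPD (hd z hz) k w hk1 hw1
  have hkk0 : k₀ ≤ k := by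
    have : (k₀ : ℝ) ≤ k := by nlinarith
    exact_mod_cast this
  set l₀ : ℕ := k + 1 with hl₀
  have hT0 : ∫⁻ q in Nb K l₀, F q ≤ ENNReal.ofReal D :=
    (lintegral_mono_set (Nb_anti K (by omega))).trans hDk
  set Q : ℝ := C4 * a * (w + 1) with hQ
  have hQ0 : 0 ≤ Q := by positivity
  have hl0w : (l₀ : ℝ) + w ≤ P * κ := by
    have h1 : (l₀ : ℝ) = k + 1 := by rw [hl₀]; push_cast; ring
    have h2 : P2 * (k₀ + 1 + Real.log B) ≤ P2 * κ := mul_le_mul_of_nonneg_left hκk (by linarith)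
    have h3 : P2 * lam ≤ P2 * κ := mul_le_mul_of_nonneg_left hκlam (by linarith)
    have h4 : (2 * P2 + 3) * κ ≤ P * κ := by
      apply mul_le_mul_of_nonneg_right _ (by linarith)
      rw [hP]
      nlinarith
    nlinarith
  have hl0wJ : l₀ + w ≤ J := by
    have : ((l₀ + w : ℕ) : ℝ) ≤ J := by
      push_cast
      exact hl0w.trans hJ
    exact_mod_cast this
  have hstep : ∀ l, l₀ ≤ l → l + s ≤ J - w →
      ∫⁻ q in Nb K (l + s), F q ≤ ENNReal.ofReal Q * ∫⁻ q in Nb K l \ Nb K (l + s), F q := by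
    intro l hl hls
    refine hB4 F hF K a b Λ w k J ha0 hb0 hΛ hGd l (l + s) (by omega) (by omega) (by omega) ?_
    have h1 := rr_pow l w s (by omega)
    have h2 : s - w = 4 + r := by omega
    rw [h2] at h1
    have h3 : (4 : ℝ) ^ r ≤ 4 ^ (4 + r) := pow_le_pow_right₀ (by norm_num) (by omega)
    have h4 : 28311552 * Λ ≤ b * 4 ^ (4 + r) := by
      rw [hb, div_mul_eq_mul_div, one_mul, le_div_iff₀ (by positivity)]
      exact hr1.trans h3
    calc 28311552 * Λ * rr (l + s) ^ 2 ≤ b * 4 ^ (4 + r) * rr (l + s) ^ 2 :=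
          mul_le_mul_of_nonneg_right h4 (sq_nonneg _)
      _ = b * rr (l + w) ^ 2 := by rw [← h1]; ring
  have hs0 : 0 < s := by omega
  set n : ℕ := (J - w - l₀) / s with hn
  have hns : n * s ≤ J - w - l₀ := Nat.div_mul_le_self _ _
  have hns2 : J - w - l₀ < (n + 1) * s := by
    have := Nat.lt_div_mul_add (a := J - w - l₀) hs0
    rw [add_mul, one_mul]
    exact this
  set j : ℕ := l₀ + n * s with hj
  have hjw : j + w ≤ J := by omega
  have hj1 : 1 ≤ j := by omega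
  have hIt := iter F K l₀ s (J - w) Q D hQ0 hD hT0 hstep n (by omega)
  obtain ⟨S, _, hS2, hS3⟩ := hB5 F hF K b ((Q / (1 + Q)) ^ n * D) j hb0 (by positivity) hj1
    (fun z hz => (hGd z hz).low j (by omega) hjw) hIt
  refine ⟨S, j - 1, by omega, ?_, hS2, ?_⟩
  · -- the level is close to `J`
    have h1 : J ≤ (j - 1) + 1 + w + s := by
      have : (n + 1) * s = n * s + s := by ring
      omega
    have h2 : (J : ℝ) ≤ ((j - 1 : ℕ) : ℝ) + 1 + w + s := by exact_mod_cast h1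
    have h3 : (1 : ℝ) + w + s ≤ P * lam := by
      have h4 : (1 : ℝ) + w + s ≤ 1 + (P2 * lam + 1) + cs * lam := by linarith
      have h5 : (2 + P2 + cs) * lam ≤ P * lam := by
        apply mul_le_mul_of_nonneg_right _ (by linarith)
        rw [hP]
        nlinarith
      nlinarith
    linarith
  · -- the number of the cylinders
    have hrj : rr (j - 1) = 2 * rr j := by
      have h1 := rrS (j - 1)
      rw [show j - 1 + 1 = j by omega] at h1
      linarith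
    rw [hrj]
    have h1 : (S.card : ℝ) * rr j ≤ (P2 * Λ ^ P2) * ((Q / (1 + Q)) ^ n * D) := by
      rw [hb, div_mul_eq_mul_div, one_mul, div_le_iff₀ (by positivity)] at hS3
      linarith
    have h2 := pow_exp Q hQ0 n
    -- the exponent
    have hs1Q : (s : ℝ) * (1 + Q) ≤ P * √Λ * lam ^ 2 := by
      have h3 : 1 + Q ≤ cq * (√Λ * lam) := by
        have h4 : (w : ℝ) + 1 ≤ (2 * P2 + 1) * lam := by nlinarith
        have h5 : Q ≤ C4 * a * ((2 * P2 + 1) * lam) :=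
          mul_le_mul_of_nonneg_left h4 (by positivity)
        have h6 : 1 ≤ √Λ * lam := by nlinarith
        rw [hcq]
        calc 1 + Q ≤ √Λ * lam + C4 * a * ((2 * P2 + 1) * lam) := add_le_add h6 h5
          _ = (1 + C4 * P2 * (2 * P2 + 1)) * (√Λ * lam) := by rw [ha]; ring
      calc (s : ℝ) * (1 + Q) ≤ (cs * lam) * (cq * (√Λ * lam)) :=
            mul_le_mul hscs h3 (by positivity) (by positivity)
        _ = (cs * cq) * (√Λ * lam ^ 2) := by ring
        _ ≤ P * (√Λ * lam ^ 2) := by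
            apply mul_le_mul_of_nonneg_right _ (by positivity)
            rw [hP]
            linarith
        _ = P * √Λ * lam ^ 2 := by ring
    have hnum : (0 : ℝ) ≤ J - P * κ := by linarith
    have hexp : (J - P * κ) / (P * √Λ * lam ^ 2) - 1 ≤ n / (1 + Q) := by
      have h3 : (J : ℝ) - P * κ ≤ (n + 1) * s := by
        have h4 : J < (n + 1) * s + w + l₀ := by omega
        have h5 : (J : ℝ) < (n + 1) * s + w + l₀ := by exact_mod_cast h4
        linarith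
      have h6 : (J - P * κ) / (P * √Λ * lam ^ 2) ≤ (J - P * κ) / (s * (1 + Q)) :=
        div_le_div_of_nonneg_left hnum (by positivity) hs1Q
      have h7 : (J - P * κ) / (s * (1 + Q)) ≤ (n + 1) / (1 + Q) := by
        rw [div_le_div_iff₀ (by positivity) (by positivity)]
        have : (J - P * κ) * (1 + Q) ≤ ((n + 1) * s) * (1 + Q) :=
          mul_le_mul_of_nonneg_right h3 (by positivity)
        linarith
      have h8 : ((n : ℝ) + 1) / (1 + Q) ≤ n / (1 + Q) + 1 := by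
        rw [add_div]
        have : 1 / (1 + Q) ≤ 1 := by
          rw [div_le_one (by positivity)]
          linarith
        linarith
      linarith
    have h3 : Real.exp (-(n / (1 + Q))) ≤
        Real.exp 1 * Real.exp (-(J - P * κ) / (P * √Λ * lam ^ 2)) := by
      rw [← Real.exp_add]
      apply Real.exp_le_exp.2
      rw [neg_div]
      linarith
    have hE : 0 < Real.exp (-(J - P * κ) / (P * √Λ * lam ^ 2)) := Real.exp_pos _
    set E := Real.exp (-(J - P * κ) / (P * √Λ * lam ^ 2)) with hEdef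
    have h4 : (Q / (1 + Q)) ^ n ≤ 3 * E := by
      refine h2.trans (h3.trans ?_)
      apply mul_le_mul_of_nonneg_right _ hE.le
      have := Real.exp_one_lt_d9
      linarith
    have h5 : Λ ^ P2 ≤ Λ ^ P := Real.rpow_le_rpow_of_exponent_le hΛ (by rw [hP]; nlinarith)
    have h6 : 6 * P2 ≤ P := by rw [hP]; nlinarith
    calc (S.card : ℝ) * (2 * rr j) = 2 * (S.card * rr j) := by ring
      _ ≤ 2 * ((P2 * Λ ^ P2) * ((Q / (1 + Q)) ^ n * D)) := by linarith
      _ ≤ 2 * ((P2 * Λ ^ P2) * (3 * E * D)) := by gcongr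
      _ = (6 * P2) * Λ ^ P2 * D * E := by ring
      _ ≤ P * Λ ^ P * D * E := by gcongr

end Pool.Agent.N976.TL
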