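import Pool.Agent.N976.TL.Stm
import Pool.Agent.Y8.WEn4

/-!
Project TL (helper976), part A1a (helper134): the energy estimate on a short time window, slices
(adapted from `deriv_boundH` and `baseH` of Pool.Agent.Y8.WEn4 of helper8).
-/

set_option autoImplicit false
set_option linter.all false

open MeasureTheory Set Metric
open scoped ContDiff ENNReal Topology

namespace Pool.Agent.N976.TL.A1a

open H459R3.NS W221.NS W356.ME Pool.Agent.Y7 Pool.Agent.Y8

/-! ### The weight -/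

/-- the cut-off function in time -/
noncomputable def cH (h t : ℝ) : ℝ := W605.MD.chi (t / h)

lemma cH_smooth (h : ℝ) : ContDiff ℝ ∞ (cH h) :=
  W605.MD.chi_smooth.comp (contDiff_id.div_const h)

lemma cH_nonneg (h t : ℝ) : 0 ≤ cH h t := W605.MD.chi_nonneg _

lemma cH_le_one (h t : ℝ) : cH h t ≤ 1 := W605.MD.chi_le_one _

lemma cH_zero {h t : ℝ} (hh : 0 < h) (ht : t ≤ -(3 / 4 * h)) : cH h t = 0 := by
  apply W605.MD.chi_zero
  rw [div_le_iff₀ hh]
  linarith

lemma cH_one {h t : ℝ} (hh : 0 < h) (ht : -(9 / 16 * h) ≤ t) : cH h t = 1 := by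
  apply W605.MD.chi_one
  rw [le_div_iff₀ hh]
  linarith

/-- the test function -/
noncomputable def PHh (h t : ℝ) (z : V) : ℝ := W605.MD.k2 z * cH h t ^ 2

lemma PHh_smooth (h : ℝ) : ContDiff ℝ ∞ (fun z : ℝ × V => PHh h z.1 z.2) :=
  (W605.MD.k2_smooth.comp contDiff_snd).mul (((cH_smooth h).comp contDiff_fst).pow 2)

lemma PHh_nonneg (h t : ℝ) (z : V) : 0 ≤ PHh h t z :=
  mul_nonneg (W605.MD.k2_nonneg z) (sq_nonneg _)

lemma PHh_le_one (h t : ℝ) (z : V) : PHh h t z ≤ 1 := by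
  unfold PHh
  have h1 := W605.MD.k2_nonneg z
  have h2 := W605.MD.k2_le_one z
  have h3 : cH h t ^ 2 ≤ 1 := by
    nlinarith [cH_nonneg h t, cH_le_one h t]
  nlinarith [sq_nonneg (cH h t)]

lemma PHh_zero (h t : ℝ) {z : V} (hz : z ∉ ball (0 : V) 1) : PHh h t z = 0 := by
  unfold PHh
  rw [W605.MD.k2_zero hz, zero_mul]

lemma PHh_cont (h t : ℝ) : Continuous (PHh h t) := by
  unfold PHh
  exact W605.MD.k2_cont.mul continuous_const

/-- the localised energy -/
noncomputable def EC (h : ℝ) (W : ℝ → V → V) (t : ℝ) : ℝ := ∫ z, nsq (W t) z * PHh h t z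

lemma EC_nonneg (h : ℝ) (W : ℝ → V → V) (t : ℝ) : 0 ≤ EC h W t :=
  integral_nonneg fun z => mul_nonneg (W605.MD.nsq_nonneg _ z) (PHh_nonneg h t z)

lemma EC_eq (h : ℝ) (W : ℝ → V → V) (t : ℝ) :
    EC h W t = (∫ z, nsq (W t) z * kap z ^ 2) * cH h t ^ 2 := by
  unfold EC PHh W605.MD.k2
  rw [← integral_mul_const]
  apply integral_congr_ae
  filter_upwards with z
  ring

lemma EC_ball (h : ℝ) (W : ℝ → V → V) (t : ℝ) :
    EC h W t = ∫ z in ball (0 : V) 1, nsq (W t) z * PHh h t z := by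
  unfold EC
  refine (setIntegral_eq_integral_of_forall_compl_eq_zero fun z hz => ?_).symm
  rw [PHh_zero h t hz, mul_zero]

lemma EC_le (h : ℝ) (W : ℝ → V → V) (t : ℝ) (hW : ContDiff ℝ ∞ (W t)) :
    EC h W t ≤ A2 0 1 (W t) := by
  rw [EC_ball]
  unfold A2
  apply setIntegral_mono_on (W605.MD.intOn_ball ((W605.MD.nsq_cont hW).mul (PHh_cont h t)) 1)
    (W605.MD.intOn_ball (W605.MD.nsq_cont hW) 1) measurableSet_ball
  intro z _
  exact mul_le_of_le_one_right (W605.MD.nsq_nonneg _ z) (PHh_le_one h t z)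

lemma lin_termC (h : ℝ) (W : ℝ → V → V) (t : ℝ) (hW : ContDiff ℝ ∞ (W t)) :
    ∫ z, √(nsq (W t) z) * PHh h t z ≤ 3 * √(EC h W t) := by
  have e1 : ∫ z, √(nsq (W t) z) * PHh h t z
      = ∫ z in ball (0 : V) 1, √(nsq (W t) z) * PHh h t z := by
    refine (setIntegral_eq_integral_of_forall_compl_eq_zero fun z hz => ?_).symm
    rw [PHh_zero h t hz, mul_zero]
  have hs : Continuous fun z : V => √(nsq (W t) z) * √(PHh h t z) :=
    (W605.MD.nsq_cont hW).sqrt.mul (PHh_cont h t).sqrt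
  have h8 : √(∫ _x in ball (0 : V) 1, (1 : ℝ) ^ 2) ≤ 3 := by
    rw [Real.sqrt_le_left (by norm_num)]
    simp only [one_pow, setIntegral_const, smul_eq_mul, mul_one]
    rw [W162.MD.vol_ball]
    norm_num
  have hcs := W162.MD.cs_ball (f := fun _ => (1 : ℝ)) continuous_const hs 0 1
  have e2 : ∫ z in ball (0 : V) 1, (√(nsq (W t) z) * √(PHh h t z)) ^ 2 = EC h W t := by
    rw [EC_ball]
    refine integral_congr_ae (Filter.Eventually.of_forall fun z => ?_)
    simp only [mul_pow, Real.sq_sqrt (W605.MD.nsq_nonneg (W t) z),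
      Real.sq_sqrt (PHh_nonneg h t z)]
  rw [e2] at hcs
  rw [e1]
  calc ∫ z in ball (0 : V) 1, √(nsq (W t) z) * PHh h t z
      ≤ ∫ z in ball (0 : V) 1, 1 * (√(nsq (W t) z) * √(PHh h t z)) := by
        apply integral_mono
        · exact W605.MD.intOn_ball ((W605.MD.nsq_cont hW).sqrt.mul (PHh_cont h t)) 1
        · exact W605.MD.intOn_ball (continuous_const.mul hs) 1
        · intro z
          show √(nsq (W t) z) * PHh h t z ≤ 1 * (√(nsq (W t) z) * √(PHh h t z))
          rw [one_mul]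
          refine mul_le_mul_of_nonneg_left ?_ (Real.sqrt_nonneg _)
          apply Real.le_sqrt_of_sq_le
          nlinarith [PHh_nonneg h t z, PHh_le_one h t z]
    _ ≤ √(∫ _x in ball (0 : V) 1, (1 : ℝ) ^ 2) * √(EC h W t) := (le_abs_self _).trans hcs
    _ ≤ 3 * √(EC h W t) := mul_le_mul_of_nonneg_right h8 (Real.sqrt_nonneg _)

lemma term2C {v : V → V} (hv : ContDiff ℝ ∞ v) {N L : ℝ} (hL : ∀ z, |lap W605.MD.k2 z| ≤ L)
    {h t : ℝ} (hN : |deriv (fun s => cH h s ^ 2) t| ≤ N) :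
    ∫ z, nsq v z * (deriv (fun s => PHh h s z) t + lap (PHh h t) z) ≤
      (N + L) * A2 0 1 v := by
  have e1 : ∀ z, deriv (fun s => PHh h s z) t + lap (PHh h t) z =
      W605.MD.k2 z * deriv (fun s => cH h s ^ 2) t + lap W605.MD.k2 z * cH h t ^ 2 := by
    intro z
    have e2 : deriv (fun s => PHh h s z) t = W605.MD.k2 z * deriv (fun s => cH h s ^ 2) t := by
      unfold PHh
      rw [deriv_const_mul_field]
    have e3 : lap (PHh h t) z = lap W605.MD.k2 z * cH h t ^ 2 :=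
      W605.MD.lap_mul_const W605.MD.k2_smooth _ z
    rw [e2, e3]
  simp_rw [e1]
  have hF : Continuous (fun z => W605.MD.k2 z * deriv (fun s => cH h s ^ 2) t
      + lap W605.MD.k2 z * cH h t ^ 2) :=
    (W605.MD.k2_cont.mul continuous_const).add
      ((W605.MD.lap_cont W605.MD.k2_smooth).mul continuous_const)
  have hz0 : ∀ z ∉ ball (0 : V) 1,
      nsq v z * (W605.MD.k2 z * deriv (fun s => cH h s ^ 2) t
        + lap W605.MD.k2 z * cH h t ^ 2) = 0 := by
    intro z hz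
    rw [W605.MD.k2_zero hz, lap_k2_zero' hz]; ring
  rw [← setIntegral_eq_integral_of_forall_compl_eq_zero hz0]
  unfold A2
  rw [← integral_const_mul]
  apply setIntegral_mono_on (W605.MD.intOn_ball ((W605.MD.nsq_cont hv).mul hF) 1)
    (W605.MD.intOn_ball (continuous_const.mul (W605.MD.nsq_cont hv)) 1) measurableSet_ball
  intro z _
  show nsq v z * (W605.MD.k2 z * deriv (fun s => cH h s ^ 2) t
    + lap W605.MD.k2 z * cH h t ^ 2) ≤ (N + L) * nsq v z
  rw [mul_comm (N + L)]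
  apply mul_le_mul_of_nonneg_left _ (W605.MD.nsq_nonneg v z)
  have h1 : W605.MD.k2 z * deriv (fun s => cH h s ^ 2) t ≤ N := by
    calc W605.MD.k2 z * deriv (fun s => cH h s ^ 2) t ≤ W605.MD.k2 z * N :=
          mul_le_mul_of_nonneg_left ((le_abs_self _).trans hN) (W605.MD.k2_nonneg z)
      _ ≤ 1 * N := mul_le_mul_of_nonneg_right (W605.MD.k2_le_one z) ((abs_nonneg _).trans hN)
      _ = N := one_mul N
  have h2 : lap W605.MD.k2 z * cH h t ^ 2 ≤ L := by
    have h3 : cH h t ^ 2 ≤ 1 := by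
      nlinarith [cH_nonneg h t, cH_le_one h t]
    calc lap W605.MD.k2 z * cH h t ^ 2 ≤ L * cH h t ^ 2 :=
          mul_le_mul_of_nonneg_right ((le_abs_self _).trans (hL z)) (sq_nonneg _)
      _ ≤ L * 1 := mul_le_mul_of_nonneg_left h3 ((abs_nonneg _).trans (hL z))
      _ = L := mul_one L
  linarith

lemma dcH_bound {N : ℝ} (hN : ∀ t ∈ Ioo (-1 : ℝ) 0, |deriv (fun s => W605.MD.chi s ^ 2) t| ≤ N)
    {h t : ℝ} (hh : 0 < h) (ht : t ∈ Ioo (-h) 0) : |deriv (fun s => cH h s ^ 2) t| ≤ N / h := by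
  have h1 : t / h ∈ Ioo (-1 : ℝ) 0 := by
    constructor
    · rw [lt_div_iff₀ hh]
      linarith [ht.1]
    · exact div_neg_of_neg_of_pos ht.2 hh
  have h2 : HasDerivAt (fun s => W605.MD.chi s ^ 2)
      (deriv (fun s => W605.MD.chi s ^ 2) (t / h)) (t / h) :=
    ((W605.MD.chi_smooth.pow 2).differentiable (by simp) _).hasDerivAt
  have h3 : HasDerivAt (fun s => cH h s ^ 2)
      (deriv (fun s => W605.MD.chi s ^ 2) (t / h) * (1 / h)) t := by
    have h5 : HasDerivAt (fun s : ℝ => s / h) (1 / h) t := (hasDerivAt_id t).div_const h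
    have h4 : HasDerivAt ((fun s => W605.MD.chi s ^ 2) ∘ (fun s : ℝ => s / h))
        (deriv (fun s => W605.MD.chi s ^ 2) (t / h) * (1 / h)) t := HasDerivAt.comp t h2 h5
    exact h4
  rw [h3.deriv, abs_mul, abs_of_pos (by positivity : 0 < 1 / h), mul_one_div]
  exact div_le_div_of_nonneg_right (hN _ h1) hh.le

/-- the derivative of the energy at a regular time -/
lemma deriv_boundC : ∃ C₁ : ℝ, 0 < C₁ ∧
    ∀ (h : ℝ), 0 < h → h ≤ 1 →
    ∀ (H : Set ℝ) (v W : ℝ → V → V) (G : ℝ → ℝ), IsOpen H → H ⊆ Ioo (-1) 0 →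
      ContDiffOn ℝ ∞ (fun z : ℝ × V => W z.1 z.2) (H ×ˢ univ) →
      (∀ t ∈ H, ∃ P, Sl (v t) (W t) (fun x i => deriv (fun s => W s x i) t) P (G t)) →
      ∀ t ∈ H, -h < t → ∃ D : ℝ, HasDerivAt (EC h W) D t ∧
        D ≤ -2 * (∫ z, gsq (W t) z * PHh h t z) + C₁ * G t * (1 / h + √(EC h W t)) := by
  obtain ⟨Ce, hCe⟩ : ∃ Ce : ℝ, Ce = 24 := ⟨24, rfl⟩
  have hCe0 : 0 < Ce := by rw [hCe]; norm_num
  obtain ⟨Cc, hCc, hcut⟩ := Pool.Agent.Y7.cut
  obtain ⟨Cw, hCw, hwb⟩ := Pool.Agent.Y7.wb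
  obtain ⟨L, hL0, hL⟩ := W605.MD.lap_k2_bound
  obtain ⟨N, hN0, hN⟩ := W605.MD.dchi_bound
  refine ⟨(N + L) * Cw + 2 * Cc + Ce * (4 * √Cw + 3), by positivity, ?_⟩
  intro h hh hh1 H v W G hO hH hWs hsl t ht htg
  have hinv : 1 ≤ 1 / h := by
    rw [le_div_iff₀ hh]
    linarith
  obtain ⟨P, hP⟩ := hsl t ht
  have hG := hP.pos
  obtain ⟨D, hD, hle⟩ := Pool.Agent.Y8.W4.enH H hO v W G hWs (PHh h)
    (PHh_smooth h).contDiffOn (fun s _ z hz => PHh_zero h s hz) t ht
    (fun z => PHh_nonneg h t z) P hP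
  rw [← hCe] at hle
  refine ⟨D, hD, ?_⟩
  have hW := hP.sW
  obtain ⟨hA, -, -, -⟩ := hwb _ _ _ _ _ hP
  have hEA := (EC_le h W t hW).trans hA
  have hE0 := EC_nonneg h W t
  have t1 : 0 ≤ ∫ z, gsq (W t) z * PHh h t z :=
    integral_nonneg fun z => mul_nonneg (W605.MD.gsq_nonneg _ z) (PHh_nonneg h t z)
  have t2 := term2C hW hL (dcH_bound hN hh ⟨htg, (hH ht).2⟩)
  have t2' : (N / h + L) * A2 0 1 (W t) ≤ (N + L) * Cw * G t * (1 / h) := by
    have b1 : (N / h + L) ≤ (N + L) * (1 / h) := by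
      have : L * 1 ≤ L * (1 / h) := mul_le_mul_of_nonneg_left hinv hL0
      have e : N / h = N * (1 / h) := by ring
      rw [e]
      linarith
    have b2 : 0 ≤ N / h + L := by positivity
    calc (N / h + L) * A2 0 1 (W t) ≤ (N / h + L) * (Cw * G t) :=
          mul_le_mul_of_nonneg_left hA b2
      _ ≤ ((N + L) * (1 / h)) * (Cw * G t) := mul_le_mul_of_nonneg_right b1 (by positivity)
      _ = _ := by ring
  have c1 := cH_nonneg h t
  have c2 := cH_le_one h t
  have e3 : √(∫ z, nsq (W t) z * kap z ^ 2) * cH h t = √(EC h W t) := by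
    rw [EC_eq, Real.sqrt_mul' _ (sq_nonneg _), Real.sqrt_sq c1]
  have e4 : 0 ≤ √(∫ z, nsq (W t) z * kap z ^ 2) := Real.sqrt_nonneg _
  have e5 : 0 ≤ √(EC h W t) := Real.sqrt_nonneg _
  have e6 : √(∫ z, nsq (W t) z * kap z ^ 2) * cH h t ^ 2 ≤ √(EC h W t) := by
    have : √(∫ z, nsq (W t) z * kap z ^ 2) * cH h t ^ 2 =
      √(EC h W t) * cH h t := by rw [← e3]; ring
    rw [this]
    nlinarith
  have t3 : (∫ z, nsq (W t) z * adv (v t) (PHh h t) z)
      + 2 * (∫ z, P z * adv (W t) (PHh h t) z) ≤ 2 * (Cc * G t * √(EC h W t)) := by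
    have a1 : ∀ (f : V → ℝ) (u : V → V), ∫ z, f z * adv u (PHh h t) z =
        (∫ z, f z * adv u (fun y => kap y ^ 2) z) * cH h t ^ 2 := by
      intro f u
      rw [← integral_mul_const]
      apply integral_congr_ae
      filter_upwards with z
      have : adv u (PHh h t) z = adv u (fun y => kap y ^ 2) z * cH h t ^ 2 :=
        W605.MD.adv_mul_const u W605.MD.k2_smooth _ z
      rw [this]; ring
    rw [a1, a1]
    have a2 := hcut (v t) (W t) _ P (G t) hP
    obtain ⟨X, hX⟩ : ∃ X, X = ∫ z, nsq (W t) z * adv (v t) (fun y => kap y ^ 2) z := ⟨_, rfl⟩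
    obtain ⟨Y, hY⟩ : ∃ Y, Y = ∫ z, P z * adv (W t) (fun y => kap y ^ 2) z := ⟨_, rfl⟩
    rw [← hX, ← hY] at a2 ⊢
    have a3 := le_abs_self X
    have a4 := le_abs_self Y
    have a5 := abs_nonneg X
    have a6 := sq_nonneg (cH h t)
    have a7 : X + 2 * Y ≤ 2 * (Cc * G t * √(∫ z, nsq (W t) z * kap z ^ 2)) := by linarith
    calc X * cH h t ^ 2 + 2 * (Y * cH h t ^ 2) = (X + 2 * Y) * cH h t ^ 2 := by ring
      _ ≤ (2 * (Cc * G t * √(∫ z, nsq (W t) z * kap z ^ 2))) * cH h t ^ 2 :=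
          mul_le_mul_of_nonneg_right a7 a6
      _ = 2 * (Cc * G t) * (√(∫ z, nsq (W t) z * kap z ^ 2) * cH h t ^ 2) := by ring
      _ ≤ 2 * (Cc * G t) * √(EC h W t) := mul_le_mul_of_nonneg_left e6 (by positivity)
      _ = _ := by ring
  have hsG : 0 ≤ √(G t) := Real.sqrt_nonneg _
  have hsC : 0 ≤ √Cw := Real.sqrt_nonneg _
  have hsE : √(EC h W t) ≤ √Cw * √(G t) := by
    rw [← Real.sqrt_mul hCw.le]
    exact Real.sqrt_le_sqrt hEA
  have hGE : √(G t) * √(EC h W t) ≤ √Cw * G t := by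
    calc √(G t) * √(EC h W t) ≤ √(G t) * (√Cw * √(G t)) := mul_le_mul_of_nonneg_left hsE hsG
      _ = √Cw * (√(G t) * √(G t)) := by ring
      _ = √Cw * G t := by rw [Real.mul_self_sqrt hG]
  have t4 : √(G t) * (∫ z, nsq (W t) z * PHh h t z) ≤ √Cw * G t * √(EC h W t) := by
    have a1 : (∫ z, nsq (W t) z * PHh h t z) = √(EC h W t) * √(EC h W t) :=
      (Real.mul_self_sqrt hE0).symm
    rw [a1, ← mul_assoc]
    exact mul_le_mul_of_nonneg_right hGE e5
  have t5 : (√(G t) + G t) * (∫ z, √(nsq (W t) z) * PHh h t z) ≤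
      3 * (√Cw * G t) + 3 * (G t * √(EC h W t)) := by
    calc (√(G t) + G t) * (∫ z, √(nsq (W t) z) * PHh h t z)
        ≤ (√(G t) + G t) * (3 * √(EC h W t)) :=
          mul_le_mul_of_nonneg_left (lin_termC h W t hW) (by positivity)
      _ = 3 * (√(G t) * √(EC h W t)) + 3 * (G t * √(EC h W t)) := by ring
      _ ≤ _ := by linarith
  have t6 := mul_le_mul_of_nonneg_left (add_le_add t4 t5) hCe0.le
  have hGE0 : 0 ≤ G t * √(EC h W t) := mul_nonneg hG e5
  refine hle.trans ?_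
  have hfin : (N + L) * Cw * G t * (1 / h) + 2 * (Cc * G t * √(EC h W t))
      + Ce * (√Cw * G t * √(EC h W t) + (3 * (√Cw * G t) + 3 * (G t * √(EC h W t))))
      ≤ ((N + L) * Cw + 2 * Cc + Ce * (4 * √Cw + 3)) * G t * (1 / h + √(EC h W t)) := by
    have b1 : 0 ≤ (N + L) * Cw * (G t * √(EC h W t)) := by positivity
    have b2 : 0 ≤ Cc * G t * (1 / h) := by positivity
    have b3 : 0 ≤ Ce * √Cw * G t * (1 / h) := by positivity
    have b3' : Ce * √Cw * G t * 1 ≤ Ce * √Cw * G t * (1 / h) :=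
      mul_le_mul_of_nonneg_left hinv (by positivity)
    have b4 : 0 ≤ Ce * √Cw * (G t * √(EC h W t)) := by positivity
    have b5 : 0 ≤ Ce * G t * (1 / h) := by positivity
    have e : ((N + L) * Cw + 2 * Cc + Ce * (4 * √Cw + 3)) * G t * (1 / h + √(EC h W t)) =
        (N + L) * Cw * G t * (1 / h) + (N + L) * Cw * (G t * √(EC h W t)) +
        2 * (Cc * G t * (1 / h)) + 2 * (Cc * G t * √(EC h W t)) +
        4 * (Ce * √Cw * G t * (1 / h)) + 4 * (Ce * √Cw * (G t * √(EC h W t))) +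
        3 * (Ce * G t * (1 / h)) + 3 * (Ce * (G t * √(EC h W t))) := by ring
    rw [e]
    linarith
  linarith

end Pool.Agent.N976.TL.A1a

namespace Pool.Agent.N976.TL

open H459R3.NS W221.NS W356.ME Pool.Agent.Y7 Pool.Agent.Y8
open A1a

/-- **TL/A1a** -/
theorem t_A1a : S_A1a := by
  obtain ⟨C₁, hC₁, hD⟩ := deriv_boundC
  obtain ⟨Cw, hCw, hwb⟩ := Pool.Agent.Y7.wb
  refine ⟨2 * C₁ + C₁ ^ 2 + 61, by positivity, ?_⟩
  intro h ε hh hh1 hε H v W G hO hH hfull hvs hWs hsl hGi hGe hbdd hen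
  have hinv : 1 ≤ 1 / h := by
    rw [le_div_iff₀ hh]
    linarith
  have hG0 : ∀ t ∈ H, 0 ≤ G t := fun t ht => by
    obtain ⟨P, hP⟩ := hsl t ht
    exact hP.pos
  have hW : ∀ t ∈ H, ContDiff ℝ ∞ (W t) := fun t ht => by
    obtain ⟨P, hP⟩ := hsl t ht
    exact hP.sW
  have hae : ∀ᵐ t : ℝ, t ∈ Ioo (-1 : ℝ) 0 → t ∈ H := by
    have h1 := hfull
    rw [← compl_mem_ae_iff] at h1
    filter_upwards [h1] with t ht ht2
    by_contra h3
    exact ht ⟨ht2, h3⟩
  have hsubh : Ioo (-h) 0 ⊆ Ioo (-1 : ℝ) 0 := Ioo_subset_Ioo_left (by linarith)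
  have hG0' : ∀ᵐ t ∂(volume.restrict (Ioo (-h) 0)), 0 ≤ G t := by
    filter_upwards [ae_restrict_of_ae hae, ae_restrict_mem measurableSet_Ioo] with t h1 h2
    exact hG0 t (h1 (hsubh h2))
  have hEW' : EW W (PHh h) (fun _ => 0) = EC h W := by
    funext t
    unfold EW mv EC
    simp only [sub_zero]
  have hder : ∀ t ∈ H, -h < t → deriv (EC h W) t ≤
      -2 * (∫ z, gsq (W t) z * PHh h t z) + C₁ * G t * (1 / h + √(EC h W t)) := by
    intro t ht hth
    obtain ⟨D, hD1, hD2⟩ := hD h hh hh1 H v W G hO hH hWs hsl t ht hth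
    rw [hD1.deriv]
    exact hD2
  have hdis0 : ∀ t, 0 ≤ ∫ z, gsq (W t) z * PHh h t z := fun t =>
    integral_nonneg fun z => mul_nonneg (W605.MD.gsq_nonneg _ z) (PHh_nonneg h t z)
  -- regular times near the ends
  have hex : ∀ a b : ℝ, -1 ≤ a → a < b → b ≤ 0 → ∃ t ∈ H, a < t ∧ t < b := by
    intro a b ha hab hb
    by_contra hc
    push Not at hc
    have hsub : Ioo a b ⊆ Ioo (-1) 0 \ H := by
      intro t ht
      refine ⟨⟨lt_of_le_of_lt ha ht.1, lt_of_lt_of_le ht.2 hb⟩, fun htH => ?_⟩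
      have := hc t htH ht.1
      linarith [ht.2]
    have h5 := measure_mono_null hsub hfull
    rw [Real.volume_Ioo, ENNReal.ofReal_eq_zero] at h5
    linarith
  obtain ⟨t', ht', ht'1, ht'2⟩ := hex (-h) (-(7 / 8 * h)) (by linarith) (by linarith) (by linarith)
  have hE' : EC h W t' = 0 := by
    rw [EC_eq, cH_zero hh (by linarith)]; ring
  -- the supremum of the energy
  obtain ⟨B, hB⟩ := hbdd
  obtain ⟨X, hX⟩ : ∃ X : Set ℝ, X = (fun t => EC h W t) '' (H ∩ Ici t') := ⟨_, rfl⟩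
  have hXb : BddAbove X := by
    refine ⟨B, ?_⟩
    rw [hX]
    rintro _ ⟨t, ht, rfl⟩
    exact (EC_le h W t (hW t ht.1)).trans (hB t ht.1)
  have hXn : X.Nonempty := by
    rw [hX]
    exact ⟨_, t', ⟨ht', mem_Ici.2 le_rfl⟩, rfl⟩
  obtain ⟨S, hS⟩ : ∃ S, S = sSup X := ⟨_, rfl⟩
  have hle : ∀ t ∈ H, t' ≤ t → EC h W t ≤ S := by
    intro t ht h
    rw [hS]
    apply le_csSup hXb
    rw [hX]
    exact ⟨t, ⟨ht, h⟩, rfl⟩
  have hS0 : 0 ≤ S := (EC_nonneg h W _).trans (hle t' ht' le_rfl)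
  have hMT : MT H (-1) 0 (PHh h) (fun _ => (0 : V)) (fun _ => (0 : V)) 1 :=
    { low := le_rfl
      up := le_rfl
      sm := (PHh_smooth h).contDiffOn
      rho := one_pos
      supp := fun t _ z hz => PHh_zero h t hz
      der := fun t _ => hasDerivAt_const t (0 : V)
      cont := continuousOn_const
      ysm := contDiffOn_const
      ins := fun t _ => by simp }
  have hEn : ∀ t ∈ H, t' ≤ t → IntegrableOn (deriv (EC h W)) (Ioo t' t) ∧
      EC h W t - EC h W t' ≤ ∫ τ in Ioo t' t, deriv (EC h W) τ := by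
    intro t ht htt
    have h1 := hen (-1) 0 1 (PHh h) (fun _ => 0) (fun _ => 0) hMT t' ht' t ht
      (by linarith) htt (hH ht).2 (fun τ _ z => PHh_nonneg h τ z)
    rwa [hEW'] at h1
  have hGle : ∀ t ≤ 0, ∫ τ in Ioo t' t, G τ ≤ ε := by
    intro t ht
    have hsub : Ioo t' t ⊆ Ioo (-h) 0 := Ioo_subset_Ioo ht'1.le ht
    exact (setIntegral_mono_set hGi hG0' hsub.eventuallyLE).trans hGe
  have hkey : ∀ t ∈ H, t' ≤ t → EC h W t ≤ C₁ * (1 / h + √S) * ε := by
    intro t ht htt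
    have ht2 := hH ht
    have hsub : Ioo t' t ⊆ Ioo (-h) 0 := Ioo_subset_Ioo ht'1.le ht2.2.le
    obtain ⟨hi, hen'⟩ := hEn t ht htt
    have hgi : IntegrableOn (fun τ => C₁ * (1 / h + √S) * G τ) (Ioo t' t) :=
      (hGi.mono_set hsub).const_mul _
    have h1 : ∫ τ in Ioo t' t, deriv (EC h W) τ
        ≤ ∫ τ in Ioo t' t, C₁ * (1 / h + √S) * G τ := by
      apply integral_mono_ae hi hgi
      filter_upwards [ae_restrict_of_ae hae, ae_restrict_mem measurableSet_Ioo] with τ h4 hτ2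
      have hτ := h4 (hsubh (hsub hτ2))
      have h5 := hder τ hτ (by linarith [hτ2.1])
      have h6 := hdis0 τ
      refine (by linarith : _ ≤ C₁ * G τ * (1 / h + √(EC h W τ))).trans ?_
      have e1 : √(EC h W τ) ≤ √S := Real.sqrt_le_sqrt (hle τ hτ hτ2.1.le)
      have e2 := hG0 τ hτ
      calc C₁ * G τ * (1 / h + √(EC h W τ)) ≤ C₁ * G τ * (1 / h + √S) :=
            mul_le_mul_of_nonneg_left (by linarith) (by positivity)
        _ = _ := by ring
    rw [integral_const_mul] at h1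
    have h4 : C₁ * (1 / h + √S) * (∫ t in Ioo t' t, G t) ≤ C₁ * (1 / h + √S) * ε :=
      mul_le_mul_of_nonneg_left (hGle t ht2.2.le) (by positivity)
    rw [hE'] at hen'
    linarith
  have hS1 : S ≤ C₁ * (1 / h + √S) * ε := by
    conv_lhs => rw [hS]
    apply csSup_le hXn
    rw [hX]
    rintro _ ⟨t, ht, rfl⟩
    exact hkey t ht.1 ht.2
  obtain ⟨K, hK⟩ : ∃ K, K = √S := ⟨_, rfl⟩
  have hK0 : 0 ≤ K := by rw [hK]; exact Real.sqrt_nonneg _
  have hKS : K ^ 2 = S := by rw [hK]; exact Real.sq_sqrt hS0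
  rw [← hK] at hS1
  have hS2 : S ≤ 2 * C₁ * (ε / h) + C₁ ^ 2 * ε ^ 2 := by
    rw [← hKS] at hS1 ⊢
    have e3 : 0 ≤ (C₁ * ε - K) ^ 2 := sq_nonneg _
    have e5 : (C₁ * ε - K) ^ 2 = C₁ ^ 2 * ε ^ 2 - 2 * (C₁ * ε * K) + K ^ 2 := by ring
    have e6 : C₁ * (1 / h + K) * ε = C₁ * (ε / h) + C₁ * ε * K := by ring
    rw [e6] at hS1
    rw [e5] at e3
    linarith
  have hKe : C₁ * K * ε ≤ C₁ * (ε / h) + C₁ ^ 2 * ε ^ 2 := by
    have e3 : 0 ≤ (C₁ * ε - K) ^ 2 := sq_nonneg _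
    have e5 : (C₁ * ε - K) ^ 2 = C₁ ^ 2 * ε ^ 2 - 2 * (C₁ * K * ε) + K ^ 2 := by ring
    rw [e5, hKS] at e3
    linarith
  have hεh : ε ≤ ε / h := by
    rw [le_div_iff₀ hh]
    nlinarith
  -- the energy
  have hAW : ∀ t ∈ H, -(9 / 16 * h) < t →
      A2 0 (3 / 4) (W t) ≤ (2 * C₁ + C₁ ^ 2 + 61) * (ε / h + ε ^ 2) := by
    intro t ht ht1
    have hsm := hW t ht
    have hPH : ∀ z, PHh h t z = W605.MD.k2 z := by
      intro z
      unfold PHh
      rw [cH_one hh ht1.le]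
      ring
    have hnc : Continuous (nsq (W t)) := W605.MD.nsq_cont hsm
    have hcs : HasCompactSupport W605.MD.k2 :=
      HasCompactSupport.of_support_subset_isCompact (isCompact_closedBall (0 : V) 1)
        ((subset_tsupport _).trans W605.MD.k2_tsupport)
    have hint2 : Integrable (fun z => nsq (W t) z * PHh h t z) := by
      simp_rw [hPH]
      exact (hnc.mul W605.MD.k2_cont).integrable_of_hasCompactSupport hcs.mul_left
    have e1 : A2 0 (3 / 4) (W t) ≤ EC h W t := by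
      have e2 : A2 0 (3 / 4) (W t) = ∫ z in ball (0 : V) (3 / 4), nsq (W t) z * PHh h t z := by
        unfold A2
        apply setIntegral_congr_fun measurableSet_ball
        intro z hz
        simp only
        rw [hPH, W605.MD.k2_one hz, mul_one]
      rw [e2]
      exact setIntegral_le_integral hint2 (Filter.Eventually.of_forall fun z =>
        mul_nonneg (W605.MD.nsq_nonneg _ z) (PHh_nonneg h t z))
    have e2 := hle t ht (by linarith)
    have b1 : 0 ≤ ε / h := by positivity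
    have b2 : 0 ≤ ε ^ 2 := by positivity
    have b3 : 0 ≤ C₁ ^ 2 * (ε / h) := by positivity
    have b4 : 0 ≤ C₁ * ε ^ 2 := by positivity
    nlinarith
  refine ⟨?_, hAW⟩
  -- the dissipation
  have hpt : ∀ t ∈ H, -(9 / 16 * h) < t →
      B2 0 (3 / 4) (v t) ≤ (C₁ * (1 / h + K) * G t - deriv (EC h W) t) + 61 * G t := by
    intro t ht ht1
    obtain ⟨P, hP⟩ := hsl t ht
    have hsv := hP.sv
    have hsm := hP.sW
    have hg := (hwb _ _ _ _ _ hP).2.2.2
    have hPH : ∀ z, PHh h t z = W605.MD.k2 z := by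
      intro z
      unfold PHh
      rw [cH_one hh ht1.le]
      ring
    have hcs : HasCompactSupport W605.MD.k2 :=
      HasCompactSupport.of_support_subset_isCompact (isCompact_closedBall (0 : V) 1)
        ((subset_tsupport _).trans W605.MD.k2_tsupport)
    have hgc : Continuous (gsq (W t)) := Pool.Agent.W327.ME.gsq_cont hsm
    have hgv : Continuous (gsq (v t)) := Pool.Agent.W327.ME.gsq_cont hsv
    have hint2 : Integrable (fun z => gsq (W t) z * PHh h t z) := by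
      simp_rw [hPH]
      exact (hgc.mul W605.MD.k2_cont).integrable_of_hasCompactSupport hcs.mul_left
    have e1 : B2 0 (3 / 4) (W t) ≤ ∫ z, gsq (W t) z * PHh h t z := by
      have e2 : B2 0 (3 / 4) (W t) = ∫ z in ball (0 : V) (3 / 4), gsq (W t) z * PHh h t z := by
        unfold B2
        apply setIntegral_congr_fun measurableSet_ball
        intro z hz
        simp only
        rw [hPH, W605.MD.k2_one hz, mul_one]
      rw [e2]
      exact setIntegral_le_integral hint2 (Filter.Eventually.of_forall fun z =>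
        mul_nonneg (W605.MD.gsq_nonneg _ z) (PHh_nonneg h t z))
    have e3 : B2 0 (3 / 4) (v t) ≤ 2 * B2 0 (3 / 4) (W t) + 61 * G t := by
      unfold B2
      have h1 : ∫ z in ball (0 : V) (3 / 4), gsq (v t) z ≤
          ∫ z in ball (0 : V) (3 / 4), (2 * gsq (W t) z + 18 * G t) := by
        apply setIntegral_mono_on (W605.MD.intOn_ball hgv _)
          (W605.MD.intOn_ball ((continuous_const.mul hgc).add continuous_const) _) measurableSet_ball
        intro z hz
        exact hg z (ball_subset_ball (by norm_num) hz)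
      refine h1.trans ?_
      rw [integral_add ((W605.MD.intOn_ball hgc _).const_mul 2)
        (W605.MD.intOn_ball continuous_const _), integral_const_mul, setIntegral_const,
        smul_eq_mul, Measure.real, Real.volume_pi_ball _ (by norm_num),
        ENNReal.toReal_ofReal (by positivity)]
      have := hP.pos
      norm_num
      nlinarith
    have h5 := hder t ht (by linarith)
    have h6 : √(EC h W t) ≤ K := by
      rw [hK]
      exact Real.sqrt_le_sqrt (hle t ht (by linarith))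
    have h7 : C₁ * G t * (1 / h + √(EC h W t)) ≤ C₁ * (1 / h + K) * G t := by
      have := hG0 t ht
      calc C₁ * G t * (1 / h + √(EC h W t)) ≤ C₁ * G t * (1 / h + K) :=
            mul_le_mul_of_nonneg_left (by linarith) (by positivity)
        _ = _ := by ring
    linarith
  obtain ⟨k, hk⟩ : ∃ k : ℝ → ℝ, k = fun t =>
    (C₁ * (1 / h + K) * G t - deriv (EC h W) t) + 61 * G t := ⟨_, rfl⟩
  have hk0 : ∀ t ∈ H, t' < t → 0 ≤ k t := by
    intro t ht ht1
    rw [hk]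
    have h5 := hder t ht (by linarith)
    have h6 : √(EC h W t) ≤ K := by
      rw [hK]
      exact Real.sqrt_le_sqrt (hle t ht ht1.le)
    have h7 : C₁ * G t * (1 / h + √(EC h W t)) ≤ C₁ * (1 / h + K) * G t := by
      have := hG0 t ht
      calc C₁ * G t * (1 / h + √(EC h W t)) ≤ C₁ * G t * (1 / h + K) :=
            mul_le_mul_of_nonneg_left (by linarith) (by positivity)
        _ = _ := by ring
    have h8 := hdis0 t
    have h9 := hG0 t ht
    simp only
    linarith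
  have hkI : ∀ t ∈ H, t' < t → IntegrableOn k (Ioo t' t) ∧
      ∫ τ in Ioo t' t, k τ ≤ (C₁ * (1 / h + K) + 61) * ε := by
    intro t ht ht1
    have ht2 := hH ht
    have hsub : Ioo t' t ⊆ Ioo (-h) 0 := Ioo_subset_Ioo ht'1.le ht2.2.le
    obtain ⟨hi, hen'⟩ := hEn t ht ht1.le
    have hg := hGi.mono_set hsub
    have i1 : IntegrableOn (fun τ => C₁ * (1 / h + K) * G τ) (Ioo t' t) := hg.const_mul _
    have i2 : IntegrableOn (fun τ => 61 * G τ) (Ioo t' t) := hg.const_mul _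
    have i3 : IntegrableOn (fun τ => C₁ * (1 / h + K) * G τ - deriv (EC h W) τ) (Ioo t' t) :=
      i1.sub hi
    rw [hk]
    refine ⟨i3.add i2, ?_⟩
    rw [integral_add i3 i2, integral_sub i1 hi, integral_const_mul, integral_const_mul]
    have h3 := hGle t ht2.2.le
    have h4 := EC_nonneg h W t
    rw [hE'] at hen'
    have h5 : C₁ * (1 / h + K) * (∫ τ in Ioo t' t, G τ) ≤ C₁ * (1 / h + K) * ε :=
      mul_le_mul_of_nonneg_left h3 (by positivity)
    nlinarith
  have hfinal : (C₁ * (1 / h + K) + 61) * ε ≤ (2 * C₁ + C₁ ^ 2 + 61) * (ε / h + ε ^ 2) := by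
    have b2 : 0 ≤ ε ^ 2 := by positivity
    have b3 : 0 ≤ C₁ ^ 2 * (ε / h) := by positivity
    have b4 : 0 ≤ C₁ * ε ^ 2 := by positivity
    have e : (C₁ * (1 / h + K) + 61) * ε = C₁ * (ε / h) + C₁ * K * ε + 61 * ε := by ring
    rw [e]
    nlinarith
  obtain ⟨b, hb⟩ : ∃ b : ℝ → ℝ, b = fun t => B2 0 (3 / 4) (v t) := ⟨_, rfl⟩
  have hb0 : ∀ t, 0 ≤ b t := by
    intro t
    rw [hb]
    exact integral_nonneg fun z => W605.MD.gsq_nonneg _ z
  have hJ : Ioo (-(9 / 16 * h)) 0 ⊆ Ioo (-1) 0 := Ioo_subset_Ioo_left (by linarith)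
  have hbm : AEStronglyMeasurable b (volume.restrict (Ioo (-(9 / 16 * h)) 0)) := by
    have h1 : AEStronglyMeasurable b (volume.restrict H) := by
      rw [hb]
      exact (Pool.Agent.Y8.W4.contB hO hvs 0 (3 / 4)).aestronglyMeasurable hO.measurableSet
    have h2 : volume.restrict (Ioo (-(9 / 16 * h)) 0) ≤ volume.restrict H := by
      apply Measure.restrict_mono' _ le_rfl
      filter_upwards [hae] with t ht h3
      exact ht (hJ h3)
    exact h1.mono_measure h2
  have hmain : ∀ n : ℕ, ∫⁻ t in Ioo (-(9 / 16 * h)) (-(h / ((n : ℝ) + 2))), ENNReal.ofReal (b t)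
      ≤ ENNReal.ofReal ((C₁ * (1 / h + K) + 61) * ε) := by
    intro n
    have hn : (0 : ℝ) < h / ((n : ℝ) + 2) := by positivity
    have hn2 : h / ((n : ℝ) + 2) ≤ h / 2 := by
      apply div_le_div_of_nonneg_left hh.le (by norm_num)
      have : (0 : ℝ) ≤ n := Nat.cast_nonneg n
      linarith
    obtain ⟨t, ht, h1, h2⟩ := hex (-(h / ((n : ℝ) + 2))) 0 (by linarith) (by linarith) le_rfl
    have htt' : t' < t := by linarith
    obtain ⟨h3, h4⟩ := hkI t ht htt'
    have hsub1 : Ioo (-(9 / 16 * h)) (-(h / ((n : ℝ) + 2))) ⊆ Ioo (-(9 / 16 * h)) t :=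
      Ioo_subset_Ioo_right h1.le
    have hsub2 : Ioo (-(9 / 16 * h)) t ⊆ Ioo t' t := Ioo_subset_Ioo_left (by linarith)
    calc ∫⁻ t in Ioo (-(9 / 16 * h)) (-(h / ((n : ℝ) + 2))), ENNReal.ofReal (b t)
        ≤ ∫⁻ t in Ioo (-(9 / 16 * h)) t, ENNReal.ofReal (b t) := lintegral_mono_set hsub1
      _ ≤ ∫⁻ t in Ioo (-(9 / 16 * h)) t, ENNReal.ofReal (k t) := by
          apply lintegral_mono_ae
          filter_upwards [ae_restrict_of_ae hae, ae_restrict_mem measurableSet_Ioo] with τ h5 h6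
          apply ENNReal.ofReal_le_ofReal
          have h7 := hpt τ (h5 ⟨by linarith [h6.1], by linarith [h6.2]⟩) h6.1
          rw [hb, hk]
          exact h7
      _ ≤ ∫⁻ t in Ioo t' t, ENNReal.ofReal (k t) := lintegral_mono_set hsub2
      _ = ENNReal.ofReal (∫ t in Ioo t' t, k t) := by
          rw [ofReal_integral_eq_lintegral_ofReal h3]
          filter_upwards [ae_restrict_of_ae hae, ae_restrict_mem measurableSet_Ioo] with τ h5 h6
          exact hk0 τ (h5 ⟨by linarith [h6.1], by linarith [h6.2]⟩) h6.1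
      _ ≤ _ := ENNReal.ofReal_le_ofReal h4
  have hUn : (⋃ n : ℕ, Ioo (-(9 / 16 * h)) (-(h / ((n : ℝ) + 2)))) = Ioo (-(9 / 16 * h)) 0 := by
    ext t
    simp only [mem_iUnion, mem_Ioo]
    constructor
    · rintro ⟨n, h1, h2⟩
      have : (0 : ℝ) < h / ((n : ℝ) + 2) := by positivity
      exact ⟨h1, by linarith⟩
    · rintro ⟨h1, h2⟩
      obtain ⟨n, hn⟩ := exists_nat_one_div_lt (show (0 : ℝ) < -t by linarith)
      refine ⟨n, h1, ?_⟩
      have h3 : h / ((n : ℝ) + 2) ≤ 1 / ((n : ℝ) + 1) := by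
        apply div_le_div₀ (by norm_num) hh1 (by positivity)
        linarith
      linarith
  have hdir : Directed (· ⊆ ·) (fun n : ℕ => Ioo (-(9 / 16 * h)) (-(h / ((n : ℝ) + 2)))) := by
    apply Monotone.directed_le
    intro n m hnm
    apply Ioo_subset_Ioo_right
    apply neg_le_neg
    apply div_le_div_of_nonneg_left hh.le (by positivity)
    have : (n : ℝ) ≤ m := by exact_mod_cast hnm
    linarith
  have hL : ∫⁻ t in Ioo (-(9 / 16 * h)) 0, ENNReal.ofReal (b t)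
      ≤ ENNReal.ofReal ((C₁ * (1 / h + K) + 61) * ε) := by
    rw [← hUn, setLIntegral_iUnion_of_directed _ hdir]
    exact iSup_le hmain
  have hbi : IntegrableOn b (Ioo (-(9 / 16 * h)) 0) := by
    refine ⟨hbm, ?_⟩
    rw [hasFiniteIntegral_iff_ofReal (Filter.Eventually.of_forall hb0)]
    exact lt_of_le_of_lt hL ENNReal.ofReal_lt_top
  have hfin : ∫ t in Ioo (-(9 / 16 * h)) 0, b t ≤ (C₁ * (1 / h + K) + 61) * ε := by
    rw [integral_eq_lintegral_of_nonneg_ae (Filter.Eventually.of_forall hb0) hbm]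
    refine ENNReal.toReal_le_of_le_ofReal (by positivity) hL
  rw [hb] at hbi hfin
  exact ⟨hbi, hfin.trans hfinal⟩

end Pool.Agent.N976.TL
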