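import Pool.Agent.N976.TL.Stm
import Pool.Agent.W12.MD.GROW

/-!
Project TL, A3: the passage to smaller scales at a fixed time (helper568).
-/

set_option autoImplicit false

open MeasureTheory Set Metric
open scoped ContDiff ENNReal

namespace Pool.Agent.N976.TL

open H459R3.NS W221.NS Pool.Agent.Y8 Pool.Agent.N977.H

namespace A3

open Pool.Agent.W12.MD (intB fderiv_sum smooth_comp th_cont th_nonneg th_int th_zero th_bdd
  th_mul_int th_int_le scal jensen)

/-- the mean and the deviation from it of a scalar function -/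
lemma scalar {K : ℝ} (hK : ∀ z, th z ≤ K) {g : V → ℝ} (hg : Continuous g) :
    (∫ z, th z * g z) ^ 2 ≤ K * ∫ z in ball (0 : V) 4, g z ^ 2 ∧
    ∫ z in ball (0 : V) 4, (g z - ∫ y, th y * g y) ^ 2 ≤
      (2 + 1024 * K) * ∫ z in ball (0 : V) 4, g z ^ 2 := by
  have h1 : (∫ z, th z * g z) ^ 2 ≤ K * ∫ z in ball (0 : V) 4, g z ^ 2 :=
    (jensen hg).trans (th_int_le hK (hg.pow 2) (fun z => sq_nonneg _) (by norm_num))
  refine ⟨h1, ?_⟩
  set a := ∫ y, th y * g y with ha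
  have hvol : ∫ _z in ball (0 : V) 4, (2 * a ^ 2) = 512 * (2 * a ^ 2) := by
    rw [setIntegral_const, smul_eq_mul]
    congr 1
    rw [Measure.real, Real.volume_pi_ball _ (by norm_num), ENNReal.toReal_ofReal (by positivity)]
    simp
    norm_num
  calc ∫ z in ball (0 : V) 4, (g z - a) ^ 2 ≤ ∫ z in ball (0 : V) 4, (2 * g z ^ 2 + 2 * a ^ 2) := by
        refine setIntegral_mono (intB ((hg.sub continuous_const).pow 2) _ _)
          (intB ((continuous_const.mul (hg.pow 2)).add continuous_const) _ _) fun z => ?_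
        show (g z - a) ^ 2 ≤ 2 * g z ^ 2 + 2 * a ^ 2
        nlinarith [sq_nonneg (g z + a)]
    _ = 2 * (∫ z in ball (0 : V) 4, g z ^ 2) + 512 * (2 * a ^ 2) := by
        have i1 : IntegrableOn (fun z => 2 * g z ^ 2) (ball (0 : V) 4) :=
          intB (continuous_const.mul (hg.pow 2)) _ _
        have i2 : IntegrableOn (fun _ : V => 2 * a ^ 2) (ball (0 : V) 4) :=
          intB continuous_const _ _
        rw [integral_add i1 i2, integral_const_mul, hvol]
    _ ≤ (2 + 1024 * K) * ∫ z in ball (0 : V) 4, g z ^ 2 := by linarith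

/-- mean value inequality -/
lemma mvt {g : V → ℝ} (hg : ContDiff ℝ ∞ g) {B : ℝ} (hB : ∀ z ∈ ball (0 : V) 1, ∀ j, |pd j g z| ≤ B)
    {z : V} (hz : z ∈ ball (0 : V) 1) : |g z - g 0| ≤ 3 * B * ‖z‖ := by
  have hB0 : 0 ≤ B := (abs_nonneg _).trans (hB z hz 0)
  have h1 := (convex_ball (0 : V) 1).norm_image_sub_le_of_norm_fderiv_le (𝕜 := ℝ) (f := g)
    (C := 3 * B) (fun x _ => hg.differentiable (by simp) x) (fun x hx => by
      refine ContinuousLinearMap.opNorm_le_bound _ (by positivity) fun v => ?_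
      rw [fderiv_sum, Real.norm_eq_abs]
      calc |∑ j, v j * pd j g x| ≤ ∑ j, |v j * pd j g x| := Finset.abs_sum_le_sum_abs _ _
        _ ≤ ∑ _j : Fin 3, ‖v‖ * B := by
          refine Finset.sum_le_sum fun j _ => ?_
          rw [abs_mul]
          exact mul_le_mul (norm_le_pi_norm v j) (hB x hx j) (abs_nonneg _) (norm_nonneg _)
        _ = 3 * B * ‖v‖ := by
          rw [Finset.sum_const, Finset.card_univ, Fintype.card_fin]
          simp
          ring)
    (mem_ball_self one_pos) hz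
  rw [Real.norm_eq_abs, sub_zero] at h1
  exact h1

/-- the field at the scale `ρ r` -/
lemma fr_scal {w : V → V} (hw : Continuous w) {r ρ : ℝ} (hr : r ≠ 0) (x : V) (i : Fin 3) :
    mo (ρ * r) w x i = (∫ z, th z * Y7.fr r w x (ρ • z) i) / r + mo r w x i ∧
    ∀ z, Y7.fr (ρ * r) w x z i =
      ρ * (Y7.fr r w x (ρ • z) i - ∫ y, th y * Y7.fr r w x (ρ • y) i) := by
  have hc : Continuous (fun z => Y7.fr r w x (ρ • z) i) := by
    unfold Y7.fr
    fun_prop
  have e1 : ∀ z, w (x + (ρ * r) • z) i = Y7.fr r w x (ρ • z) i / r + mo r w x i := by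
    intro z
    have e : x + (ρ * r) • z = x + r • (ρ • z) := by rw [smul_smul, mul_comm]
    rw [e]
    show _ = r * (w (x + r • (ρ • z)) i - Y7.ml r w x i) / r + mo r w x i
    rw [mul_div_cancel_left₀ _ hr]
    show _ = w (x + r • (ρ • z)) i - mo r w x i + mo r w x i
    ring
  have h1 : mo (ρ * r) w x i = (∫ z, th z * Y7.fr r w x (ρ • z) i) / r + mo r w x i := by
    show ∫ y, th y * w (x + (ρ * r) • y) i = _
    simp_rw [e1, mul_add]
    rw [integral_add, integral_mul_const, th_int, one_mul]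
    · congr 1
      rw [← integral_div]
      congr 1
      funext z
      ring
    · have := (th_mul_int hc).div_const r
      refine this.congr (Filter.Eventually.of_forall fun z => ?_)
      show th z * Y7.fr r w x (ρ • z) i / r = th z * (Y7.fr r w x (ρ • z) i / r)
      ring
    · exact th_mul_int continuous_const
  refine ⟨h1, fun z => ?_⟩
  show ρ * r * (w (x + (ρ * r) • z) i - mo (ρ * r) w x i) = _
  rw [h1, e1]
  field_simp
  ring

end A3

open A3 in
open Pool.Agent.W12.MD (intB smooth_comp th_bdd th_mul_int th_int scal) in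
theorem t_A3 : S_A3 := by
  intro C₀ hC₀
  obtain ⟨K, hK0, hK⟩ := th_bdd
  obtain ⟨K1, hK1⟩ : ∃ K1, K1 = 442368 * C₀ ^ 2 := ⟨_, rfl⟩
  obtain ⟨K2, hK2⟩ : ∃ K2, K2 = 2 + 1024 * K := ⟨_, rfl⟩
  have hK10 : 0 ≤ K1 := by rw [hK1]; positivity
  have hK20 : 0 < K2 := by rw [hK2]; positivity
  refine ⟨K2 * (2 + K1) + C₀ + √(2 * K) + √(K * K1), by positivity, ?_⟩
  intro w hw i m x f hm hf hDc
  obtain ⟨r, hr⟩ : ∃ r, r = rr i := ⟨_, rfl⟩
  obtain ⟨ρ, hρ⟩ : ∃ ρ : ℝ, ρ = (1 / 2) ^ m := ⟨_, rfl⟩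
  have hr0 : 0 < r := by rw [hr]; unfold rr; positivity
  have hρ0 : 0 < ρ := by rw [hρ]; positivity
  have hρ8 : ρ ≤ 1 / 8 := by
    rw [hρ]
    calc ((1 : ℝ) / 2) ^ m ≤ (1 / 2) ^ 3 := pow_le_pow_of_le_one (by norm_num) (by norm_num) hm
      _ = 1 / 8 := by norm_num
  have hR : (2 : ℝ) ^ m = ρ⁻¹ := by rw [hρ, one_div, inv_pow, inv_inv]
  have hR16 : (16 : ℝ) ^ m = (ρ ^ 4)⁻¹ := by
    rw [← inv_pow, ← hR, ← pow_mul, mul_comm, pow_mul]
    norm_num
  have hrm : rr (i + m) = ρ * r := by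
    rw [hr, hρ]
    unfold rr
    rw [pow_add, mul_comm]
  rw [← hr] at hDc ⊢
  rw [hrm]
  obtain ⟨v, hv⟩ : ∃ v, v = Y7.fr r w x := ⟨_, rfl⟩
  obtain ⟨A, hA⟩ : ∃ A, A = A2 0 4 v := ⟨_, rfl⟩
  have hA0 : 0 ≤ A := by
    rw [hA]
    unfold A2
    exact integral_nonneg fun z => Finset.sum_nonneg fun i _ => sq_nonneg _
  rw [← hv, ← hA] at hDc ⊢
  obtain ⟨W, hW, hWf, hD⟩ := hDc
  have hvs : ContDiff ℝ ∞ v := by
    rw [hv]
    unfold Y7.fr
    fun_prop
  have hvi : ∀ j, ContDiff ℝ ∞ (fun z => v z j) := fun j => smooth_comp hvs j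
  have hWi : ∀ j, ContDiff ℝ ∞ (fun z => W z j) := fun j => smooth_comp hW j
  -- the deviation from the constant
  obtain ⟨c, hc⟩ : ∃ c : V, c = fun j => v 0 j - W 0 j := ⟨_, rfl⟩
  have hcb : ∀ j, |c j| ≤ C₀ * √A := by
    intro j
    rw [hc]
    exact (hD 0 (mem_ball_self one_pos) j).1
  have hgc : ∀ j, Continuous (fun z : V => v (ρ • z) j - c j) := by
    intro j
    exact ((hvi j).continuous.comp (continuous_const_smul ρ)).sub continuous_const
  have hpt : ∀ j, ∀ z ∈ ball (0 : V) 4, (v (ρ • z) j - c j) ^ 2 ≤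
      2 * W (ρ • z) j ^ 2 + 288 * (ρ ^ 2 * C₀ ^ 2 * A) := by
    intro j z hz
    rw [mem_ball_zero_iff] at hz
    have hn : ‖ρ • z‖ ≤ 4 * ρ := by
      rw [norm_smul, Real.norm_of_nonneg hρ0.le]
      nlinarith
    have h1 := mvt ((hvi j).sub (hWi j)) (B := C₀ * √A) (fun z hz k => (hD z hz j).2 k)
      (z := ρ • z) (by rw [mem_ball_zero_iff]; linarith)
    have h2 : |(v (ρ • z) j - W (ρ • z) j) - c j| ≤ 12 * (ρ * (C₀ * √A)) := by
      rw [hc]
      refine h1.trans ?_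
      have h3 : 0 ≤ C₀ * √A := by positivity
      nlinarith
    have h4 : ((v (ρ • z) j - W (ρ • z) j) - c j) ^ 2 ≤ 144 * (ρ ^ 2 * C₀ ^ 2 * A) := by
      rw [← sq_abs]
      calc |(v (ρ • z) j - W (ρ • z) j) - c j| ^ 2 ≤ (12 * (ρ * (C₀ * √A))) ^ 2 := by gcongr
        _ = 144 * (ρ ^ 2 * C₀ ^ 2 * √A ^ 2) := by ring
        _ = 144 * (ρ ^ 2 * C₀ ^ 2 * A) := by rw [Real.sq_sqrt hA0]
    nlinarith [sq_nonneg (W (ρ • z) j - ((v (ρ • z) j - W (ρ • z) j) - c j))]
  have hint : ∀ j, ∫ z in ball (0 : V) 4, (v (ρ • z) j - c j) ^ 2 ≤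
      2 * ((ρ ^ 3)⁻¹ * ∫ z in ball (0 : V) (3 / 4), W z j ^ 2) +
        147456 * (ρ ^ 2 * C₀ ^ 2 * A) := by
    intro j
    have i1 : IntegrableOn (fun z => 2 * W (ρ • z) j ^ 2) (ball (0 : V) 4) :=
      intB (continuous_const.mul (((hWi j).continuous.comp (continuous_const_smul ρ)).pow 2)) _ _
    have i2 : IntegrableOn (fun _ : V => 288 * (ρ ^ 2 * C₀ ^ 2 * A)) (ball (0 : V) 4) :=
      intB continuous_const _ _
    have hvol : ∫ _z in ball (0 : V) 4, (288 * (ρ ^ 2 * C₀ ^ 2 * A)) =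
        512 * (288 * (ρ ^ 2 * C₀ ^ 2 * A)) := by
      rw [setIntegral_const, smul_eq_mul]
      congr 1
      rw [Measure.real, Real.volume_pi_ball _ (by norm_num), ENNReal.toReal_ofReal (by positivity)]
      simp
      norm_num
    calc ∫ z in ball (0 : V) 4, (v (ρ • z) j - c j) ^ 2 ≤
        ∫ z in ball (0 : V) 4, (2 * W (ρ • z) j ^ 2 + 288 * (ρ ^ 2 * C₀ ^ 2 * A)) :=
          setIntegral_mono_on (intB ((hgc j).pow 2) _ _) (i1.add i2) measurableSet_ball (hpt j)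
      _ = 2 * (∫ z in ball (0 : V) 4, W (ρ • z) j ^ 2) + 512 * (288 * (ρ ^ 2 * C₀ ^ 2 * A)) := by
          rw [integral_add i1 i2, integral_const_mul, hvol]
      _ = 2 * ((ρ ^ 3)⁻¹ * ∫ z in ball (0 : V) (ρ * 4), W z j ^ 2) +
          512 * (288 * (ρ ^ 2 * C₀ ^ 2 * A)) := by
          rw [scal (fun z => W z j ^ 2) hρ0 4]
      _ ≤ 2 * ((ρ ^ 3)⁻¹ * ∫ z in ball (0 : V) (3 / 4), W z j ^ 2) +
          512 * (288 * (ρ ^ 2 * C₀ ^ 2 * A)) := by
          have hmono : ∫ z in ball (0 : V) (ρ * 4), W z j ^ 2 ≤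
              ∫ z in ball (0 : V) (3 / 4), W z j ^ 2 :=
            setIntegral_mono_set (intB ((hWi j).continuous.pow 2) _ _)
              (Filter.Eventually.of_forall fun z => sq_nonneg _)
              (Filter.Eventually.of_forall (ball_subset_ball (by linarith)))
          have hinv : 0 ≤ 2 * (ρ ^ 3)⁻¹ := by positivity
          have := mul_le_mul_of_nonneg_left hmono hinv
          linarith
      _ = _ := by ring
  have hsum : ∑ j, ∫ z in ball (0 : V) 4, (v (ρ • z) j - c j) ^ 2 ≤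
      2 * (ρ ^ 3)⁻¹ * f + K1 * (ρ ^ 2 * A) := by
    have e1 : ∑ j, ∫ z in ball (0 : V) (3 / 4), W z j ^ 2 = A2 0 (3 / 4) W := by
      unfold A2 nsq
      rw [integral_finsetSum]
      exact fun j _ => intB ((hWi j).continuous.pow 2) _ _
    calc ∑ j, ∫ z in ball (0 : V) 4, (v (ρ • z) j - c j) ^ 2 ≤
        ∑ j, (2 * ((ρ ^ 3)⁻¹ * ∫ z in ball (0 : V) (3 / 4), W z j ^ 2) +
          147456 * (ρ ^ 2 * C₀ ^ 2 * A)) := Finset.sum_le_sum fun j _ => hint j
      _ = 2 * (ρ ^ 3)⁻¹ * (∑ j, ∫ z in ball (0 : V) (3 / 4), W z j ^ 2) + K1 * (ρ ^ 2 * A) := by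
          rw [Finset.sum_add_distrib, Finset.sum_const, Finset.card_univ, Fintype.card_fin,
            Finset.mul_sum, hK1]
          simp only [nsmul_eq_mul]
          congr 1
          · exact Finset.sum_congr rfl fun j _ => by ring
          · push_cast
            ring
      _ ≤ 2 * (ρ ^ 3)⁻¹ * f + K1 * (ρ ^ 2 * A) := by
          rw [e1]
          gcongr
  -- the means
  have hmean : ∀ j, ∫ z, th z * (v (ρ • z) j - c j) = (∫ z, th z * v (ρ • z) j) - c j := by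
    intro j
    simp_rw [mul_sub]
    rw [integral_sub, integral_mul_const, th_int, one_mul]
    · exact th_mul_int ((hvi j).continuous.comp (continuous_const_smul ρ))
    · exact th_mul_int continuous_const
  have hsc := fun j => scalar hK (hgc j)
  have hfs := fun j => fr_scal hw.continuous (ρ := ρ) hr0.ne' x j
  rw [← hv] at hfs
  constructor
  · have e1 : A2 0 4 (Y7.fr (ρ * r) w x) = ρ ^ 2 * ∑ j, ∫ z in ball (0 : V) 4,
        ((v (ρ • z) j - c j) - ∫ y, th y * (v (ρ • y) j - c j)) ^ 2 := by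
      unfold A2 nsq
      rw [integral_finsetSum, Finset.mul_sum]
      · refine Finset.sum_congr rfl fun j _ => ?_
        rw [← integral_const_mul]
        congr 1
        funext z
        rw [(hfs j).2 z, hmean j]
        ring
      · intro j _
        refine intB (Continuous.pow ?_ 2) _ _
        have : (fun z => Y7.fr (ρ * r) w x z j) =
            fun z => ρ * (v (ρ • z) j - ∫ y, th y * v (ρ • y) j) := funext (hfs j).2
        rw [this]
        exact continuous_const.mul (((hvi j).continuous.comp (continuous_const_smul ρ)).sub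
          continuous_const)
    rw [e1]
    calc ρ ^ 2 * ∑ j, ∫ z in ball (0 : V) 4,
        ((v (ρ • z) j - c j) - ∫ y, th y * (v (ρ • y) j - c j)) ^ 2 ≤
        ρ ^ 2 * ∑ j, K2 * ∫ z in ball (0 : V) 4, (v (ρ • z) j - c j) ^ 2 := by
          refine mul_le_mul_of_nonneg_left (Finset.sum_le_sum fun j _ => ?_) (by positivity)
          rw [hK2]
          exact (hsc j).2
      _ = ρ ^ 2 * (K2 * ∑ j, ∫ z in ball (0 : V) 4, (v (ρ • z) j - c j) ^ 2) := by
          rw [← Finset.mul_sum]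
      _ ≤ ρ ^ 2 * (K2 * (2 * (ρ ^ 3)⁻¹ * f + K1 * (ρ ^ 2 * A))) := by gcongr
      _ = K2 * (2 * (ρ⁻¹ * f) + K1 * (ρ ^ 4 * A)) := by
          field_simp
      _ ≤ K2 * ((2 + K1) * (ρ⁻¹ * f) + (2 + K1) * (ρ ^ 4 * A)) := by
          gcongr <;> linarith
      _ = K2 * (2 + K1) * (2 ^ m * f + A / 16 ^ m) := by
          rw [hR, hR16, div_inv_eq_mul]
          ring
      _ ≤ (K2 * (2 + K1) + C₀ + √(2 * K) + √(K * K1)) * (2 ^ m * f + A / 16 ^ m) := by
          have h1 : 0 ≤ √(2 * K) := Real.sqrt_nonneg _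
          have h2 : 0 ≤ √(K * K1) := Real.sqrt_nonneg _
          have h3 : 0 ≤ 2 ^ m * f + A / 16 ^ m := by positivity
          gcongr
          linarith
  · have h1 : 0 ≤ √(2 * K) := Real.sqrt_nonneg _
    have h2 : 0 ≤ √(K * K1) := Real.sqrt_nonneg _
    have h3 : 0 ≤ √(2 ^ m * f) := Real.sqrt_nonneg _
    have h4 : 0 ≤ √A := Real.sqrt_nonneg _
    have hCb : ∀ j, |ρ * ((∫ z, th z * v (ρ • z) j) - c j)| ≤
        √(2 * K) * √(2 ^ m * f) + √(K * K1) * (√A * ρ) := by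
      intro j
      refine abs_le_of_sq_le_sq ?_ (by positivity)
      have h5 : ∫ z in ball (0 : V) 4, (v (ρ • z) j - c j) ^ 2 ≤
          2 * (ρ ^ 3)⁻¹ * f + K1 * (ρ ^ 2 * A) := by
        refine le_trans ?_ hsum
        exact Finset.single_le_sum (f := fun j => ∫ z in ball (0 : V) 4, (v (ρ • z) j - c j) ^ 2)
          (fun j _ => integral_nonneg fun z => sq_nonneg _) (Finset.mem_univ j)
      have h6 := (hsc j).1
      rw [hmean j] at h6
      have h7 : (ρ * ((∫ z, th z * v (ρ • z) j) - c j)) ^ 2 ≤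
          2 * K * (ρ⁻¹ * f) + K * K1 * (A * ρ ^ 2) := by
        calc (ρ * ((∫ z, th z * v (ρ • z) j) - c j)) ^ 2 =
            ρ ^ 2 * ((∫ z, th z * v (ρ • z) j) - c j) ^ 2 := by ring
          _ ≤ ρ ^ 2 * (K * (2 * (ρ ^ 3)⁻¹ * f + K1 * (ρ ^ 2 * A))) := by
            gcongr
            exact h6.trans (by gcongr)
          _ = 2 * K * (ρ⁻¹ * f) + K * K1 * (A * ρ ^ 2) * ρ ^ 2 := by
            field_simp
          _ ≤ 2 * K * (ρ⁻¹ * f) + K * K1 * (A * ρ ^ 2) * 1 := by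
            gcongr
            nlinarith
          _ = _ := by ring
      refine h7.trans ?_
      have h8 : (√(2 * K) * √(2 ^ m * f)) ^ 2 = 2 * K * (ρ⁻¹ * f) := by
        rw [mul_pow, Real.sq_sqrt (by positivity), Real.sq_sqrt (by positivity), hR]
      have h9 : (√(K * K1) * (√A * ρ)) ^ 2 = K * K1 * (A * ρ ^ 2) := by
        rw [mul_pow, mul_pow, Real.sq_sqrt (by positivity), Real.sq_sqrt hA0]
      rw [← h8, ← h9]
      have h10 : 0 ≤ √(2 * K) * √(2 ^ m * f) := by positivity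
      have h11 : 0 ≤ √(K * K1) * (√A * ρ) := by positivity
      have h23 := mul_nonneg h10 h11
      have e6 : (√(2 * K) * √(2 ^ m * f) + √(K * K1) * (√A * ρ)) ^ 2 =
          (√(2 * K) * √(2 ^ m * f)) ^ 2 + (√(K * K1) * (√A * ρ)) ^ 2 +
          2 * ((√(2 * K) * √(2 ^ m * f)) * (√(K * K1) * (√A * ρ))) := by ring
      rw [e6]
      linarith
    have hB0 : 0 ≤ r * ‖mo r w x‖ / 2 ^ m
        + (K2 * (2 + K1) + C₀ + √(2 * K) + √(K * K1)) * (√(2 ^ m * f) + √A / 2 ^ m) := by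
      positivity
    have e2 : ρ * r * ‖mo (ρ * r) w x‖ = ‖(ρ * r) • mo (ρ * r) w x‖ := by
      rw [norm_smul, Real.norm_of_nonneg (by positivity)]
    rw [e2, pi_norm_le_iff_of_nonneg hB0]
    intro j
    rw [Pi.smul_apply, smul_eq_mul, (hfs j).1, Real.norm_eq_abs]
    have e3 : ρ * r * ((∫ z, th z * v (ρ • z) j) / r + mo r w x j) =
        ρ * ((∫ z, th z * v (ρ • z) j) - c j) + ρ * c j + ρ * (r * mo r w x j) := by
      field_simp
      ring
    rw [e3]
    have h12 := abs_add_le (ρ * ((∫ z, th z * v (ρ • z) j) - c j) + ρ * c j)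
      (ρ * (r * mo r w x j))
    have h13 := abs_add_le (ρ * ((∫ z, th z * v (ρ • z) j) - c j)) (ρ * c j)
    have h14 : |ρ * c j| ≤ ρ * (C₀ * √A) := by
      rw [abs_mul, abs_of_pos hρ0]
      exact mul_le_mul_of_nonneg_left (hcb j) hρ0.le
    have h15 : |ρ * (r * mo r w x j)| ≤ ρ * (r * ‖mo r w x‖) := by
      rw [abs_mul, abs_of_pos hρ0, abs_mul, abs_of_pos hr0]
      have := norm_le_pi_norm (mo r w x) j
      rw [Real.norm_eq_abs] at this
      gcongr
    have h16 := hCb j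
    have e4 : r * ‖mo r w x‖ / 2 ^ m = ρ * (r * ‖mo r w x‖) := by
      rw [hR, div_inv_eq_mul]
      ring
    have e5 : √A / 2 ^ m = √A * ρ := by rw [hR, div_inv_eq_mul]
    rw [e4, e5]
    have h17 : 0 ≤ √A * ρ := by positivity
    have h18 : 0 ≤ K2 * (2 + K1) := by positivity
    have h19 : 0 ≤ K2 * (2 + K1) * (√(2 ^ m * f) + √A * ρ) := by positivity
    have h20 : 0 ≤ C₀ * √(2 ^ m * f) := by positivity
    have h21 : 0 ≤ √(2 * K) * (√A * ρ) := by positivity
    have h22 : 0 ≤ √(K * K1) * √(2 ^ m * f) := by positivity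
    have e6 : (K2 * (2 + K1) + C₀ + √(2 * K) + √(K * K1)) * (√(2 ^ m * f) + √A * ρ) =
        K2 * (2 + K1) * (√(2 ^ m * f) + √A * ρ) + C₀ * √(2 ^ m * f) + ρ * (C₀ * √A) +
        √(2 * K) * √(2 ^ m * f) + √(2 * K) * (√A * ρ) + √(K * K1) * √(2 ^ m * f) +
        √(K * K1) * (√A * ρ) := by ring
    rw [e6]
    linarith

end Pool.Agent.N976.TL
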