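import Pool.Agent.N976.TL.Stm

/-!
Project TL, part A4: the recursion (helper747).
-/

set_option autoImplicit false

open MeasureTheory Set Metric
open scoped ContDiff ENNReal

namespace Pool.Agent.N976.TL

open H459R3.NS W221.NS Pool.Agent.Y8 Pool.Agent.N977.H

namespace A4

lemma A2_nonneg (a : V) (ρ : ℝ) (v : V → V) : 0 ≤ A2 a ρ v := by
  unfold A2
  refine integral_nonneg fun z => ?_
  unfold nsq
  exact Finset.sum_nonneg fun i _ => sq_nonneg _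

lemma Wi_mono {t₀ : ℝ} {i j : ℕ} (h : i ≤ j) : Wi t₀ j ⊆ Wi t₀ i := by
  have h2 : rr j ^ 2 ≤ rr i ^ 2 := pow_le_pow_left₀ (rr0 _).le (rr_anti h) 2
  exact Ioo_subset_Ioo (by linarith) (by linarith)

lemma sq3 (x y z : ℝ) : (x + y + z) ^ 2 ≤ 3 * (x ^ 2 + y ^ 2 + z ^ 2) := by
  nlinarith [sq_nonneg (x - y), sq_nonneg (y - z), sq_nonneg (x - z)]

/-- The inequality between the numbers. -/
lemma num {C₂ C₃ A b b' A' X e : ℝ} {m : ℕ} (h2 : 0 < C₂) (h3 : 0 < C₃) (hA : 0 ≤ A) (hb : 0 ≤ b)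
    (hb' : 0 ≤ b') (hX : 0 ≤ X) (hAX : A ≤ X) (hbX : b ≤ √X) (he : 0 < e)
    (hm : (3 + 3 * C₃ ^ 2 + C₃) / 4 ^ m ≤ 1 / 8)
    (h4 : A' ≤ C₃ * (2 ^ m * (C₂ * ((1 + √X) * e + e ^ 2)) + A / 16 ^ m))
    (h5 : b' ≤ b / 2 ^ m + C₃ * (√(2 ^ m * (C₂ * ((1 + √X) * e + e ^ 2))) + √A / 2 ^ m)) :
    b' ^ 2 + A' ≤ X / 4 + ((3 * C₃ ^ 2 + C₃) * 2 ^ m * C₂
      + 2 * ((3 * C₃ ^ 2 + C₃) * 2 ^ m * C₂) ^ 2) * (e + e ^ 2) := by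
  have hf : 0 ≤ 2 ^ m * (C₂ * ((1 + √X) * e + e ^ 2)) := by positivity
  obtain ⟨F, hF⟩ : ∃ F, F = 2 ^ m * (C₂ * ((1 + √X) * e + e ^ 2)) := ⟨_, rfl⟩
  rw [← hF] at h4 h5 hf
  have hp4 : (0:ℝ) < 4 ^ m := by positivity
  have h42 : (4:ℝ) ^ m = (2 ^ m) ^ 2 := by rw [← pow_mul, mul_comm, pow_mul]; norm_num
  have h164 : (4:ℝ) ^ m ≤ 16 ^ m := pow_le_pow_left₀ (by norm_num) (by norm_num) m
  -- the square
  have h6 : b' ^ 2 ≤ 3 * (X / 4 ^ m + C₃ ^ 2 * F + C₃ ^ 2 * (X / 4 ^ m)) := by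
    have e1 : b' ^ 2 ≤ (b / 2 ^ m + C₃ * √F + C₃ * (√A / 2 ^ m)) ^ 2 :=
      pow_le_pow_left₀ hb' (h5.trans (le_of_eq (by ring))) 2
    refine e1.trans ((sq3 _ _ _).trans ?_)
    have e2 : (b / 2 ^ m) ^ 2 ≤ X / 4 ^ m := by
      rw [div_pow, ← h42]
      refine div_le_div_of_nonneg_right ?_ hp4.le
      calc b ^ 2 ≤ √X ^ 2 := pow_le_pow_left₀ hb hbX 2
        _ = X := Real.sq_sqrt hX
    have e3 : (C₃ * √F) ^ 2 = C₃ ^ 2 * F := by rw [mul_pow, Real.sq_sqrt hf]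
    have e4 : (C₃ * (√A / 2 ^ m)) ^ 2 ≤ C₃ ^ 2 * (X / 4 ^ m) := by
      rw [mul_pow, div_pow, Real.sq_sqrt hA, ← h42]
      exact mul_le_mul_of_nonneg_left (div_le_div_of_nonneg_right hAX hp4.le) (sq_nonneg _)
    rw [e3]
    linarith
  have h7 : A' ≤ C₃ * F + C₃ * (X / 4 ^ m) := by
    have e1 : A / 16 ^ m ≤ X / 4 ^ m :=
      (div_le_div_of_nonneg_right hAX (by positivity)).trans
        (div_le_div_of_nonneg_left hX hp4 h164)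
    have e2 := mul_le_mul_of_nonneg_left e1 h3.le
    linarith
  have h8 : (3 + 3 * C₃ ^ 2 + C₃) / 4 ^ m * X ≤ 1 / 8 * X := mul_le_mul_of_nonneg_right hm hX
  have h9 : (3 + 3 * C₃ ^ 2 + C₃) / 4 ^ m * X =
      3 * (X / 4 ^ m) + 3 * (C₃ ^ 2 * (X / 4 ^ m)) + C₃ * (X / 4 ^ m) := by ring
  obtain ⟨K, hK⟩ : ∃ K, K = (3 * C₃ ^ 2 + C₃) * 2 ^ m * C₂ := ⟨_, rfl⟩
  rw [← hK]
  have h10 : (3 * C₃ ^ 2 + C₃) * F = K * ((1 + √X) * e + e ^ 2) := by rw [hF, hK]; ring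
  have hK0 : 0 < K := by rw [hK]; positivity
  have h11 : K * (√X * e) ≤ X / 8 + 2 * K ^ 2 * e ^ 2 := by
    have e1 := Real.sq_sqrt hX
    nlinarith [sq_nonneg (√X - 4 * (K * e))]
  have h12 : 0 ≤ K ^ 2 * e := by positivity
  nlinarith

end A4

open A4 in
/-- The recursion. -/
theorem t_A4 : S_A2 → S_A3 → S_A4 := by
  rintro ⟨C₂, h2, H2⟩ H3
  obtain ⟨C₃, h3, H3⟩ := H3 C₂ h2
  obtain ⟨m0, hm0⟩ := pow_unbounded_of_one_lt (8 * (3 + 3 * C₃ ^ 2 + C₃)) (by norm_num : (1:ℝ) < 4)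
  obtain ⟨m, hmm⟩ : ∃ m, m = max m0 3 := ⟨_, rfl⟩
  have hm3 : 3 ≤ m := hmm ▸ le_max_right _ _
  have hm : (3 + 3 * C₃ ^ 2 + C₃) / 4 ^ m ≤ 1 / 8 := by
    have e1 : (4:ℝ) ^ m0 ≤ 4 ^ m := pow_le_pow_right₀ (by norm_num) (hmm ▸ le_max_left _ _)
    rw [div_le_iff₀ (by positivity)]
    linarith
  obtain ⟨K, hK⟩ : ∃ K, K = (3 * C₃ ^ 2 + C₃) * 2 ^ m * C₂ := ⟨_, rfl⟩
  have hK0 : 0 < K := by rw [hK]; positivity
  refine ⟨m, K + 2 * K ^ 2 + C₂, hm3, by positivity, ?_⟩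
  intro T E D G u p hN t₀ x₀ y i e X hL hX hXX
  have he := hL.e0
  have hr := rr0 i
  have hmo : ∀ t ∈ Wi t₀ i ∩ G, rr i * ‖mo (rr i) (u t) x₀‖ ≤ √X := by
    intro t ht
    have h4 := hXX t ht
    unfold XX at h4
    have h5 := A2_nonneg 0 4 (Y7.fr (rr i) (u t) x₀)
    exact Real.le_sqrt_of_sq_le (by linarith)
  have hA : ∀ t ∈ Wi t₀ i ∩ G, A2 0 4 (Y7.fr (rr i) (u t) x₀) ≤ X := by
    intro t ht
    have h4 := hXX t ht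
    unfold XX at h4
    have h5 := sq_nonneg (rr i * ‖mo (rr i) (u t) x₀‖)
    linarith
  obtain ⟨hB, hD⟩ := H2 T E D G u p hN t₀ x₀ y i (√X) e hL (Real.sqrt_nonneg _) hmo
  refine ⟨fun t ht => ?_, hB.trans (ENNReal.ofReal_le_ofReal ?_)⟩
  · have ht1 : t ∈ Wi t₀ (i + 1) ∩ G := ⟨Wi_mono (by omega) ht.1, ht.2⟩
    have ht0 : t ∈ Wi t₀ i ∩ G := ⟨Wi_mono (by omega) ht.1, ht.2⟩
    have h4 := H3 (u t) (hN.spv ht.2).1 i m x₀ (C₂ * ((1 + √X) * e + e ^ 2)) hm3 (by positivity)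
      (hD t ht1)
    have h5 := num h2 h3 (A2_nonneg 0 4 (Y7.fr (rr i) (u t) x₀))
      (mul_nonneg hr.le (norm_nonneg (mo (rr i) (u t) x₀)))
      (mul_nonneg (rr0 (i + m)).le (norm_nonneg (mo (rr (i + m)) (u t) x₀))) hX (hA t ht0)
      (hmo t ht0) he hm h4.1 h4.2
    unfold XX
    refine h5.trans ?_
    rw [← hK]
    have h6 : 0 ≤ C₂ * (e + e ^ 2) := by positivity
    nlinarith
  · have h6 : 0 ≤ (K + 2 * K ^ 2) * rr i * ((1 + √X) * e + e ^ 2) := by positivity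
    nlinarith

end Pool.Agent.N976.TL
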