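import Pool.Agent.N976.TL.Stm

/-!
The integral of the function of the gradient over a cylinder (project TL, part A5).
-/

set_option autoImplicit false

open MeasureTheory Set Metric
open scoped ContDiff ENNReal

namespace Pool.Agent.N976.TL

open H459R3.NS W221.NS Pool.Agent.Y8 Pool.Agent.N977.H

/-- The integral of a periodic function over a slightly larger ball. -/
lemma A5.per8 {g : V → ℝ≥0∞} (hp : Per g) (y : V) :
    ∫⁻ z in ball y 17, g z ≤ 8 * ∫⁻ z in ball y 16, g z := by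
  obtain ⟨w, hw⟩ : ∃ w : (Fin 3 → Bool) → V, w = fun e j => if e j then 1 else -1 := ⟨_, rfl⟩
  obtain ⟨n, hn⟩ : ∃ n : (Fin 3 → Bool) → Fin 3 → ℤ, n = fun e j => if e j then 1 else -1 :=
    ⟨_, rfl⟩
  have hwn : ∀ e, w e = (n e 0 • (Pi.single 0 1 : V) + n e 1 • (Pi.single 1 1 : V))
      + n e 2 • (Pi.single 2 1 : V) := by
    intro e
    rw [hw, hn]
    funext j
    simp only [Pi.add_apply, Pi.smul_apply]
    cases h0 : e 0 <;> cases h1 : e 1 <;> cases h2 : e 2 <;> fin_cases j <;> simp [h0, h1, h2]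
  have hpe : ∀ e z, g (z - w e) = g z := by
    intro e z
    have h0 : Function.Periodic g (Pi.single (0 : Fin 3) 1 : V) := fun x => hp 0 x
    have h1 : Function.Periodic g (Pi.single (1 : Fin 3) 1 : V) := fun x => hp 1 x
    have h2 : Function.Periodic g (Pi.single (2 : Fin 3) 1 : V) := fun x => hp 2 x
    have h := ((h0.zsmul (n e 0)).add_period (h1.zsmul (n e 1))).add_period (h2.zsmul (n e 2))
    rw [← hwn e] at h
    exact h.sub_eq z
  have hsub : ball y 17 ⊆ ⋃ e : Fin 3 → Bool, (fun z => z - w e) ⁻¹' ball y 16 := by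
    intro z hz
    rw [mem_iUnion]
    refine ⟨fun j => decide (0 < z j - y j), ?_⟩
    rw [mem_preimage, mem_ball, dist_pi_lt_iff (by norm_num)]
    rw [mem_ball, dist_pi_lt_iff (by norm_num)] at hz
    intro j
    have h1 := hz j
    rw [Real.dist_eq, abs_lt] at h1 ⊢
    rw [hw]
    simp only [Pi.sub_apply, decide_eq_true_eq]
    split_ifs with h
    · constructor <;> linarith
    · constructor <;> linarith
  calc ∫⁻ z in ball y 17, g z
      ≤ ∫⁻ z in ⋃ e : Fin 3 → Bool, (fun z => z - w e) ⁻¹' ball y 16, g z :=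
        lintegral_mono_set hsub
    _ ≤ ∑' e : Fin 3 → Bool, ∫⁻ z in (fun z => z - w e) ⁻¹' ball y 16, g z :=
        lintegral_iUnion_le _ _
    _ = ∑' _e : Fin 3 → Bool, ∫⁻ z in ball y 16, g z := by
        congr 1
        funext e
        have h := (measurePreserving_sub_right (volume : Measure V)
          (w e)).setLIntegral_comp_preimage_emb (MeasurableEquiv.subRight (w e)).measurableEmbedding
            g (ball y 16)
        rw [← h]
        exact lintegral_congr fun z => (hpe e z).symm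
    _ = 8 * ∫⁻ z in ball y 16, g z := by
        rw [tsum_fintype, Finset.sum_const, Finset.card_univ, Fintype.card_fun, Fintype.card_bool,
          Fintype.card_fin, nsmul_eq_mul]
        norm_num

/-- The comparison of the maximal functions. -/
lemma A5.Mx_far {g : V → ℝ≥0∞} (hp : Per g) {x y : V} {k : ℕ} (h : ‖x - y‖ ≤ rr k) :
    Y7.Hl.Mx 16 g x ≤ max (Y7.Hl.Mx (rr (k + 1)) g x) (8 * Y7.Hl.Mx 16 g y) := by
  have hk1 : rr k ≤ 1 := by
    unfold rr
    exact pow_le_one₀ (by norm_num) (by norm_num)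
  have hdist : dist x y ≤ rr k := by rwa [dist_eq_norm]
  refine iSup_le fun m => ?_
  rcases le_or_gt (k + 5) m with hm | hm
  · refine le_max_of_le_left ?_
    obtain ⟨l, rfl⟩ := Nat.exists_eq_add_of_le hm
    have e : Y7.Hl.Rr 16 (k + 5 + l) = Y7.Hl.Rr (rr (k + 1)) l := by
      unfold Y7.Hl.Rr rr
      rw [one_div, inv_pow, pow_add, pow_add, pow_succ (2 : ℝ) k]
      field_simp
      norm_num
    rw [e]
    exact le_iSup (fun m : ℕ => (∫⁻ y in ball x (Y7.Hl.Rr (rr (k + 1)) m), g y)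
      / ENNReal.ofReal (Y7.Hl.Rr (rr (k + 1)) m ^ 3)) l
  · refine le_max_of_le_right ?_
    rcases Nat.eq_zero_or_pos m with h0 | h0
    · subst h0
      have e : Y7.Hl.Rr 16 0 = 16 := by
        unfold Y7.Hl.Rr
        norm_num
      have h1 : (∫⁻ z in ball y (Y7.Hl.Rr 16 0), g z) / ENNReal.ofReal (Y7.Hl.Rr 16 0 ^ 3)
          ≤ Y7.Hl.Mx 16 g y :=
        le_iSup (fun m : ℕ => (∫⁻ z in ball y (Y7.Hl.Rr 16 m), g z)
          / ENNReal.ofReal (Y7.Hl.Rr 16 m ^ 3)) 0
      refine le_trans ?_ (mul_le_mul_right h1 8)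
      rw [e, ← mul_div_assoc]
      refine ENNReal.div_le_div_right ?_ _
      refine le_trans (lintegral_mono_set (ball_subset_ball' ?_)) (A5.per8 hp y)
      linarith
    · obtain ⟨l, rfl⟩ := Nat.exists_eq_add_of_le' h0
      have h1 : (∫⁻ z in ball y (Y7.Hl.Rr 16 l), g z) / ENNReal.ofReal (Y7.Hl.Rr 16 l ^ 3)
          ≤ Y7.Hl.Mx 16 g y :=
        le_iSup (fun m : ℕ => (∫⁻ z in ball y (Y7.Hl.Rr 16 m), g z)
          / ENNReal.ofReal (Y7.Hl.Rr 16 m ^ 3)) l
      refine le_trans ?_ (mul_le_mul_right h1 8)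
      have hR := Y7.Hl.Rr_pos (R₀ := 16) (by norm_num) (l + 1)
      have e : Y7.Hl.Rr 16 l = 2 * Y7.Hl.Rr 16 (l + 1) := by
        unfold Y7.Hl.Rr
        rw [pow_succ]
        field_simp
      have hR' : rr k ≤ Y7.Hl.Rr 16 (l + 1) := by
        have h2 : rr k = 16 / 2 ^ (k + 4) := by
          unfold rr
          rw [one_div, inv_pow, pow_add]
          field_simp
          norm_num
        rw [h2]
        unfold Y7.Hl.Rr
        apply div_le_div_of_nonneg_left (by norm_num) (by positivity)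
        exact pow_le_pow_right₀ (by norm_num) (by omega)
      obtain ⟨R, hRd⟩ : ∃ R, R = Y7.Hl.Rr 16 (l + 1) := ⟨_, rfl⟩
      rw [e, ← hRd, mul_pow, ENNReal.ofReal_mul (by norm_num)]
      rw [← hRd] at hR hR'
      have e8 : ENNReal.ofReal ((2 : ℝ) ^ 3) = 8 := by norm_num
      rw [e8, ← mul_div_assoc, ENNReal.mul_div_mul_left _ _ (by norm_num) (by norm_num)]
      refine ENNReal.div_le_div_right (lintegral_mono_set (ball_subset_ball' ?_)) _
      linarith

/-- The comparison at a fixed time. -/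
theorem A5.far {w : V → V} (hp : Per w) {x y : V} {k : ℕ} (h : ‖x - y‖ ≤ rr k) :
    Y7.Fx 16 w x ≤ Y7.Fx (rr (k + 1)) w x + 200 * Y7.Fx 16 w y := by
  have hg : Per (Y7.Sp.gw w) := by
    intro i z
    unfold Y7.Sp.gw
    rw [gsq_per hp i z]
  have h1 := ENNReal.rpow_le_rpow (A5.Mx_far hg h) (show (0 : ℝ) ≤ 7 / 6 by norm_num)
  unfold Y7.Fx
  refine h1.trans ?_
  rcases le_total (Y7.Hl.Mx (rr (k + 1)) (Y7.Sp.gw w) x) (8 * Y7.Hl.Mx 16 (Y7.Sp.gw w) y)
    with h2 | h2
  · rw [max_eq_right h2, ENNReal.mul_rpow_of_nonneg _ _ (by norm_num)]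
    refine le_add_left ?_
    refine mul_le_mul_left ?_ _
    have h3 : (8 : ℝ≥0∞) ^ (7 / 6 : ℝ) ≤ 8 ^ (2 : ℝ) :=
      ENNReal.rpow_le_rpow_of_exponent_le (by norm_num) (by norm_num)
    refine h3.trans ?_
    rw [ENNReal.rpow_two]
    norm_num
  · rw [max_eq_left h2]
    exact le_self_add

/-- The maximal theorem. -/
theorem A5.FxL : ∃ C : ℝ, 0 < C ∧ ∀ R₀ : ℝ, 0 < R₀ → ∀ g : V → ℝ≥0∞, Measurable g →
    ∀ B : ℝ≥0∞, B ≠ ⊤ → (∀ x, g x ≤ B) →
    ∫⁻ x, Y7.Hl.Mx R₀ g x ^ (7 / 6 : ℝ) ≤ ENNReal.ofReal C * ∫⁻ x, g x ^ (7 / 6 : ℝ) := by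
  refine ⟨7 / 6 * (2000 * (16 ^ ((7 : ℝ) / 6 - 1) * (7 / 6 - 1)⁻¹)), by positivity, ?_⟩
  intro R₀ hR₀ g hg B hB hgB
  refine (Y7.Hl.strong (p := 7 / 6) (by norm_num) hR₀ hg hB hgB).trans (le_of_eq ?_)
  rw [ENNReal.ofReal_mul (by norm_num), ENNReal.ofReal_mul (by norm_num),
    ENNReal.ofReal_mul (by positivity), ENNReal.ofReal_inv_of_pos (by norm_num)]
  have : ENNReal.ofReal 2000 = 2000 := by norm_num
  rw [this]
  ring

lemma A5.gw_pow (v : V → V) (x : V) :
    Y7.Sp.gw v x ^ (7 / 6 : ℝ) = ENNReal.ofReal (gsq v x) := by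
  unfold Y7.Sp.gw
  rw [← ENNReal.rpow_mul]
  norm_num

/-- The local maximal theorem for balls. -/
theorem A5.loc : ∃ C : ℝ, 0 < C ∧ ∀ (R₀ ρ : ℝ) (x₀ : V), 0 < R₀ → ∀ v : V → V,
    ContDiff ℝ ∞ v → ∫⁻ x in ball x₀ ρ, Y7.Fx R₀ v x
      ≤ ENNReal.ofReal C * ∫⁻ x in ball x₀ (ρ + R₀), ENNReal.ofReal (gsq v x) := by
  obtain ⟨A, hA, hHL⟩ := A5.FxL
  refine ⟨A, hA, fun R₀ ρ x₀ hR₀ v hv => ?_⟩
  obtain ⟨O, hO⟩ : ∃ O, O = ball x₀ (ρ + R₀) := ⟨_, rfl⟩
  have hOm : MeasurableSet O := by rw [hO]; exact measurableSet_ball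
  have hb : ∀ x ∈ ball x₀ ρ, ball x R₀ ⊆ O := by
    intro x hx
    rw [hO]
    apply ball_subset_ball'
    rw [mem_ball] at hx
    linarith
  have hc : Continuous (gsq v) := (gsq_sm hv).continuous
  obtain ⟨M, hM⟩ := (isCompact_closedBall x₀ (ρ + R₀)).exists_bound_of_continuousOn
    hc.continuousOn
  have hgm : Measurable (Y7.Sp.gw v) := by
    unfold Y7.Sp.gw
    exact hc.measurable.ennreal_ofReal.pow_const _
  have h1 : ∀ x ∈ ball x₀ ρ, Y7.Fx R₀ v x
      = Y7.Hl.Mx R₀ (O.indicator (Y7.Sp.gw v)) x ^ (7 / 6 : ℝ) := by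
    intro x hx
    unfold Y7.Fx Y7.Hl.Mx
    congr 1
    refine iSup_congr fun m => ?_
    congr 1
    refine setLIntegral_congr_fun measurableSet_ball fun y hy => ?_
    have : y ∈ O := hb x hx (ball_subset_ball (by
      unfold Y7.Hl.Rr
      exact div_le_self hR₀.le (one_le_pow₀ (by norm_num))) hy)
    exact (indicator_of_mem this _).symm
  have h2 := hHL R₀ hR₀ (O.indicator (Y7.Sp.gw v)) (hgm.indicator hOm)
    (ENNReal.ofReal M ^ (6 / 7 : ℝ))
    (ENNReal.rpow_ne_top_of_nonneg (by norm_num) ENNReal.ofReal_ne_top)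
    (fun x => by
      by_cases hx : x ∈ O
      · rw [indicator_of_mem hx]
        unfold Y7.Sp.gw
        refine ENNReal.rpow_le_rpow (ENNReal.ofReal_le_ofReal ?_) (by norm_num)
        rw [hO] at hx
        exact (le_abs_self _).trans (hM x (ball_subset_closedBall hx))
      · rw [indicator_of_notMem hx]
        exact zero_le)
  rw [← hO]
  calc ∫⁻ x in ball x₀ ρ, Y7.Fx R₀ v x
      = ∫⁻ x in ball x₀ ρ, Y7.Hl.Mx R₀ (O.indicator (Y7.Sp.gw v)) x ^ (7 / 6 : ℝ) :=
        setLIntegral_congr_fun measurableSet_ball h1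
    _ ≤ ∫⁻ x, Y7.Hl.Mx R₀ (O.indicator (Y7.Sp.gw v)) x ^ (7 / 6 : ℝ) :=
        setLIntegral_le_lintegral _ _
    _ ≤ _ := h2
    _ = ENNReal.ofReal A * ∫⁻ x, O.indicator (fun x => ENNReal.ofReal (gsq v x)) x := by
        congr 1
        refine lintegral_congr fun x => ?_
        by_cases hx : x ∈ O
        · rw [indicator_of_mem hx, indicator_of_mem hx, A5.gw_pow]
        · rw [indicator_of_notMem hx, indicator_of_notMem hx,
            ENNReal.zero_rpow_of_pos (by norm_num)]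
    _ = _ := by rw [lintegral_indicator hOm]

lemma A5.FtG_zero {G : Set ℝ} {u : ℝ → V → V} {τ : ℝ} (hτ : τ ∉ G) (y : V) :
    Y7.FtG 16 G u (τ, y) = 0 := by
  unfold Y7.FtG Y7.Hl.Mx
  have e : ∀ z : V, (G ×ˢ (univ : Set V)).indicator
      (fun z : ℝ × V => Y7.Sp.gw (u z.1) z.2) (τ, z) = 0 := by
    intro z
    exact indicator_of_notMem (fun h => hτ h.1) _
  simp only [e]
  simp

/-- One time. -/
theorem A5.slice : ∃ A : ℝ, 0 < A ∧ ∀ (T E D : ℝ) (G : Set ℝ) (u : ℝ → V → V) (p : ℝ → V → ℝ),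
    Turb 1 T E D G u p → ∀ (x₀ y : V) (i : ℕ), ‖x₀ - y‖ ≤ rr (i + 6) → ∀ t : ℝ,
    ∫⁻ x in ball x₀ (rr (i + 3)), Y7.FtG 16 G u (t, x)
      ≤ ENNReal.ofReal A * ENNReal.ofReal (B2 x₀ (rr (i + 1)) (u t))
        + ENNReal.ofReal (1600 * rr (i + 3) ^ 3) * Y7.FtG 16 G u (t, y) := by
  obtain ⟨A, hA, hloc⟩ := A5.loc
  refine ⟨A, hA, fun T E D G u p hN x₀ y i hy t => ?_⟩
  by_cases ht : t ∈ G
  · have hu := hN.spv ht
    have hr3 : 0 < rr (i + 3) := by unfold rr; positivity
    have h1 : ∀ x ∈ ball x₀ (rr (i + 3)), Y7.FtG 16 G u (t, x)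
        ≤ Y7.Fx (rr (i + 3)) (u t) x + 200 * Y7.FtG 16 G u (t, y) := by
      intro x hx
      rw [Y7.FtG_eq 16 u ht x, Y7.FtG_eq 16 u ht y]
      have h2 : ‖x - y‖ ≤ rr (i + 2) := by
        rw [mem_ball, dist_eq_norm] at hx
        have h3 : ‖x - y‖ ≤ ‖x - x₀‖ + ‖x₀ - y‖ := by
          have : x - y = (x - x₀) + (x₀ - y) := by abel
          rw [this]
          exact norm_add_le _ _
        have h4 : rr (i + 6) ≤ rr (i + 3) := rr_anti (by omega)
        have h5 : rr (i + 2) = 2 * rr (i + 3) := by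
          unfold rr
          rw [show i + 3 = (i + 2) + 1 by omega, pow_succ]
          ring
        linarith
      exact A5.far hu.2 h2
    have hgc : Continuous (gsq (u t)) := (gsq_sm hu.1).continuous
    calc ∫⁻ x in ball x₀ (rr (i + 3)), Y7.FtG 16 G u (t, x)
        ≤ ∫⁻ x in ball x₀ (rr (i + 3)), (Y7.Fx (rr (i + 3)) (u t) x
            + 200 * Y7.FtG 16 G u (t, y)) := setLIntegral_mono' measurableSet_ball h1
      _ = (∫⁻ x in ball x₀ (rr (i + 3)), Y7.Fx (rr (i + 3)) (u t) x)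
            + 200 * Y7.FtG 16 G u (t, y) * volume (ball x₀ (rr (i + 3))) := by
          rw [lintegral_add_right _ measurable_const, setLIntegral_const]
      _ ≤ _ := by
          refine add_le_add ?_ (le_of_eq ?_)
          · refine (hloc (rr (i + 3)) (rr (i + 3)) x₀ hr3 (u t) hu.1).trans ?_
            refine mul_le_mul_right ?_ _
            unfold B2
            rw [ofReal_integral_eq_lintegral_ofReal (ballint hgc _ _)
              (Filter.Eventually.of_forall fun x => gsq_nn _ _)]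
            refine lintegral_mono_set (ball_subset_ball ?_)
            have h5 : rr (i + 1) = 4 * rr (i + 3) := by
              unfold rr
              rw [show i + 3 = (i + 1) + 2 by omega, pow_add]
              ring
            linarith
          · rw [Y7.Hl.vol_ball _ hr3, ENNReal.ofReal_mul (by norm_num)]
            have : ENNReal.ofReal 1600 = 200 * 8 := by norm_num
            rw [this]
            ring
  · have h0 : ∀ x, Y7.FtG 16 G u (t, x) = 0 := fun x => A5.FtG_zero ht x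
    simp only [h0, lintegral_zero]
    exact zero_le

/-- The integral of the function of the gradient over the cylinder. -/
theorem t_A5 : S_A5 := by
  obtain ⟨A, hA, hs⟩ := A5.slice
  refine ⟨A + 4, by positivity, ?_⟩
  intro T E D G u p hN t₀ x₀ y i e M hL hM0 hM
  have hFm := Y7.FtG_meas 16 hN
  have hW31 : Wi t₀ (i + 3) ⊆ Wi t₀ (i + 1) := (Wi_succ t₀ (i + 2)).trans (Wi_succ t₀ (i + 1))
  have hW30 : Wi t₀ (i + 3) ⊆ Wi t₀ i := hW31.trans (Wi_succ t₀ i)
  have hri : 0 < rr i := by unfold rr; positivity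
  have hr3 : rr (i + 3) = rr i / 8 := by
    unfold rr
    rw [pow_add]
    ring
  have hFy : Measurable fun t => Y7.FtG 16 G u (t, y) := hFm.comp (measurable_id.prodMk
    measurable_const)
  calc ∫⁻ q in Cy (i + 3) (t₀, x₀), Y7.FtG 16 G u q
      = ∫⁻ t in Wi t₀ (i + 3), ∫⁻ x in ball x₀ (rr (i + 3)), Y7.FtG 16 G u (t, x) := by
        unfold Cy
        rw [Measure.volume_eq_prod, ← Measure.prod_restrict, lintegral_prod _ hFm.aemeasurable]
    _ ≤ ∫⁻ t in Wi t₀ (i + 3), (ENNReal.ofReal A * ENNReal.ofReal (B2 x₀ (rr (i + 1)) (u t))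
          + ENNReal.ofReal (1600 * rr (i + 3) ^ 3) * Y7.FtG 16 G u (t, y)) :=
        lintegral_mono fun t => hs T E D G u p hN x₀ y i hL.dy t
    _ = ENNReal.ofReal A * (∫⁻ t in Wi t₀ (i + 3), ENNReal.ofReal (B2 x₀ (rr (i + 1)) (u t)))
          + ENNReal.ofReal (1600 * rr (i + 3) ^ 3) *
            ∫⁻ t in Wi t₀ (i + 3), Y7.FtG 16 G u (t, y) := by
        rw [lintegral_add_right _ (hFy.const_mul _),
          lintegral_const_mul' _ _ ENNReal.ofReal_ne_top,
          lintegral_const_mul' _ _ ENNReal.ofReal_ne_top]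
    _ ≤ ENNReal.ofReal A * ENNReal.ofReal M
          + ENNReal.ofReal (1600 * rr (i + 3) ^ 3) * ENNReal.ofReal (e / rr i ^ 2) := by
        refine add_le_add (mul_le_mul_right ((lintegral_mono_set hW31).trans hM) _)
          (mul_le_mul_right ((lintegral_mono_set hW30).trans hL.hF) _)
    _ = ENNReal.ofReal (A * M + 1600 * rr (i + 3) ^ 3 * (e / rr i ^ 2)) := by
        have := hL.e0
        rw [ENNReal.ofReal_add (by positivity) (by rw [hr3]; positivity),
          ENNReal.ofReal_mul hA.le,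
          ENNReal.ofReal_mul (p := 1600 * rr (i + 3) ^ 3) (by rw [hr3]; positivity)]
    _ ≤ _ := by
        apply ENNReal.ofReal_le_ofReal
        have h1 : 1600 * rr (i + 3) ^ 3 * (e / rr i ^ 2) = 1600 / 512 * (rr i * e) := by
          rw [hr3]
          field_simp
          ring
        rw [h1]
        have h2 : 0 ≤ rr i * e := mul_nonneg hri.le hL.e0.le
        nlinarith [mul_nonneg hA.le h2]

end Pool.Agent.N976.TL
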