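import Pool.Agent.N976.TL.Stm

/-!
The criterion of regularity (helper265).
-/

set_option autoImplicit false

open MeasureTheory Set Metric
open scoped ContDiff ENNReal

namespace Pool.Agent.N976.TL

open H459R3.NS W221.NS Pool.Agent.Y8 Pool.Agent.N977.H

namespace A6

section

variable {T E D : ℝ} {G : Set ℝ} {u : ℝ → V → V} {p : ℝ → V → ℝ} {t₀ : ℝ} {x₀ y : V} {i : ℕ}
  {e : ℝ}

lemma Wi_sub (h : LvD T G u t₀ x₀ y i e) : Wi t₀ i ⊆ Ioo 0 T := fun τ hτ =>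
  ⟨by have := h.lo; have := hτ.1; nlinarith [sq_nonneg (rr i)],
    by have := h.hi; linarith [hτ.2]⟩

lemma B2nn (x : V) (ρ : ℝ) (w : V → V) : 0 ≤ B2 x ρ w := integral_nonneg fun x =>
  Finset.sum_nonneg fun i _ => Finset.sum_nonneg fun j _ => sq_nonneg _

/-- The function of the gradient in time. -/
lemma SS (hN : Turb 1 T E D G u p) (h : LvD T G u t₀ x₀ y i e) :
    IntegrableOn (fun τ => (Y7.FtG 16 G u (τ, y)).toReal) (Wi t₀ i) ∧
    ∫ τ in Wi t₀ i, (Y7.FtG 16 G u (τ, y)).toReal ≤ e / rr i ^ 2 ∧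
    ∀ᵐ τ ∂(volume.restrict (Wi t₀ i)), τ ∈ G ∧ Y7.FtG 16 G u (τ, y) ≠ ⊤ := by
  have hr := rr0 i
  have hmeas : Measurable fun τ => Y7.FtG 16 G u (τ, y) :=
    (Y7.FtG_meas 16 hN).comp (measurable_id.prodMk measurable_const)
  have h2 : ∫⁻ τ in Wi t₀ i, Y7.FtG 16 G u (τ, y) ≠ ⊤ :=
    ne_top_of_le_ne_top ENNReal.ofReal_ne_top h.hF
  refine ⟨integrable_toReal_of_lintegral_ne_top hmeas.aemeasurable h2, ?_, ?_⟩
  · rw [integral_toReal hmeas.aemeasurable (ae_lt_top hmeas h2)]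
    have h5 := ENNReal.toReal_mono ENNReal.ofReal_ne_top h.hF
    rwa [ENNReal.toReal_ofReal (div_nonneg h.e0.le (sq_nonneg _))] at h5
  · have hae : ∀ᵐ t ∂(volume.restrict (Wi t₀ i)), t ∈ G := by
      rw [ae_restrict_iff' (show MeasurableSet (Wi t₀ i) from measurableSet_Ioo)]
      exact Pool.Agent.Y458.NS.sub_ae hN (Wi_sub h)
    filter_upwards [hae, ae_lt_top hmeas h2] with τ h3 h4
    exact ⟨h3, h4.ne⟩

end

/-- The path stays close. -/
theorem stay : ∃ K : ℝ, 0 < K ∧ ∀ (T E D : ℝ) (G : Set ℝ) (u : ℝ → V → V) (p : ℝ → V → ℝ),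
    Turb 1 T E D G u p → ∀ (t₀ : ℝ) (x₀ y : V) (i : ℕ) (e : ℝ), LvD T G u t₀ x₀ y i e →
    (∀ t ∈ Wi t₀ i ∩ G, rr i * ‖mo (rr i) (u t) x₀‖ ≤ √e) → K * √e < 1 / 64 →
    ∀ (X Y : ℝ → V) (B C : ℝ), FPath T (rr (i + 5)) B C G u p X Y →
    X t₀ = x₀ → ∀ t ∈ Wi t₀ i, ‖X t - x₀‖ ≤ rr (i + 6) := by
  obtain ⟨K₁, hK₁, hmo⟩ := moF
  refine ⟨2 + 4 * K₁, by positivity, ?_⟩
  intro T E D G u p hN t₀ x₀ y i e h ha hKe X Y B C hX hX0 t ht
  by_contra hcon
  rw [not_le] at hcon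
  have hr := rr0 i
  have hr2 : 0 < rr i ^ 2 := by positivity
  have hr6 := rr0 (i + 6)
  have h65 : rr (i + 5) = 2 * rr (i + 6) := by
    have := rrS (i + 5)
    rw [show i + 5 + 1 = i + 6 from rfl] at this
    linarith
  have h60 : rr (i + 6) = rr i / 64 := by
    unfold rr
    rw [pow_add]
    ring
  obtain ⟨hS1, hS2, hS3⟩ := SS hN h
  obtain ⟨S, hS⟩ : ∃ S : ℝ → ℝ, S = fun τ => (Y7.FtG 16 G u (τ, y)).toReal := ⟨_, rfl⟩
  have hS0 : ∀ τ, 0 ≤ S τ := fun τ => by rw [hS]; exact ENNReal.toReal_nonneg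
  rw [← hS] at hS1
  have hS2' : ∫ τ in Wi t₀ i, S τ ≤ e / rr i ^ 2 := by rw [hS]; exact hS2
  have ht0 : t₀ ∈ Wi t₀ i := ⟨by linarith, by linarith⟩
  have hsubc : uIcc t₀ t ⊆ Wi t₀ i := by
    intro τ hτ
    rw [mem_uIcc] at hτ
    rcases hτ with h1 | h1
    · exact ⟨ht0.1.trans_le h1.1, h1.2.trans_lt ht.2⟩
    · exact ⟨ht.1.trans_le h1.1, h1.2.trans_lt ht0.2⟩
  have hsubo : uIoc t₀ t ⊆ Wi t₀ i := uIoc_subset_uIcc.trans hsubc
  have hcs := cs_int (a := t₀ - rr i ^ 2) (b := t₀ + rr i ^ 2) (by linarith)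
    hS0 hS1 hS2'
  obtain ⟨hsi, hcs⟩ := hcs
  have h2r : √(t₀ + rr i ^ 2 - (t₀ - rr i ^ 2)) ≤ 2 * rr i := by
    rw [Real.sqrt_le_left (by positivity)]
    nlinarith
  have h3r : √(e / rr i ^ 2) = √e / rr i := by
    rw [Real.sqrt_div h.e0.le, Real.sqrt_sq hr.le]
  have h3 : ∫ t in Wi t₀ i, √(S t) ≤ 2 * √e := by
    refine hcs.trans ?_
    rw [h3r]
    calc √(t₀ + rr i ^ 2 - (t₀ - rr i ^ 2)) * (√e / rr i) ≤ 2 * rr i * (√e / rr i) := by
          gcongr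
      _ = 2 * √e := by field_simp
  have g1 : IntegrableOn (fun _ : ℝ => √e / rr i) (Wi t₀ i) :=
    integrableOn_const (by unfold Wi; rw [Real.volume_Ioo]; exact ENNReal.ofReal_ne_top)
  have g2 : IntegrableOn (fun t => 2 * K₁ * rr i * √(S t)) (Wi t₀ i) := hsi.const_mul _
  have g3 : IntegrableOn (fun t => √e / rr i + 2 * K₁ * rr i * √(S t)) (Wi t₀ i) := g1.add g2
  have hnn : ∀ τ, 0 ≤ √e / rr i + 2 * K₁ * rr i * √(S τ) := fun τ => by positivity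
  have hft := Pool.Agent.Y458.NS.first_time (X := X) (Y := Y)
    (N := fun τ => √e / rr i + 2 * K₁ * rr i * √(S τ))
    (G := {τ | τ ∈ G ∧ Y7.FtG 16 G u (τ, y) ≠ ⊤})
    (t₀ := t₀) (t := t) (r := rr (i + 6)) (L := |t - t₀|) (a := 0) (b := 1)
    hr6 le_rfl zero_le_one (fun τ hτ => hX.hd τ (Wi_sub h (hsubc hτ)))
    (intervalIntegrable_iff.2 ((Pool.Agent.Y458.NS.FPath_Y_int hN hX).mono_set
      (hsubo.trans (Wi_sub h)))) le_rfl (by rw [hX0]; exact hcon)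
    (ae_restrict_of_ae_restrict_of_subset hsubo hS3) (g3.mono_set hsubo) hnn (by
      intro τ hτ hτI hle
      obtain ⟨hτG, hτf⟩ := hτ
      rw [hX.ev τ hτG, zero_add, one_mul]
      rw [hX0] at hle
      have hu := (hN.spv hτG).1
      have hF : Y7.Fx 16 (u τ) y ≤ ENNReal.ofReal (S τ) := by
        rw [hS]
        simp only
        rw [ENNReal.ofReal_toReal hτf, Y7.FtG_eq 16 u hτG]
      have hdy := h.dy
      have b1 : ‖X τ - y‖ ≤ rr (i + 5) := by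
        have e1 : X τ - y = (X τ - x₀) + (x₀ - y) := by abel
        rw [e1]
        refine (norm_add_le _ _).trans ?_
        rw [h65]
        linarith
      have b2 : ‖x₀ - y‖ ≤ rr i := by linarith
      have c1 := hmo (u τ) hu (i + 5) (X τ) y (S τ) (hS0 τ) b1 hF
      have c2 := hmo (u τ) hu i x₀ y (S τ) (hS0 τ) b2 hF
      have c3 : ‖mo (rr i) (u τ) x₀‖ ≤ √e / rr i := by
        rw [le_div_iff₀ hr, mul_comm]
        exact ha τ ⟨hsubo hτI, hτG⟩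
      have c4 : rr (i + 5) * √(S τ) ≤ rr i * √(S τ) :=
        mul_le_mul_of_nonneg_right (rr_anti (by omega)) (Real.sqrt_nonneg _)
      have c5 := mul_le_mul_of_nonneg_left c4 hK₁.le
      have h6 : mo (rr (i + 5)) (u τ) (X τ) = mo (rr i) (u τ) x₀
          + (mo (rr (i + 5)) (u τ) (X τ) - u τ y) - (mo (rr i) (u τ) x₀ - u τ y) := by abel
      rw [h6]
      refine (norm_sub_le _ _).trans ((add_le_add_left (norm_add_le _ _) _).trans ?_)
      have c6 : 2 * K₁ * rr i * √(S τ) = K₁ * (rr i * √(S τ)) + K₁ * (rr i * √(S τ)) := by ring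
      linarith)
  rw [zero_mul, zero_add, one_mul] at hft
  have h8 : ∫ τ in uIoc t₀ t, (√e / rr i + 2 * K₁ * rr i * √(S τ))
      ≤ ∫ τ in Wi t₀ i, (√e / rr i + 2 * K₁ * rr i * √(S τ)) :=
    setIntegral_mono_set g3 (Filter.Eventually.of_forall hnn) hsubo.eventuallyLE
  rw [integral_add g1 g2, integral_const_mul, setIntegral_const] at h8
  have h9 : volume.real (Wi t₀ i) = 2 * rr i ^ 2 := by
    unfold Wi
    rw [Real.volume_real_Ioo_of_le (by linarith)]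
    ring
  rw [h9, smul_eq_mul] at h8
  have h10 : 2 * K₁ * rr i * ∫ t in Wi t₀ i, √(S t) ≤ 2 * K₁ * rr i * (2 * √e) :=
    mul_le_mul_of_nonneg_left h3 (by positivity)
  have h11 : 2 * rr i ^ 2 * (√e / rr i) = 2 * rr i * √e := by field_simp
  rw [h11] at h8
  have h13 : rr i * ((2 + 4 * K₁) * √e) < rr i * (1 / 64) := mul_lt_mul_of_pos_left hKe hr
  have h14 : rr i * ((2 + 4 * K₁) * √e) = 2 * rr i * √e + 2 * K₁ * rr i * (2 * √e) := by ring
  linarith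

end A6

/-- The criterion of regularity. -/
theorem t_A6 : S_A2 → S_A6 := by
  rintro ⟨C, hC, hA2⟩
  obtain ⟨K, hK, hstay⟩ := A6.stay
  obtain ⟨ε, hε, hcrit⟩ := Pool.Agent.Y8.B.p_crit3
  obtain ⟨Kp, hKp, hpath⟩ := path_ex Pool.Agent.Y8.B.p_tcut Pool.Agent.Y8.B.p_acx
  obtain ⟨θ, hθ, hθ1, hθ2, hθ3⟩ : ∃ θ : ℝ, 0 < θ ∧ K * √θ < 1 / 64 ∧ θ ≤ 1 ∧
      96 * (C * θ) < ε := by
    refine ⟨min ((1 / (65 * K)) ^ 2) (min 1 (ε / (97 * C))), by positivity, ?_, ?_, ?_⟩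
    · have h1 : √(min ((1 / (65 * K)) ^ 2) (min 1 (ε / (97 * C)))) ≤ 1 / (65 * K) := by
        refine (Real.sqrt_le_sqrt (min_le_left _ _)).trans (le_of_eq ?_)
        exact Real.sqrt_sq (by positivity)
      calc K * √(min ((1 / (65 * K)) ^ 2) (min 1 (ε / (97 * C))))
          ≤ K * (1 / (65 * K)) := by gcongr
        _ = 1 / 65 := by field_simp
        _ < 1 / 64 := by norm_num
    · exact (min_le_right _ _).trans (min_le_left _ _)
    · calc 96 * (C * min ((1 / (65 * K)) ^ 2) (min 1 (ε / (97 * C))))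
          ≤ 96 * (C * (ε / (97 * C))) := by
            gcongr
            exact (min_le_right _ _).trans (min_le_right _ _)
        _ = 96 / 97 * ε := by field_simp
        _ < ε := by linarith
  refine ⟨θ, hθ, ?_⟩
  intro T E D G u p hN t₀ x₀ y i h hXX hsing
  have hr := rr0 i
  have hr2 : 0 < rr i ^ 2 := by positivity
  have hlo := h.lo
  have hhi := h.hi
  have h50 : rr (i + 5) = rr i / 32 := by
    unfold rr
    rw [pow_add]
    ring
  have h60 : rr (i + 6) = rr i / 64 := by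
    unfold rr
    rw [pow_add]
    ring
  have h10 : rr (i + 1) = rr i / 2 := rrS i
  have hr' := rr0 (i + 5)
  have hr'1 := rr1 (i + 5)
  have hr'2 : rr (i + 5) ^ 2 = rr i ^ 2 / 1024 := by rw [h50]; ring
  have hr12 : rr (i + 1) ^ 2 = rr i ^ 2 / 4 := by rw [h10]; ring
  have hmo : ∀ t ∈ Wi t₀ i ∩ G, rr i * ‖mo (rr i) (u t) x₀‖ ≤ √θ := by
    intro t ht
    apply Real.le_sqrt_of_sq_le
    have h1 := hXX t ht
    have h2 : 0 ≤ A2 0 4 (Y7.fr (rr i) (u t) x₀) := integral_nonneg fun z => nsq_nn _ z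
    unfold XX at h1
    linarith
  -- the gradient
  have hgr := (hA2 T E D G u p hN t₀ x₀ y i (√θ) θ h (Real.sqrt_nonneg _) hmo).1
  have hgr2 : ∫⁻ t in Wi t₀ (i + 1), ENNReal.ofReal (B2 x₀ (rr (i + 1)) (u t))
      ≤ ENNReal.ofReal (3 * (C * θ) * rr i) := by
    refine hgr.trans (ENNReal.ofReal_le_ofReal ?_)
    have h1 : √θ ≤ 1 := Real.sqrt_le_one.2 hθ2
    have h2 : (1 + √θ) * θ + θ ^ 2 ≤ 3 * θ := by nlinarith
    calc C * rr i * ((1 + √θ) * θ + θ ^ 2) ≤ C * rr i * (3 * θ) := by gcongr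
      _ = _ := by ring
  -- the path
  have ht0T : t₀ ∈ Ioo 0 T := ⟨by linarith, by linarith⟩
  obtain ⟨CY', hCY', hpY'⟩ := hpath E (rr (i + 5)) hr' hr'1
  obtain ⟨Y', Yd', hY0', hY'⟩ := hpY' T D G u p hN t₀ ht0T x₀
  have hst' := hstay T E D G u p hN t₀ x₀ y i θ h hmo hθ1 Y' Yd' _ _ hY' hY0'
  obtain ⟨s, hs⟩ : ∃ s, s = t₀ + rr (i + 5) ^ 2 / 32 := ⟨_, rfl⟩
  have hs1 : t₀ < s := by rw [hs]; linarith [pow_pos hr' 2]
  have hs2 : s < t₀ + rr i ^ 2 := by rw [hs, hr'2]; linarith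
  have hsub : Ioo (s - rr (i + 5) ^ 2) s ⊆ Wi t₀ (i + 1) := by
    unfold Wi
    rw [hr12, hs, hr'2]
    exact Ioo_subset_Ioo (by linarith) (by linarith)
  have hsT : s < T := by linarith
  have hcr := hcrit T E D G u p hN (rr (i + 5)) s hr' hr'1 (by rw [hr'2]; linarith) hsT Y' Yd' _ _
    hY' t₀ ⟨by rw [hs]; linarith [pow_pos hr' 2], hs1⟩ x₀
    (by rw [hY0', mem_ball, dist_self]; positivity) hsing
  have haeG := aeT hN (show 0 ≤ s - rr (i + 5) ^ 2 by rw [hr'2]; linarith) hsT.le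
  have f1 : ∫ τ in Ioo (s - rr (i + 5) ^ 2) s, B2 (Y' τ) (8 * rr (i + 5)) (u τ)
      ≤ (∫⁻ τ in Ioo (s - rr (i + 5) ^ 2) s,
        ENNReal.ofReal ‖B2 (Y' τ) (8 * rr (i + 5)) (u τ)‖).toReal :=
    (Real.le_norm_self _).trans (norm_integral_le_lintegral_norm _)
  have f2 : ∫⁻ τ in Ioo (s - rr (i + 5) ^ 2) s,
        ENNReal.ofReal ‖B2 (Y' τ) (8 * rr (i + 5)) (u τ)‖
      ≤ ENNReal.ofReal (3 * (C * θ) * rr i) := by
    refine le_trans ?_ hgr2
    refine le_trans ?_ (lintegral_mono_set hsub)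
    apply lintegral_mono_ae
    filter_upwards [haeG, ae_restrict_mem measurableSet_Ioo] with τ h1 h2
    apply ENNReal.ofReal_le_ofReal
    rw [Real.norm_of_nonneg (A6.B2nn _ _ _)]
    apply Pool.Agent.Y458.NS.B2_mono (hN.spv h1).1
    apply ball_subset_ball'
    rw [dist_eq_norm, h50, h10]
    have h8 := hst' τ (Wi_succ t₀ i (hsub h2))
    linarith
  have f3 := ENNReal.toReal_mono ENNReal.ofReal_ne_top f2
  rw [ENNReal.toReal_ofReal (by positivity)] at f3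
  have f4 := hcr.trans (f1.trans f3)
  rw [h50] at f4
  have f5 : 96 * (C * θ) * (rr i / 32) < ε * (rr i / 32) :=
    mul_lt_mul_of_pos_right hθ3 (by positivity)
  linarith

end Pool.Agent.N976.TL
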