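import Pool.Agent.N976.TL.Stm
import Pool.Agent.N977.H.Count

/-!
Project TL (helper976), parts A7 and A8 (helper40): the bound by the energy, the essential infimum.
-/

set_option autoImplicit false

open MeasureTheory Set Metric
open scoped ContDiff ENNReal

namespace Pool.Agent.N976.TL

open H459R3.NS W221.NS Pool.Agent.Y8 Pool.Agent.Y7 Pool.Agent.N977.H

namespace A78

/-- the oscillation in the frame -/
theorem fr_eq {u : V → V} (m : ℕ) (x : V) :
    A2 0 4 (Y7.fr (rr m) u x) = (rr m)⁻¹ * A2 x (rr m * 4) (fun z => u z - mo (rr m) u x) := by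
  have hr := rr0 m
  unfold A2
  have e1 : ∀ z, nsq (Y7.fr (rr m) u x) z
      = (fun w => rr m ^ 2 * nsq (fun z => u z - mo (rr m) u x) w) (x + rr m • z) := by
    intro z
    unfold nsq Y7.fr
    simp only
    rw [Finset.mul_sum]
    refine Finset.sum_congr rfl fun i _ => ?_
    rw [mul_pow]
    rfl
  have e2 : ∫ z in ball (0 : V) 4, nsq (Y7.fr (rr m) u x) z
      = ∫ z in ball (0 : V) 4,
        (fun w => rr m ^ 2 * nsq (fun z => u z - mo (rr m) u x) w) (x + rr m • z) :=
    integral_congr_ae (Filter.Eventually.of_forall fun z => e1 z)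
  rw [e2]
  have e3 := W382.ME.cov (fun w => rr m ^ 2 * nsq (fun z => u z - mo (rr m) u x) w) x
    (ρ := 4) hr
  refine e3.trans ?_
  rw [integral_const_mul]
  field_simp

/-- pointwise bound -/
theorem nsq_sub_le (u : V → V) (c : V) (z : V) :
    nsq (fun z => u z - c) z ≤ 2 * nsq u z + 6 * ‖c‖ ^ 2 := by
  unfold nsq
  have h1 : ∀ i, (u z - c) i ^ 2 ≤ 2 * u z i ^ 2 + 2 * ‖c‖ ^ 2 := by
    intro i
    have h2 : |c i| ≤ ‖c‖ := by
      have := norm_le_pi_norm c i
      rwa [Real.norm_eq_abs] at this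
    have h3 : c i ^ 2 ≤ ‖c‖ ^ 2 := by
      rw [← sq_abs]
      exact pow_le_pow_left₀ (abs_nonneg _) h2 2
    rw [Pi.sub_apply]
    nlinarith [sq_nonneg (u z i + c i)]
  calc ∑ i, (u z - c) i ^ 2 ≤ ∑ i : Fin 3, (2 * u z i ^ 2 + 2 * ‖c‖ ^ 2) :=
        Finset.sum_le_sum fun i _ => h1 i
    _ = 2 * ∑ i, u z i ^ 2 + 6 * ‖c‖ ^ 2 := by
        rw [Finset.sum_add_distrib, ← Finset.mul_sum, Finset.sum_const, Finset.card_univ,
          Fintype.card_fin]
        ring

end A78

theorem t_A7 : S_A7 := by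
  obtain ⟨K, hK, hmo⟩ := mo_bd
  obtain ⟨C, hC, hb⟩ := ball_le 1
  refine ⟨K ^ 2 + (2 * C + 3072 * K ^ 2), by positivity, fun w E hw hE i x hi => ?_⟩
  have hr := rr0 i
  have hr8 : rr i ≤ 1 / 8 := by
    have h1 := rr_anti hi
    have h2 : rr 3 = 1 / 8 := by unfold rr; norm_num
    linarith
  have h2i : (2 : ℝ) ^ i = (rr i)⁻¹ := by
    unfold rr
    rw [one_div, inv_pow, inv_inv]
  have h1 := hmo E w hw hE (rr i) x hr (rr1 i)
  set μ := ‖mo (rr i) w x‖ with hμ
  have hμ0 : 0 ≤ μ := norm_nonneg _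
  have h2 : μ ^ 2 ≤ K ^ 2 * E ^ 2 / rr i ^ 3 := by
    calc μ ^ 2 ≤ (K * |E| / √(rr i ^ 3)) ^ 2 := pow_le_pow_left₀ hμ0 h1 2
      _ = _ := by
          rw [div_pow, mul_pow, sq_abs, Real.sq_sqrt (by positivity)]
  have h3 : (rr i * μ) ^ 2 ≤ K ^ 2 * E ^ 2 * 2 ^ i := by
    rw [h2i, mul_pow]
    calc rr i ^ 2 * μ ^ 2 ≤ rr i ^ 2 * (K ^ 2 * E ^ 2 / rr i ^ 3) :=
          mul_le_mul_of_nonneg_left h2 (by positivity)
      _ = _ := by field_simp
  have hc : Continuous (nsq w) := (nsq_sm hw.1).continuous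
  have hc' : Continuous (nsq (fun z => w z - mo (rr i) w x)) :=
    (nsq_sm (hw.1.sub contDiff_const)).continuous
  have h4 : A2 x (rr i * 4) w ≤ C * E ^ 2 := by
    unfold A2
    calc ∫ z in ball x (rr i * 4), nsq w z ≤ ∫ z in ball x 1, nsq w z :=
          setIntegral_mono_set (ballint hc _ _)
            (Filter.Eventually.of_forall fun z => nsq_nn _ z)
            (ball_subset_ball (by linarith)).eventuallyLE
      _ ≤ C * ∫ y in cube, nsq w y := hb _ hc (nsq_per hw.2) (nsq_nn w) x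
      _ ≤ _ := by
          rw [← energy_eq hw.1]
          exact mul_le_mul_of_nonneg_left hE hC.le
  have hvol : volume.real (ball x (rr i * 4)) = (8 * rr i) ^ 3 := by
    rw [Measure.real, Real.volume_pi_ball _ (by positivity), ENNReal.toReal_ofReal (by positivity)]
    simp only [Fintype.card_fin]
    ring
  have h5 : A2 x (rr i * 4) (fun z => w z - mo (rr i) w x) ≤
      2 * (C * E ^ 2) + 6 * μ ^ 2 * (8 * rr i) ^ 3 := by
    calc A2 x (rr i * 4) (fun z => w z - mo (rr i) w x)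
        ≤ ∫ z in ball x (rr i * 4), (2 * nsq w z + 6 * μ ^ 2) := by
          unfold A2
          refine setIntegral_mono (ballint hc' _ _)
            (ballint ((continuous_const.mul hc).add continuous_const) _ _) fun z => ?_
          exact A78.nsq_sub_le w _ z
      _ = 2 * A2 x (rr i * 4) w + 6 * μ ^ 2 * (8 * rr i) ^ 3 := by
          rw [integral_add ((ballint hc _ _).const_mul 2) (by
            rw [integrable_const_iff]
            right
            rw [isFiniteMeasure_restrict]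
            exact measure_ball_lt_top.ne), integral_const_mul, setIntegral_const, hvol,
            smul_eq_mul]
          unfold A2
          ring
      _ ≤ _ := by linarith
  have h6 : A2 0 4 (Y7.fr (rr i) w x) ≤ (2 * C + 3072 * K ^ 2) * E ^ 2 * 2 ^ i := by
    rw [A78.fr_eq, h2i]
    calc (rr i)⁻¹ * A2 x (rr i * 4) (fun z => w z - mo (rr i) w x)
        ≤ (rr i)⁻¹ * (2 * (C * E ^ 2) + 6 * μ ^ 2 * (8 * rr i) ^ 3) :=
          mul_le_mul_of_nonneg_left h5 (by positivity)
      _ ≤ (rr i)⁻¹ * (2 * (C * E ^ 2) + 6 * (K ^ 2 * E ^ 2 / rr i ^ 3) * (8 * rr i) ^ 3) := by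
          have h7 : 6 * μ ^ 2 * (8 * rr i) ^ 3 ≤
              6 * (K ^ 2 * E ^ 2 / rr i ^ 3) * (8 * rr i) ^ 3 := by
            have h8 : (0 : ℝ) ≤ (8 * rr i) ^ 3 := by positivity
            nlinarith
          exact mul_le_mul_of_nonneg_left (by linarith) (by positivity)
      _ = _ := by
          field_simp
          ring
  unfold XX
  calc (rr i * ‖mo (rr i) w x‖) ^ 2 + A2 0 4 (Y7.fr (rr i) w x)
      ≤ K ^ 2 * E ^ 2 * 2 ^ i + (2 * C + 3072 * K ^ 2) * E ^ 2 * 2 ^ i := add_le_add h3 h6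
    _ = _ := by ring

theorem t_A8 : S_A8 := by
  intro T E D G u p hN t₀ x₀ i
  have hr := rr0 i
  set f : V → ℝ≥0∞ := fun y => ∫⁻ τ in Wi t₀ i, Y7.FtG 16 G u (τ, y) with hf
  set μ : Measure V := volume.restrict (ball x₀ (rr (i + 6))) with hμ
  have hμ0 : μ univ ≠ 0 := by
    rw [hμ, Measure.restrict_apply_univ]
    exact (measure_ball_pos volume x₀ (rr0 (i + 6))).ne'
  set I := essInf f μ with hI
  have hIae : ∀ᵐ y ∂μ, I ≤ f y := ae_essInf_le
  have hfin : ∫⁻ y, f y ∂μ ≠ ⊤ := by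
    have h1 := FtG_fin hN (‖x₀‖ + 1)
    refine ne_top_of_le_ne_top h1 ?_
    calc ∫⁻ y in ball x₀ (rr (i + 6)), f y ≤ ∫⁻ y in ball (0 : V) (‖x₀‖ + 1), f y := by
          apply lintegral_mono_set
          apply ball_subset_ball'
          rw [dist_zero_right]
          have := rr1 (i + 6)
          linarith
      _ ≤ _ := lintegral_mono fun y => setLIntegral_le_lintegral _ _
  have hItop : I ≠ ⊤ := by
    intro h
    apply hfin
    have h1 : ∫⁻ _y, I ∂μ ≤ ∫⁻ y, f y ∂μ := lintegral_mono_ae hIae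
    rw [lintegral_const, h, ENNReal.top_mul hμ0] at h1
    exact top_le_iff.1 h1
  have he : rr i ^ 2 * I.toReal / rr i ^ 2 = I.toReal := by
    field_simp
  refine ⟨rr i ^ 2 * I.toReal, by positivity, ?_, ?_⟩
  · rw [he, ENNReal.ofReal_toReal hItop]
    exact hIae
  · intro e' he'
    by_contra hcon
    push Not at hcon
    have h1 : ENNReal.ofReal (e' / rr i ^ 2) ≤ I := by
      refine le_essInf_of_ae_le _ ?_
      rw [Filter.EventuallyLE, hμ, ae_restrict_iff' measurableSet_ball]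
      refine Filter.Eventually.of_forall fun y hy => ?_
      refine (hcon y ?_).le
      rw [mem_ball, dist_comm, dist_eq_norm] at hy
      exact hy.le
    have h2 : I.toReal < e' / rr i ^ 2 := by
      rw [lt_div_iff₀ (by positivity)]
      linarith
    have h3 : I < ENNReal.ofReal (e' / rr i ^ 2) := by
      rw [← ENNReal.ofReal_toReal hItop]
      exact (ENNReal.ofReal_lt_ofReal_iff (lt_of_le_of_lt ENNReal.toReal_nonneg h2)).2 h2
    exact absurd h1 (not_le.2 h3)

end Pool.Agent.N976.TL
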