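import Pool.Agent.N976.TL.Stm

/-!
Project TL (helper976), part A9 (helper40): all properties of the singular points.
-/

set_option autoImplicit false

open MeasureTheory Set Metric
open scoped ContDiff ENNReal

namespace Pool.Agent.N976.TL

open H459R3.NS W221.NS Pool.Agent.Y8 Pool.Agent.N977.H

namespace A9

theorem lim_le {α : Type*} [TopologicalSpace α] [Preorder α] [OrderClosedTopology α]
    {g : ℝ → α} (hg : Continuous g) {a : α} {e : ℝ} (h : ∀ e' > e, a ≤ g e') : a ≤ g e := by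
  have h1 : Filter.Tendsto g (nhdsWithin e (Ioi e)) (nhds (g e)) :=
    (hg.tendsto e).mono_left nhdsWithin_le_nhds
  refine ge_of_tendsto h1 ?_
  filter_upwards [self_mem_nhdsWithin] with e' he'
  exact h e' he'

theorem XX_nonneg (w : V → V) (x : V) (i : ℕ) : 0 ≤ XX w x i := by
  unfold XX
  refine add_nonneg (sq_nonneg _) ?_
  unfold A2
  refine integral_nonneg fun z => ?_
  exact Finset.sum_nonneg fun j _ => sq_nonneg _

/-- the supremum of the size -/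
noncomputable def Xs (G : Set ℝ) (u : ℝ → V → V) (t₀ : ℝ) (x₀ : V) (i : ℕ) : ℝ :=
  sSup ((fun t => XX (u t) x₀ i) '' (Wi t₀ i ∩ G))

theorem Xs_nonneg (G : Set ℝ) (u : ℝ → V → V) (t₀ : ℝ) (x₀ : V) (i : ℕ) :
    0 ≤ Xs G u t₀ x₀ i := by
  apply Real.sSup_nonneg
  rintro _ ⟨t, _, rfl⟩
  exact XX_nonneg _ _ _

theorem Xs_le {G : Set ℝ} {u : ℝ → V → V} {t₀ : ℝ} {x₀ : V} {i : ℕ} {M : ℝ} (hM : 0 ≤ M)
    (h : ∀ t ∈ Wi t₀ i ∩ G, XX (u t) x₀ i ≤ M) : Xs G u t₀ x₀ i ≤ M := by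
  apply Real.sSup_le _ hM
  rintro _ ⟨t, ht, rfl⟩
  exact h t ht

theorem le_Xs {G : Set ℝ} {u : ℝ → V → V} {t₀ : ℝ} {x₀ : V} {i : ℕ} {M : ℝ}
    (h : ∀ t ∈ Wi t₀ i ∩ G, XX (u t) x₀ i ≤ M) : ∀ t ∈ Wi t₀ i ∩ G,
    XX (u t) x₀ i ≤ Xs G u t₀ x₀ i := by
  intro t ht
  apply le_csSup
  · refine ⟨M, ?_⟩
    rintro _ ⟨s, hs, rfl⟩
    exact h s hs
  · exact ⟨t, ht, rfl⟩

end A9

theorem t_A9 : S_A4 → S_A5 → S_A6 → S_A7 → S_A8 → S_A9 := by
  rintro ⟨m, C₄, hm, hC₄, h4⟩ ⟨C₅, hC₅, h5⟩ ⟨θ₆, hθ₆, h6⟩ ⟨C₇, hC₇, h7⟩ h8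
  refine ⟨m, max C₄ (C₅ * (C₄ + 1)), θ₆ / 2, hm, lt_max_of_lt_left hC₄, half_pos hθ₆, ?_⟩
  intro T E D G u p hN
  refine ⟨max 1 (C₇ * E ^ 2), le_max_left _ _, ?_⟩
  intro i₀ z hi₀ hlo hhi hsing
  have h8' := fun i => h8 T E D G u p hN z.1 z.2 i
  choose e he0 helow heup using h8'
  have hspv : ∀ t ∈ G, SPV (u t) := fun t ht => hN.spv ht
  have hbd : ∀ i, 3 ≤ i → ∀ t ∈ Wi z.1 i ∩ G, XX (u t) z.2 i ≤ C₇ * E ^ 2 * 2 ^ i :=
    fun i hi t ht => h7 (u t) E (hspv t ht.2) (hN.energy_le t ht.2) i z.2 hi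
  set X : ℕ → ℝ := fun i => A9.Xs G u z.1 z.2 i with hX
  have hX0 : ∀ i, 0 ≤ X i := fun i => A9.Xs_nonneg G u z.1 z.2 i
  have hXle : ∀ i, 3 ≤ i → ∀ t ∈ Wi z.1 i ∩ G, XX (u t) z.2 i ≤ X i :=
    fun i hi => A9.le_Xs (hbd i hi)
  have hLv : ∀ i ≥ i₀, ∀ e' > e i, ∃ y, LvD T G u z.1 z.2 y i e' := by
    intro i hi e' he'
    obtain ⟨y, hy1, hy2⟩ := heup i e' he'
    have h1 : rr i ^ 2 ≤ rr i₀ ^ 2 := pow_le_pow_left₀ (rr0 i).le (rr_anti hi) 2
    exact ⟨y, ⟨by linarith, by linarith, hy1, lt_of_le_of_lt (he0 i) he', hy2⟩⟩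
  refine ⟨e, X, ⟨he0, hX0, fun i _ => helow i, ?_, ?_, ?_, ?_⟩⟩
  · -- the recursion
    intro i hi
    have hC : C₄ ≤ max C₄ (C₅ * (C₄ + 1)) := le_max_left _ _
    have hee : 0 ≤ e i + e i ^ 2 := add_nonneg (he0 i) (sq_nonneg _)
    have h1 : X (i + m) ≤ X i / 4 + C₄ * (e i + e i ^ 2) := by
      apply A9.Xs_le (by have := hX0 i; positivity)
      intro t ht
      refine A9.lim_le (g := fun e' : ℝ => X i / 4 + C₄ * (e' + e' ^ 2)) (by fun_prop) ?_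
      intro e' he'
      obtain ⟨y, hy⟩ := hLv i hi e' he'
      exact (h4 T E D G u p hN z.1 z.2 y i e' (X i) hy (hX0 i) (hXle i (by omega))).1 t ht
    refine h1.trans ?_
    have := mul_le_mul_of_nonneg_right hC hee
    linarith
  · -- the criterion
    intro i hi
    by_contra hcon
    push Not at hcon
    obtain ⟨y, hy⟩ := hLv i hi θ₆ (by linarith [hcon.2])
    exact h6 T E D G u p hN z.1 z.2 y i hy
      (fun t ht => (hXle i (by omega) t ht).trans (by linarith [hcon.1])) hsing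
  · -- the mass
    intro i hi
    have hr := rr0 i
    have h1 : ∫⁻ q in Cy (i + 3) z, Y7.FtG 16 G u q ≤
        ENNReal.ofReal (C₅ * (C₄ * rr i * ((1 + √(X i)) * e i + e i ^ 2) + rr i * e i)) := by
      refine A9.lim_le (g := fun e' : ℝ => ENNReal.ofReal
        (C₅ * (C₄ * rr i * ((1 + √(X i)) * e' + e' ^ 2) + rr i * e')))
        (ENNReal.continuous_ofReal.comp (by fun_prop)) ?_
      intro e' he'
      have he'0 : 0 < e' := lt_of_le_of_lt (he0 i) he'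
      obtain ⟨y, hy⟩ := hLv i hi e' he'
      have h2 := (h4 T E D G u p hN z.1 z.2 y i e' (X i) hy (hX0 i) (hXle i (by omega))).2
      exact h5 T E D G u p hN z.1 z.2 y i e' _ hy (by positivity) h2
    refine h1.trans (ENNReal.ofReal_le_ofReal ?_)
    have hs : 0 ≤ √(X i) := Real.sqrt_nonneg _
    have he := he0 i
    have h2 : e i ≤ (1 + √(X i)) * e i + e i ^ 2 := by nlinarith [mul_nonneg hs he]
    have hQ : 0 ≤ (1 + √(X i)) * e i + e i ^ 2 := le_trans he h2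
    calc C₅ * (C₄ * rr i * ((1 + √(X i)) * e i + e i ^ 2) + rr i * e i)
        ≤ C₅ * (C₄ * rr i * ((1 + √(X i)) * e i + e i ^ 2) +
            rr i * ((1 + √(X i)) * e i + e i ^ 2)) := by gcongr
      _ = (C₅ * (C₄ + 1)) * (rr i * ((1 + √(X i)) * e i + e i ^ 2)) := by ring
      _ ≤ max C₄ (C₅ * (C₄ + 1)) * (rr i * ((1 + √(X i)) * e i + e i ^ 2)) :=
          mul_le_mul_of_nonneg_right (le_max_right _ _) (by positivity)
      _ = _ := by ring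
  · -- the bound by the energy
    intro i hi
    have h1 : X i ≤ C₇ * E ^ 2 * 2 ^ i := A9.Xs_le (by positivity) (hbd i (by omega))
    exact h1.trans (mul_le_mul_of_nonneg_right (le_max_right _ _) (by positivity))

end Pool.Agent.N976.TL
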