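import Pool.Agent.N976.TL.Stm

/-!
Project TL (helper976): the lemma on sequences (helper704).
-/

set_option autoImplicit false

namespace Pool.Agent.N976.TL

namespace B1

/-- The running maximum with the discount factor `4 / 5`. -/
noncomputable def MM (E : ℕ → ℝ) : ℕ → ℝ
  | 0 => E 0
  | n + 1 => max (MM E n / (5 / 4)) (E (n + 1))

theorem E_le (E : ℕ → ℝ) (n : ℕ) : E n ≤ MM E n := by
  cases n with
  | zero => exact le_rfl
  | succ n => exact le_max_right _ _

theorem M_le (E : ℕ → ℝ) (n : ℕ) : MM E n ≤ 5 / 4 * MM E (n + 1) := by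
  have h : MM E n / (5 / 4) ≤ MM E (n + 1) := le_max_left _ _
  rw [div_le_iff₀ (by norm_num)] at h
  linarith

theorem M_nonneg {E : ℕ → ℝ} (h : ∀ n, 0 ≤ E n) (n : ℕ) : 0 ≤ MM E n := (h n).trans (E_le E n)

theorem M_bd {E : ℕ → ℝ} (h : ∀ n, 0 ≤ E n) {A : ℝ} (n : ℕ) (hA : ∀ j ≤ n, E j ≤ A) :
    MM E n ≤ A := by
  induction n with
  | zero => exact hA 0 le_rfl
  | succ n ih =>
    refine max_le ?_ (hA _ le_rfl)
    have h1 := ih fun j hj => hA j (by omega)
    have h2 := M_nonneg h n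
    rw [div_le_iff₀ (by norm_num)]
    linarith

theorem M_dec (E : ℕ → ℝ) (n₀ L : ℕ) (h : ∀ n, n₀ < n → n ≤ n₀ + L → E n ≠ MM E n) :
    MM E (n₀ + L) = MM E n₀ / (5 / 4) ^ L := by
  induction L with
  | zero => simp
  | succ L ih =>
    have h1 := ih fun n hn hn' => h n hn (by omega)
    have h2 := h (n₀ + (L + 1)) (by omega) le_rfl
    have h3 : MM E (n₀ + (L + 1)) = max (MM E (n₀ + L) / (5 / 4)) (E (n₀ + (L + 1))) := rfl
    rcases max_choice (MM E (n₀ + L) / (5 / 4)) (E (n₀ + (L + 1))) with h4 | h4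
    · rw [h3, h4, h1, pow_succ, div_div]
    · exact absurd (by rw [h3, h4]) h2

theorem Y_le {E Y : ℕ → ℝ} {C : ℝ} (hC : 0 < C) (h : ∀ n, 0 ≤ E n)
    (hY : ∀ n, Y (n + 1) ≤ Y n / 4 + C * (E n + E n ^ 2)) (n : ℕ) :
    Y n ≤ Y 0 / 4 ^ n + 4 * C * (MM E n + MM E n ^ 2) := by
  induction n with
  | zero =>
    have h1 := M_nonneg h 0
    have : 0 ≤ 4 * C * (MM E 0 + MM E 0 ^ 2) := by positivity
    simp only [pow_zero, div_one]
    linarith
  | succ n ih =>
    have h1 := hY n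
    have h2 := E_le E n
    have h3 := h n
    have h4 := M_le E n
    have h5 := M_nonneg h n
    have h6 := M_nonneg h (n + 1)
    set a := MM E n with ha
    set b := MM E (n + 1) with hb
    have h7 : E n ^ 2 ≤ a ^ 2 := by nlinarith
    have h8 : a ^ 2 ≤ 25 / 16 * b ^ 2 := by nlinarith
    have h9 : Y 0 / 4 ^ (n + 1) = Y 0 / 4 ^ n / 4 := by
      rw [pow_succ, div_div]
    rw [h9]
    have h10 : E n + E n ^ 2 ≤ 25 / 16 * (b + b ^ 2) := by nlinarith
    have h11 : a + a ^ 2 ≤ 25 / 16 * (b + b ^ 2) := by nlinarith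
    have h12 : C * (E n + E n ^ 2) ≤ C * (25 / 16 * (b + b ^ 2)) :=
      mul_le_mul_of_nonneg_left h10 hC.le
    have h13 : C * (a + a ^ 2) ≤ C * (25 / 16 * (b + b ^ 2)) :=
      mul_le_mul_of_nonneg_left h11 hC.le
    have h14 : 0 ≤ C * (b + b ^ 2) := by positivity
    nlinarith

theorem exp_le_four (n : ℕ) : Real.exp n ≤ 4 ^ n := by
  have h1 : Real.exp n = Real.exp 1 ^ n := by rw [← Real.exp_nat_mul, mul_one]
  rw [h1]
  exact pow_le_pow_left₀ (Real.exp_pos _).le (by linarith [Real.exp_one_lt_d9]) n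

theorem two_le_exp (n : ℕ) : (2 : ℝ) ^ n ≤ Real.exp n := by
  have h1 : Real.exp n = Real.exp 1 ^ n := by rw [← Real.exp_nat_mul, mul_one]
  rw [h1]
  exact pow_le_pow_left₀ (by norm_num) (by linarith [Real.exp_one_gt_d9]) n

end B1

theorem t_B1 : S_B1 := by
  intro m C θ hm hC hθ
  set θ' : ℝ := min (min 1 (θ / 2)) (θ / (32 * C)) with hθ'd
  have hθ'0 : 0 < θ' := by
    rw [hθ'd]
    refine lt_min (lt_min one_pos (by linarith)) (by positivity)
  have hθ'1 : θ' ≤ 1 := (min_le_left _ _).trans (min_le_left _ _)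
  have hθ'2 : θ' ≤ θ / 2 := (min_le_left _ _).trans (min_le_right _ _)
  have hθ'3 : θ' ≤ θ / (32 * C) := min_le_right _ _
  have hθ'4 : 32 * C * θ' ≤ θ := by
    rw [le_div_iff₀ (by positivity)] at hθ'3
    linarith
  set a₀ : ℝ := Real.log ((C + 1) / θ') with ha₀
  have ha₀' : 0 ≤ a₀ := Real.log_nonneg (by rw [le_div_iff₀ hθ'0]; linarith)
  set lq : ℝ := Real.log (5 / 4) with hlq
  have hlq0 : 0 < lq := Real.log_pos (by norm_num)
  set Pw : ℝ := m * (a₀ / lq + 2 + 1 / lq) with hPw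
  have hPw0 : 0 ≤ Pw := by positivity
  set Pl : ℝ := m * (4 + |Real.log θ|) with hPl
  have hPl0 : 0 ≤ Pl := by positivity
  set Pe : ℝ := θ / (4 * θ' ^ 2) + 4 * C / θ' + 4 * C with hPe
  have hPe0 : 0 ≤ Pe := by positivity
  refine ⟨1 + Pl + Pw + Pe, θ', by linarith, hθ'0, ?_⟩
  intro e X B Λ k₀ J he hX hB hΛ hrec hcrit hbase hbd l w hl hw hlw
  have hlogB : 0 ≤ Real.log B := Real.log_nonneg hB
  have hlogΛ : 0 ≤ Real.log Λ := Real.log_nonneg hΛ
  have hm1 : (1 : ℝ) ≤ m := by exact_mod_cast hm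
  have hk0 : (0 : ℝ) ≤ k₀ := Nat.cast_nonneg _
  set E : ℕ → ℝ := fun n => e (k₀ + m * n) with hE
  set Y : ℕ → ℝ := fun n => X (k₀ + m * n) with hY
  have hE0 : ∀ n, 0 ≤ E n := fun n => he _
  have hYr : ∀ n, Y (n + 1) ≤ Y n / 4 + C * (E n + E n ^ 2) := by
    intro n
    have := hrec (k₀ + m * n) (by omega)
    have h2 : k₀ + m * (n + 1) = k₀ + m * n + m := by ring
    simp only [hY, hE]
    rw [h2]
    exact this
  have hYM := B1.Y_le hC hE0 hYr
  -- the first index
  have hkl : (k₀ : ℝ) ≤ l := by nlinarith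
  have hkl' : k₀ ≤ l := by exact_mod_cast hkl
  obtain ⟨n₀, hn₀, hn₀'⟩ : ∃ n₀ : ℕ, l ≤ k₀ + m * n₀ ∧ k₀ + m * n₀ ≤ l + m := by
    refine ⟨(l - k₀) / m + 1, ?_, ?_⟩
    · have h1 := Nat.lt_mul_div_succ (l - k₀) (by omega : 0 < m)
      rw [Nat.mul_succ] at h1
      rw [Nat.mul_succ]
      omega
    · have h1 := Nat.mul_div_le (l - k₀) m
      rw [Nat.mul_succ]
      omega
  -- the base is negligible
  have hbase' : ∀ n, n₀ ≤ n → Y 0 / 4 ^ n ≤ θ / 4 := by
    intro n hn
    have h1 : Y 0 ≤ B * 2 ^ k₀ := by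
      have := hbase k₀ le_rfl
      simpa [hY] using this
    have h2 : Real.exp n₀ ≤ 4 ^ n := (B1.exp_le_four n₀).trans
      (pow_le_pow_right₀ (by norm_num) hn)
    have h3 : 4 * B * 2 ^ k₀ / θ ≤ Real.exp n₀ := by
      have e1 : 4 * B * 2 ^ k₀ / θ ≤ Real.exp 2 * Real.exp (Real.log B) * Real.exp k₀ *
          Real.exp |Real.log θ| := by
        rw [div_eq_mul_inv]
        have f1 : (4 : ℝ) ≤ Real.exp 2 := by
          have := B1.two_le_exp 2
          norm_num at this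
          exact this
        have f2 : B ≤ Real.exp (Real.log B) := by rw [Real.exp_log (by linarith)]
        have f3 := B1.two_le_exp k₀
        have f4 : θ⁻¹ ≤ Real.exp |Real.log θ| := by
          rw [← Real.exp_log (inv_pos.2 hθ), Real.log_inv]
          exact Real.exp_le_exp.2 (neg_le_abs _)
        have g1 : 0 < θ⁻¹ := inv_pos.2 hθ
        gcongr
      refine e1.trans ?_
      rw [← Real.exp_add, ← Real.exp_add, ← Real.exp_add]
      apply Real.exp_le_exp.2
      have h4 : (l : ℝ) ≤ k₀ + m * n₀ := by exact_mod_cast hn₀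
      have h5 : (1 + Pl) * (k₀ + 1 + Real.log B) ≤ l := by
        refine le_trans ?_ hl
        apply mul_le_mul_of_nonneg_right (by linarith) (by positivity)
      have h6 : (m : ℝ) * ((4 + |Real.log θ|) * (k₀ + 1 + Real.log B)) ≤ m * n₀ := by
        rw [hPl] at h5
        nlinarith
      have h7 : (4 + |Real.log θ|) * (k₀ + 1 + Real.log B) ≤ n₀ :=
        le_of_mul_le_mul_left h6 (by linarith)
      have h8 := abs_nonneg (Real.log θ)
      nlinarith
    have h4 : 4 * B * 2 ^ k₀ / θ ≤ 4 ^ n := h3.trans h2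
    rw [div_le_iff₀ hθ] at h4
    rw [div_le_iff₀ (by positivity)]
    linarith
  -- `M` is large
  have hMl : ∀ n, n₀ ≤ n → θ' < B1.MM E n := by
    intro n hn
    by_contra hcon
    rw [not_lt] at hcon
    have h1 := hbase' n hn
    have h2 := hYM n
    have h3 := B1.E_le E n
    have h4 := B1.M_nonneg hE0 n
    have h5 : B1.MM E n ^ 2 ≤ θ' := by nlinarith
    have h6 : 4 * C * (B1.MM E n + B1.MM E n ^ 2) ≤ 4 * C * (θ' + θ') :=
      mul_le_mul_of_nonneg_left (by linarith) (by linarith)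
    rcases hcrit (k₀ + m * n) (by omega) with h7 | h7
    · have h8 : θ < Y n := h7
      nlinarith
    · have h8 : θ < E n := h7
      linarith
  -- the length
  have hx0 : 0 < (C * Λ + 1) / θ' := by positivity
  set L : ℕ := ⌈Real.log ((C * Λ + 1) / θ') / lq⌉₊ with hL
  have hL1 : Real.log ((C * Λ + 1) / θ') ≤ L * lq := by
    have := Nat.le_ceil (Real.log ((C * Λ + 1) / θ') / lq)
    rw [div_le_iff₀ hlq0] at this
    exact this
  have hL2 : (C * Λ + 1) / θ' ≤ (5 / 4) ^ L := by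
    rw [← Real.log_le_log_iff hx0 (by positivity), Real.log_pow]
    exact hL1
  have hlog : Real.log ((C * Λ + 1) / θ') ≤ a₀ + Real.log Λ := by
    rw [ha₀, ← Real.log_mul (by positivity) (by positivity)]
    apply Real.log_le_log hx0
    rw [div_mul_eq_mul_div]
    apply div_le_div_of_nonneg_right _ hθ'0.le
    nlinarith
  have hlog0 : 0 ≤ Real.log ((C * Λ + 1) / θ') := by
    apply Real.log_nonneg
    rw [le_div_iff₀ hθ'0]
    have : 0 ≤ C * Λ := by positivity
    linarith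
  have hL3 : (L : ℝ) ≤ (a₀ + Real.log Λ) / lq + 1 := by
    have h1 := (Nat.ceil_lt_add_one (div_nonneg hlog0 hlq0.le)).le
    refine h1.trans ?_
    have := div_le_div_of_nonneg_right hlog hlq0.le
    linarith
  have hmL : m + m * L ≤ w := by
    have h1 : (m : ℝ) + m * L ≤ w := by
      refine le_trans ?_ hw
      have h2 : (m : ℝ) + m * L ≤ Pw * (1 + Real.log Λ) := by
        have h3 : (m : ℝ) * L ≤ m * ((a₀ + Real.log Λ) / lq + 1) :=
          mul_le_mul_of_nonneg_left hL3 (by linarith)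
        have h4 : (a₀ + Real.log Λ) / lq + 2 ≤ (a₀ / lq + 2 + 1 / lq) * (1 + Real.log Λ) := by
          have h5 : 0 ≤ a₀ / lq := by positivity
          have h6 : 0 ≤ 1 / lq := by positivity
          have h7 : (a₀ + Real.log Λ) / lq = a₀ / lq + Real.log Λ * (1 / lq) := by ring
          rw [h7]
          nlinarith [mul_nonneg h5 hlogΛ]
        have h5 : (m : ℝ) * ((a₀ + Real.log Λ) / lq + 2) ≤
            m * ((a₀ / lq + 2 + 1 / lq) * (1 + Real.log Λ)) :=
          mul_le_mul_of_nonneg_left h4 (by linarith)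
        rw [hPw]
        nlinarith
      refine h2.trans ?_
      apply mul_le_mul_of_nonneg_right (by linarith) (by linarith)
    exact_mod_cast h1
  -- the good index
  obtain ⟨n, hn1, hn2, hn3⟩ : ∃ n, n₀ < n ∧ n ≤ n₀ + L ∧ E n = B1.MM E n := by
    by_contra hcon
    push Not at hcon
    have h1 := B1.M_dec E n₀ L hcon
    have h2 := hMl (n₀ + L) (by omega)
    have h3 : B1.MM E n₀ ≤ C * Λ := by
      refine B1.M_bd hE0 n₀ fun j hj => hbd _ (by omega) ?_
      have h4 : m * j ≤ m * n₀ := Nat.mul_le_mul_left m hj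
      have h5 : m ≤ w := by
        have : 0 ≤ m * L := Nat.zero_le _
        omega
      omega
    have h4 : B1.MM E n₀ / (5 / 4) ^ L ≤ θ' := by
      rw [div_le_iff₀ (by positivity)]
      rw [div_le_iff₀ hθ'0] at hL2
      linarith
    rw [h1] at h2
    linarith
  have hmn : m * n ≤ m * n₀ + m * L := by
    have := Nat.mul_le_mul_left m hn2
    rwa [Nat.mul_add] at this
  have hmn' : m * n₀ ≤ m * n := Nat.mul_le_mul_left m hn1.le
  have hEn : θ' < E n := by rw [hn3]; exact hMl n hn1.le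
  refine ⟨k₀ + m * n, by omega, by omega, hEn.le, ?_⟩
  have h1 := hbase' n hn1.le
  have h2 := hYM n
  rw [← hn3] at h2
  have h3 : X (k₀ + m * n) = Y n := rfl
  have h4 : e (k₀ + m * n) = E n := rfl
  rw [h3, h4]
  have h5 : θ / 4 ≤ θ / (4 * θ' ^ 2) * E n ^ 2 := by
    have : θ / (4 * θ' ^ 2) * E n ^ 2 = θ / 4 * (E n ^ 2 / θ' ^ 2) := by
      field_simp
    rw [this]
    have h6 : 1 ≤ E n ^ 2 / θ' ^ 2 := by
      rw [le_div_iff₀ (by positivity), one_mul]
      exact pow_le_pow_left₀ hθ'0.le hEn.le 2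
    nlinarith
  have h6 : 4 * C * E n ≤ 4 * C / θ' * E n ^ 2 := by
    have : 4 * C / θ' * E n ^ 2 = 4 * C * E n * (E n / θ') := by ring
    rw [this]
    have h7 : 1 ≤ E n / θ' := by
      rw [le_div_iff₀ hθ'0, one_mul]
      exact hEn.le
    have h8 : 0 ≤ 4 * C * E n := by
      have := hE0 n
      positivity
    nlinarith
  have h7 : 0 ≤ (1 + Pl + Pw) * E n ^ 2 := by positivity
  have h8 : Pe * E n ^ 2 = θ / (4 * θ' ^ 2) * E n ^ 2 + 4 * C / θ' * E n ^ 2 +
    4 * C * E n ^ 2 := by rw [hPe]; ring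
  nlinarith

end Pool.Agent.N976.TL
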