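import Pool.Agent.N976.TL.Stm

/-!
Project TL (helper976), part B3 (helper40): the lines which do not meet the neighbourhood.
-/

set_option autoImplicit false

open MeasureTheory Set Metric
open scoped ENNReal

namespace Pool.Agent.N976.TL

open H459R3.NS W221.NS Pool.Agent.Y8 Pool.Agent.N977.H

namespace B3

theorem rpos (n : ℕ) : 0 < rr n := by unfold rr; positivity

theorem rsucc (n : ℕ) : rr (n + 1) = rr n / 2 := by unfold rr; rw [pow_succ]; ring

theorem ranti {m n : ℕ} (h : m ≤ n) : rr n ≤ rr m := by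
  unfold rr
  exact pow_le_pow_of_le_one (by norm_num) (by norm_num) h

theorem mem_Cy {i : ℕ} {z q : ℝ × V} :
    q ∈ Cy i z ↔ (z.1 - rr i ^ 2 < q.1 ∧ q.1 < z.1 + rr i ^ 2) ∧ dist q.2 z.2 < rr i := by
  unfold Cy Wi
  rw [Set.mem_prod, mem_Ioo, mem_ball]

theorem open_Cy (i : ℕ) (z : ℝ × V) : IsOpen (Cy i z) := isOpen_Ioo.prod isOpen_ball

theorem self_Cy (i : ℕ) (z : ℝ × V) : z ∈ Cy i z := by
  rw [mem_Cy, dist_self]
  have := rpos i
  refine ⟨⟨?_, ?_⟩, this⟩ <;> nlinarith [sq_pos_of_pos this]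

/-- a cylinder of a higher level which meets the cylinder is contained in its double -/
theorem Cy_sub {i j : ℕ} {z z' : ℝ × V} (hij : i + 2 ≤ j)
    (h : (Cy j z' ∩ Cy (i + 1) z).Nonempty) : Cy j z' ⊆ Cy i z := by
  obtain ⟨q₀, h1, h2⟩ := h
  intro q hq
  rw [mem_Cy] at h1 h2 hq ⊢
  have hj : rr j ≤ rr i / 4 := by
    have h3 := ranti hij
    have h4 : rr (i + 2) = rr i / 4 := by rw [rsucc, rsucc]; ring
    linarith
  have hj0 := rpos j
  have hi0 := rpos i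
  have hs : rr (i + 1) = rr i / 2 := rsucc i
  have hj2 : rr j ^ 2 ≤ rr i ^ 2 / 16 := by nlinarith
  have hs2 : rr (i + 1) ^ 2 = rr i ^ 2 / 4 := by rw [hs]; ring
  have hi2 : 0 < rr i ^ 2 := by positivity
  refine ⟨⟨by linarith [h1.1.1, h1.1.2, h2.1.1, h2.1.2, hq.1.1, hq.1.2],
    by linarith [h1.1.1, h1.1.2, h2.1.1, h2.1.2, hq.1.1, hq.1.2]⟩, ?_⟩
  have h3 := dist_triangle4 q.2 z'.2 q₀.2 z.2
  have h4 : dist z'.2 q₀.2 = dist q₀.2 z'.2 := dist_comm _ _
  linarith [h1.2, h2.2, hq.2]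

/-- the number of disjoint cylinders -/
theorem count {F : ℝ × V → ℝ≥0∞} {K : Set (ℝ × V)} {b Λ : ℝ} {i j : ℕ} {z : ℝ × V}
    (hΛ : 0 < Λ) (hij : i + 2 ≤ j)
    (hlow : ∀ z' ∈ K, ENNReal.ofReal (b * rr j) ≤ ∫⁻ q in Cy j z', F q)
    (hdens : ∫⁻ q in Cy i z, F q ≤ ENNReal.ofReal (Λ * rr i))
    (S : Finset (ℝ × V)) (hSK : ∀ z' ∈ S, z' ∈ K ∧ (Cy j z' ∩ Cy (i + 1) z).Nonempty)
    (hd : (S : Set (ℝ × V)).PairwiseDisjoint (Cy j)) :
    (S.card : ℝ) * (b * rr j) ≤ Λ * rr i := by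
  have h1 : (S.card : ℝ≥0∞) * ENNReal.ofReal (b * rr j) ≤ ENNReal.ofReal (Λ * rr i) := by
    calc (S.card : ℝ≥0∞) * ENNReal.ofReal (b * rr j)
        = ∑ _z' ∈ S, ENNReal.ofReal (b * rr j) := by
          rw [Finset.sum_const, nsmul_eq_mul]
      _ ≤ ∑ z' ∈ S, ∫⁻ q in Cy j z', F q :=
          Finset.sum_le_sum fun z' hz' => hlow z' (hSK z' hz').1
      _ = ∫⁻ q in ⋃ z' ∈ S, Cy j z', F q :=
          (lintegral_biUnion_finset hd (fun z' _ => (open_Cy j z').measurableSet) F).symm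
      _ ≤ ∫⁻ q in Cy i z, F q := by
          apply lintegral_mono_set
          exact iUnion₂_subset fun z' hz' => Cy_sub hij (hSK z' hz').2
      _ ≤ _ := hdens
  have h2 : ENNReal.ofReal ((S.card : ℝ) * (b * rr j)) ≤ ENNReal.ofReal (Λ * rr i) := by
    rw [ENNReal.ofReal_mul (Nat.cast_nonneg _), ENNReal.ofReal_natCast]
    exact h1
  exact (ENNReal.ofReal_le_ofReal_iff (mul_pos hΛ (rpos i)).le).1 h2

theorem main_B3 (F : ℝ × V → ℝ≥0∞) (hF : Measurable F) (K : Set (ℝ × V)) (b Λ : ℝ)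
    (hb : 0 < b) (hΛ : 1 ≤ Λ) (z : ℝ × V) (i j : ℕ) (e : ℝ) (hij : i + 2 ≤ j)
    (hlow : ∀ z' ∈ K, ENNReal.ofReal (b * rr j) ≤ ∫⁻ q in Cy j z', F q)
    (hdens : ∫⁻ q in Cy i z, F q ≤ ENNReal.ofReal (Λ * rr i))
    (hr : 28311552 * Λ * rr j ^ 2 ≤ b * rr (i + 1) ^ 2) (he : 0 < e)
    (hae : ∀ᵐ y ∂(volume.restrict (ball z.2 (rr (i + 1 + 6)))),
      ENNReal.ofReal (e / rr (i + 1) ^ 2) ≤ ∫⁻ τ in Wi z.1 (i + 1), F (τ, y)) :
    ENNReal.ofReal (rr (i + 1) * e / 65536) ≤ ∫⁻ q in Cy (i + 1) z \ Nb K j, F q := by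
  have hΛ0 : 0 < Λ := by linarith
  have hj0 := rpos j
  have hi0 := rpos i
  have hi1 := rpos (i + 1)
  set t : Set (ℝ × V) := {z' | z' ∈ K ∧ (Cy j z' ∩ Cy (i + 1) z).Nonempty} with ht
  obtain ⟨U, hUt, hUd, hUc⟩ := Vitali.exists_disjoint_subfamily_covering_enlargement (Cy j) t
    (fun _ => (1 : ℝ)) 2 (by norm_num) (fun _ _ => zero_le_one) 1 (fun _ _ => le_rfl)
    (fun z' _ => ⟨z', self_Cy j z'⟩)
  have hfin : U.Finite := by
    by_contra hinf
    obtain ⟨n, hn⟩ := exists_nat_gt (Λ * rr i / (b * rr j))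
    obtain ⟨S, hSU, hSc⟩ := Set.Infinite.exists_subset_card_eq hinf n
    have h1 := count hΛ0 hij hlow hdens S (fun z' hz' => hUt (hSU hz'))
      (hUd.subset hSU)
    rw [hSc] at h1
    rw [div_lt_iff₀ (by positivity)] at hn
    linarith
  set S := hfin.toFinset with hS
  have hSU : (S : Set (ℝ × V)) = U := hfin.coe_toFinset
  have hcount := count hΛ0 hij hlow hdens S
    (fun z' hz' => hUt (hSU ▸ (Finset.mem_coe.2 hz'))) (by rw [hSU]; exact hUd)
  -- the projection of the enlarged cylinders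
  set Pr : Set V := ⋃ z' ∈ S, ball z'.2 (3 * rr j) with hPr
  have hPrm : MeasurableSet Pr := Finset.measurableSet_biUnion S fun z' _ => measurableSet_ball
  have hPrv : volume Pr ≤ ENNReal.ofReal (4 * rr (i + 1) ^ 3 / 64 ^ 3) := by
    calc volume Pr ≤ ∑ z' ∈ S, volume (ball z'.2 (3 * rr j)) := measure_biUnion_finset_le _ _
      _ = ∑ _z' ∈ S, ENNReal.ofReal ((2 * (3 * rr j)) ^ 3) := by
          refine Finset.sum_congr rfl fun z' _ => ?_
          rw [Real.volume_pi_ball _ (by positivity)]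
          simp
      _ = ENNReal.ofReal ((S.card : ℝ) * (2 * (3 * rr j)) ^ 3) := by
          rw [Finset.sum_const, nsmul_eq_mul, ENNReal.ofReal_mul (Nat.cast_nonneg _),
            ENNReal.ofReal_natCast]
      _ ≤ _ := by
          apply ENNReal.ofReal_le_ofReal
          have h1 : (S.card : ℝ) * (b * rr j) ≤ Λ * (2 * rr (i + 1)) := by
            rw [rsucc]
            linarith
          have h2 : (S.card : ℝ) * (2 * (3 * rr j)) ^ 3 * b =
              216 * rr j ^ 2 * ((S.card : ℝ) * (b * rr j)) := by ring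
          have h3 : (S.card : ℝ) * (2 * (3 * rr j)) ^ 3 * b ≤
              216 * rr j ^ 2 * (Λ * (2 * rr (i + 1))) := by
            rw [h2]
            exact mul_le_mul_of_nonneg_left h1 (by positivity)
          have h4 : 216 * rr j ^ 2 * (Λ * (2 * rr (i + 1))) =
              28311552 * Λ * rr j ^ 2 * (rr (i + 1) / 65536) := by ring
          have h5 : 28311552 * Λ * rr j ^ 2 * (rr (i + 1) / 65536) ≤
              b * rr (i + 1) ^ 2 * (rr (i + 1) / 65536) :=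
            mul_le_mul_of_nonneg_right hr (by positivity)
          have h6 : b * rr (i + 1) ^ 2 * (rr (i + 1) / 65536) =
              4 * rr (i + 1) ^ 3 / 64 ^ 3 * b := by ring
          have h7 : (S.card : ℝ) * (2 * (3 * rr j)) ^ 3 * b ≤
              4 * rr (i + 1) ^ 3 / 64 ^ 3 * b := by linarith
          exact le_of_mul_le_mul_right h7 hb
  set Bl : Set V := ball z.2 (rr (i + 1 + 6)) with hBl
  have hBlv : volume Bl = ENNReal.ofReal (8 * rr (i + 1) ^ 3 / 64 ^ 3) := by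
    rw [hBl, Real.volume_pi_ball _ (rpos _)]
    congr 1
    have : rr (i + 1 + 6) = rr (i + 1) / 64 := by
      unfold rr
      rw [pow_add]
      norm_num
      ring
    rw [this]
    simp only [Fintype.card_fin]
    ring
  have hdiff : ENNReal.ofReal (rr (i + 1) ^ 3 / 65536) ≤ volume (Bl \ Pr) := by
    calc ENNReal.ofReal (rr (i + 1) ^ 3 / 65536)
        = ENNReal.ofReal (8 * rr (i + 1) ^ 3 / 64 ^ 3) -
            ENNReal.ofReal (4 * rr (i + 1) ^ 3 / 64 ^ 3) := by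
          rw [← ENNReal.ofReal_sub _ (by positivity)]
          congr 1
          ring
      _ ≤ volume Bl - volume Pr := by
          rw [hBlv]
          exact tsub_le_tsub_left hPrv _
      _ ≤ _ := le_measure_sdiff
  -- the lines
  have hsub : Wi z.1 (i + 1) ×ˢ (Bl \ Pr) ⊆ Cy (i + 1) z \ Nb K j := by
    rintro ⟨τ, y⟩ ⟨h1, h2, h3⟩
    simp only at h1 h2 h3
    have hyc : (τ, y) ∈ Cy (i + 1) z := by
      refine ⟨h1, ?_⟩
      exact ball_subset_ball (ranti (by omega)) h2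
    refine ⟨hyc, ?_⟩
    intro h4
    apply h3
    unfold Nb at h4
    rw [mem_iUnion₂] at h4
    obtain ⟨z', hz', h5⟩ := h4
    obtain ⟨z'', hz'', ⟨q, hq1, hq2⟩, _⟩ := hUc z' ⟨hz', ⟨_, h5, hyc⟩⟩
    rw [hPr, mem_iUnion₂]
    refine ⟨z'', ?_, ?_⟩
    · rw [hS, Set.Finite.mem_toFinset]
      exact hz''
    · rw [mem_Cy] at h5 hq1 hq2
      rw [mem_ball]
      have h6 := dist_triangle4 y z'.2 q.2 z''.2
      have h7 : dist z'.2 q.2 = dist q.2 z'.2 := dist_comm _ _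
      have h8 : dist y z'.2 < rr j := h5.2
      linarith [hq1.2, hq2.2]
  have hae' : ∀ᵐ y ∂(volume.restrict (Bl \ Pr)),
      ENNReal.ofReal (e / rr (i + 1) ^ 2) ≤ ∫⁻ τ in Wi z.1 (i + 1), F (τ, y) :=
    ae_restrict_of_ae_restrict_of_subset sdiff_subset hae
  calc ENNReal.ofReal (rr (i + 1) * e / 65536)
      = ENNReal.ofReal (e / rr (i + 1) ^ 2) * ENNReal.ofReal (rr (i + 1) ^ 3 / 65536) := by
        rw [← ENNReal.ofReal_mul (by positivity)]
        congr 1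
        field_simp
    _ ≤ ENNReal.ofReal (e / rr (i + 1) ^ 2) * volume (Bl \ Pr) := by gcongr
    _ = ∫⁻ _y in Bl \ Pr, ENNReal.ofReal (e / rr (i + 1) ^ 2) := by
        rw [setLIntegral_const]
    _ ≤ ∫⁻ y in Bl \ Pr, ∫⁻ τ in Wi z.1 (i + 1), F (τ, y) := lintegral_mono_ae hae'
    _ = ∫⁻ q in Wi z.1 (i + 1) ×ˢ (Bl \ Pr), F q := by
        rw [Measure.volume_eq_prod, ← Measure.prod_restrict,
          lintegral_prod_symm' _ hF]
    _ ≤ _ := lintegral_mono_set hsub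

end B3

theorem t_B3 : S_B3 := by
  intro F hF K a b Λ w k J hb hΛ hGd z hz i j e hki hij hJ hr he hae
  obtain ⟨i', rfl⟩ : ∃ i', i = i' + 1 := ⟨i - 1, by omega⟩
  refine B3.main_B3 F hF K b Λ hb hΛ z i' j e (by omega) ?_ ?_ hr he hae
  · intro z' hz'
    exact (hGd z' hz').low j (by omega) hJ
  · exact (hGd z hz).dens i' (by omega) (by omega)

end Pool.Agent.N976.TL
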