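import Pool.Agent.N976.TL.Stm

/-!
Project TL (helper976), parts B5 and C0 (helper999): the number of the cylinders, and the points of
large density.
-/

set_option autoImplicit false

open MeasureTheory Set Metric
open scoped ContDiff ENNReal

namespace Pool.Agent.N976.TL

open H459R3.NS W221.NS Pool.Agent.Y8 Pool.Agent.N977.H

namespace B5

theorem meas_Cy (i : ℕ) (z : ℝ × V) : MeasurableSet (Cy i z) := by
  unfold Cy Wi
  exact measurableSet_Ioo.prod measurableSet_ball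

theorem self_mem (i : ℕ) (z : ℝ × V) : z ∈ Cy i z := by
  have h := rr0 i
  refine ⟨⟨?_, ?_⟩, mem_ball_self h⟩
  · have := pow_pos h 2
    linarith
  · have := pow_pos h 2
    linarith

theorem Cy_mono {i i' : ℕ} (h : i' ≤ i) (z : ℝ × V) : Cy i z ⊆ Cy i' z := by
  have h1 := rr_anti h
  have h2 : rr i ^ 2 ≤ rr i' ^ 2 := pow_le_pow_left₀ (rr0 i).le h1 2
  rintro q ⟨⟨h3, h4⟩, h5⟩
  refine ⟨⟨by linarith, by linarith⟩, ball_subset_ball h1 h5⟩

/-- cylinders which meet -/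
theorem meet {i i' : ℕ} (h : i' ≤ i) (hi' : 1 ≤ i') {z b : ℝ × V}
    (hne : (Cy i z ∩ Cy i' b).Nonempty) : z ∈ Cy (i' - 1) b := by
  obtain ⟨q, ⟨⟨h1, h2⟩, h3⟩, ⟨⟨h4, h5⟩, h6⟩⟩ := hne
  have h7 := rr_anti h
  have h8 : rr i ^ 2 ≤ rr i' ^ 2 := pow_le_pow_left₀ (rr0 i).le h7 2
  have h9 := pow_pos (rr0 i') 2
  have h10 : rr (i' - 1) = 2 * rr i' := by
    obtain ⟨n, rfl⟩ : ∃ n, i' = n + 1 := ⟨i' - 1, by omega⟩
    rw [Nat.add_sub_cancel, rrS]
    ring
  have h11 : rr (i' - 1) ^ 2 = 4 * rr i' ^ 2 := by rw [h10]; ring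
  refine ⟨⟨?_, ?_⟩, ?_⟩
  · rw [h11]
    linarith
  · rw [h11]
    linarith
  · rw [mem_ball] at h3 h6 ⊢
    rw [h10]
    calc dist z.2 b.2 ≤ dist z.2 q.2 + dist q.2 b.2 := dist_triangle _ _ _
      _ < rr i + rr i' := add_lt_add (by rwa [dist_comm] at h3) h6
      _ ≤ 2 * rr i' := by linarith

/-- the masses of disjoint sets -/
theorem mass {F : ℝ × V → ℝ≥0∞} {u : Set (ℝ × V)} {C : ℝ × V → Set (ℝ × V)}
    (hC : ∀ z, MeasurableSet (C z)) (hd : u.PairwiseDisjoint C) {N : Set (ℝ × V)}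
    (hN : ∀ z ∈ u, C z ⊆ N) {m : ℝ × V → ℝ} (hm : ∀ z ∈ u, 0 ≤ m z)
    (hF : ∀ z ∈ u, ENNReal.ofReal (m z) ≤ ∫⁻ q in C z, F q) {D : ℝ} (hD : 0 ≤ D)
    (hND : ∫⁻ q in N, F q ≤ ENNReal.ofReal D) (s : Finset (ℝ × V)) (hs : (s : Set (ℝ × V)) ⊆ u) :
    ∑ z ∈ s, m z ≤ D := by
  rw [← ENNReal.ofReal_le_ofReal_iff hD, ENNReal.ofReal_sum_of_nonneg fun z hz => hm z (hs hz)]
  refine (Finset.sum_le_sum fun z hz => hF z (hs hz)).trans ?_
  rw [← lintegral_biUnion_finset (hd.subset hs) fun z _ => hC z]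
  refine (lintegral_mono_set ?_).trans hND
  exact iUnion₂_subset fun z hz => hN z (hs hz)

/-- sets with lower bounds for the masses are finite -/
theorem fin {u : Set (ℝ × V)} {m : ℝ × V → ℝ} {δ D : ℝ} (hδ : 0 < δ) (hm : ∀ z ∈ u, δ ≤ m z)
    (h : ∀ s : Finset (ℝ × V), (s : Set (ℝ × V)) ⊆ u → ∑ z ∈ s, m z ≤ D) : u.Finite := by
  by_contra hinf
  obtain ⟨n, hn⟩ := exists_nat_gt (D / δ)
  obtain ⟨s, hs, hcard⟩ := Set.Infinite.exists_subset_card_eq hinf n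
  have h1 := h s hs
  have h2 : ∑ _z ∈ s, δ ≤ ∑ z ∈ s, m z := Finset.sum_le_sum fun z hz => hm z (hs hz)
  rw [Finset.sum_const, hcard, nsmul_eq_mul] at h2
  rw [div_lt_iff₀ hδ] at hn
  linarith

end B5

open B5

theorem t_B5 : S_B5 := by
  classical
  intro F _ K b D j hb hD hj hlow hND
  obtain ⟨u, huK, hd, hcov⟩ := Vitali.exists_disjoint_subfamily_covering_enlargement (Cy j) K
    (fun _ => 1) 2 (by norm_num) (fun _ _ => zero_le_one) 1 (fun _ _ => le_rfl)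
    (fun z _ => ⟨z, self_mem j z⟩)
  have hδ : 0 < b * rr j := mul_pos hb (rr0 j)
  have hm := mass (F := F) (C := Cy j) (meas_Cy j) hd (N := Nb K j)
    (fun z hz => subset_biUnion_of_mem (u := fun z => Cy j z) (huK hz))
    (m := fun _ => b * rr j) (fun _ _ => hδ.le) (fun z hz => hlow z (huK hz)) hD hND
  have hfin : u.Finite := fin hδ (m := fun _ => b * rr j) (fun _ _ => le_rfl) hm
  refine ⟨hfin.toFinset, fun z hz => huK (hfin.mem_toFinset.1 hz), fun z hz => ?_, ?_⟩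
  · obtain ⟨c, hc, hne, _⟩ := hcov z hz
    rw [mem_iUnion₂]
    exact ⟨c, hfin.mem_toFinset.2 hc, meet le_rfl hj hne⟩
  · have h := hm hfin.toFinset (by rw [hfin.coe_toFinset])
    rw [Finset.sum_const, nsmul_eq_mul] at h
    linarith

theorem t_C0 : S_C0 := by
  classical
  intro F _ K D Λ k₀ J hD hΛ hk₀ hex hND
  choose! i h1 h2 h3 using hex
  obtain ⟨u, huK, hd, hcov⟩ := Vitali.exists_disjoint_subfamily_covering_enlargement
    (fun z => Cy (i z) z) K (fun z => rr (i z)) (3 / 2) (by norm_num) (fun z _ => (rr0 _).le) 1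
    (fun z _ => rr1 _) (fun z _ => ⟨z, self_mem _ z⟩)
  have hm := mass (F := F) (C := fun z => Cy (i z) z) (fun z => meas_Cy _ z) hd (N := Nb K k₀)
    (fun z hz => (Cy_mono (h1 z (huK hz)) z).trans
      (subset_biUnion_of_mem (u := fun z => Cy k₀ z) (huK hz)))
    (m := fun z => Λ * rr (i z)) (fun z _ => (mul_pos hΛ (rr0 _)).le)
    (fun z hz => (h3 z (huK hz)).le) hD hND
  have hfin : u.Finite := fin (mul_pos hΛ (rr0 J)) (m := fun z => Λ * rr (i z))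
    (fun z hz => mul_le_mul_of_nonneg_left (rr_anti (h2 z (huK hz))) hΛ.le) hm
  refine ⟨hfin.toFinset.image fun z => (i z - 1, z), fun q hq => ?_, fun z hz => ?_, ?_⟩
  · obtain ⟨z, hz, rfl⟩ := Finset.mem_image.1 hq
    have hzK := huK (hfin.mem_toFinset.1 hz)
    have a1 := h1 z hzK
    have a2 := h2 z hzK
    exact ⟨by show k₀ - 1 ≤ i z - 1; omega, by show i z - 1 + 1 ≤ J; omega⟩
  · obtain ⟨c, hc, hne, hle⟩ := hcov z hz
    have hic : i c ≤ i z := by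
      by_contra hlt
      have h4 : rr (i c) ≤ rr (i z + 1) := rr_anti (by omega)
      rw [rrS] at h4
      have h5 := rr0 (i z)
      linarith
    have h6 := h1 c (huK hc)
    rw [mem_iUnion₂]
    exact ⟨(i c - 1, c), Finset.mem_image.2 ⟨c, hfin.mem_toFinset.2 hc, rfl⟩,
      meet hic (by omega) hne⟩
  · rw [Finset.sum_image (fun z _ z' _ h => congrArg Prod.snd h)]
    have h := hm hfin.toFinset (by rw [hfin.coe_toFinset])
    rw [← Finset.mul_sum] at h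
    have h4 : ∑ z ∈ hfin.toFinset, rr (i z - 1) = 2 * ∑ z ∈ hfin.toFinset, rr (i z) := by
      rw [Finset.mul_sum]
      refine Finset.sum_congr rfl fun z hz => ?_
      have hzK := huK (hfin.mem_toFinset.1 hz)
      have a1 := h1 z hzK
      obtain ⟨n, hn⟩ : ∃ n, i z = n + 1 := ⟨i z - 1, by omega⟩
      rw [hn, Nat.add_sub_cancel, rrS]
      ring
    show ∑ z ∈ hfin.toFinset, rr (i z - 1) ≤ _
    rw [h4, le_div_iff₀ hΛ]
    linarith

end Pool.Agent.N976.TL
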