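import Pool.Agent.N976.TL.Stm
import Pool.Agent.N977.H.Count

/-!
The integral of the function of the gradient over a cylinder and the dissipation at larger scales
(project TL, part D1).
-/

set_option autoImplicit false

open MeasureTheory Set Metric
open scoped ContDiff ENNReal

namespace Pool.Agent.N976.TL

open H459R3.NS W221.NS Pool.Agent.Y8 Pool.Agent.N977.H

namespace D1

lemma Rr16 (m : ℕ) : Y7.Hl.Rr 16 (m + 4) = rr m := by
  unfold Y7.Hl.Rr rr
  rw [pow_add, one_div, inv_pow]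
  field_simp
  norm_num

lemma Rr_shift (i m : ℕ) : Y7.Hl.Rr 16 (m + (i + 4)) = Y7.Hl.Rr (rr i) m := by
  unfold Y7.Hl.Rr rr
  rw [pow_add, pow_add, one_div, inv_pow]
  field_simp
  norm_num

/-- The average. -/
noncomputable def av (w : V → V) (x : V) (R : ℝ) : ℝ≥0∞ :=
  (∫⁻ y in ball x R, Y7.Sp.gw w y) / ENNReal.ofReal (R ^ 3)

lemma cst {s : ℝ} (hs : 0 < s) :
    (8 * ENNReal.ofReal s) ^ ((7 / 6 : ℝ) - 1) / ENNReal.ofReal s ^ (7 / 6 : ℝ)
      ≤ ENNReal.ofReal (2 / s) := by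
  have e8 : (8 : ℝ≥0∞) = ENNReal.ofReal 8 := by norm_num
  rw [e8, ← ENNReal.ofReal_mul (by norm_num), ENNReal.ofReal_rpow_of_pos (by positivity),
    ENNReal.ofReal_rpow_of_pos hs, ← ENNReal.ofReal_div_of_pos (by positivity)]
  apply ENNReal.ofReal_le_ofReal
  rw [div_le_div_iff₀ (by positivity) hs]
  have h1 : (8 * s) ^ ((7 / 6 : ℝ) - 1) = 8 ^ (1 / 6 : ℝ) * s ^ (1 / 6 : ℝ) := by
    rw [Real.mul_rpow (by norm_num) hs.le]
    norm_num
  have h2 : s ^ (7 / 6 : ℝ) = s ^ (1 / 6 : ℝ) * s := by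
    have : (7 / 6 : ℝ) = 1 / 6 + 1 := by norm_num
    rw [this, Real.rpow_add hs, Real.rpow_one]
  have h3 : (8 : ℝ) ^ (1 / 6 : ℝ) ≤ 2 := by
    have h4 : (8 : ℝ) ^ (1 / 6 : ℝ) ≤ 64 ^ (1 / 6 : ℝ) :=
      Real.rpow_le_rpow (by norm_num) (by norm_num) (by norm_num)
    have h5 : (64 : ℝ) ^ (1 / 6 : ℝ) = 2 := by
      have : (64 : ℝ) = 2 ^ (6 : ℝ) := by norm_num
      rw [this, ← Real.rpow_mul (by norm_num)]
      norm_num
    linarith
  rw [h1, h2]
  have h6 : 0 < s ^ (1 / 6 : ℝ) := by positivity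
  nlinarith [mul_pos h6 hs]

lemma av_le {w : V → V} (hw : ContDiff ℝ ∞ w) (x : V) {R : ℝ} (hR : 0 < R) :
    av w x R ^ (7 / 6 : ℝ)
      ≤ ENNReal.ofReal (2 / R ^ 3) * ∫⁻ y in ball x R, ENNReal.ofReal (gsq w y) := by
  have h1 := Y7.Poi.jensen (p := 7 / 6) (by norm_num) (μ := volume.restrict (ball x R))
    (Y7.gw_meas hw).aemeasurable
  simp only [Y7.gw_pow] at h1
  rw [Measure.restrict_apply_univ, Y7.Hl.vol_ball x hR] at h1
  unfold av
  rw [ENNReal.div_rpow_of_nonneg _ _ (by norm_num)]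
  refine (ENNReal.div_le_div_right h1 _).trans ?_
  rw [div_eq_mul_inv, mul_right_comm, ← div_eq_mul_inv]
  exact mul_le_mul_left (cst (by positivity)) _

/-- The decomposition of the maximal function. -/
lemma Fx_le (w : V → V) (x : V) (i : ℕ) : Y7.Fx 16 w x ≤ Y7.Fx (rr i) w x
    + ∑ m ∈ Finset.range (i + 4), av w x (Y7.Hl.Rr 16 m) ^ (7 / 6 : ℝ) := by
  obtain ⟨b, hb⟩ : ∃ b, b = Y7.Fx (rr i) w x
    + ∑ m ∈ Finset.range (i + 4), av w x (Y7.Hl.Rr 16 m) ^ (7 / 6 : ℝ) := ⟨_, rfl⟩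
  rw [← hb]
  have h76 : ∀ a : ℝ≥0∞, (a ^ (7 / 6 : ℝ)) ^ (6 / 7 : ℝ) = a := by
    intro a
    rw [← ENNReal.rpow_mul]
    norm_num
  have h67 : ∀ a : ℝ≥0∞, (a ^ (6 / 7 : ℝ)) ^ (7 / 6 : ℝ) = a := by
    intro a
    rw [← ENNReal.rpow_mul]
    norm_num
  have h : Y7.Hl.Mx 16 (Y7.Sp.gw w) x ≤ b ^ (6 / 7 : ℝ) := by
    unfold Y7.Hl.Mx
    refine iSup_le fun m => ?_
    rcases lt_or_ge m (i + 4) with hm | hm
    · have h1 : av w x (Y7.Hl.Rr 16 m) ^ (7 / 6 : ℝ) ≤ b := by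
        rw [hb]
        refine le_trans ?_ le_add_self
        exact Finset.single_le_sum (f := fun m => av w x (Y7.Hl.Rr 16 m) ^ (7 / 6 : ℝ))
          (fun _ _ => zero_le) (Finset.mem_range.2 hm)
      have h2 := ENNReal.rpow_le_rpow h1 (show (0 : ℝ) ≤ 6 / 7 by norm_num)
      rw [h76] at h2
      exact h2
    · obtain ⟨n, rfl⟩ := Nat.exists_eq_add_of_le' hm
      rw [Rr_shift]
      have h1 : (∫⁻ y in ball x (Y7.Hl.Rr (rr i) n), Y7.Sp.gw w y)
          / ENNReal.ofReal (Y7.Hl.Rr (rr i) n ^ 3) ≤ Y7.Hl.Mx (rr i) (Y7.Sp.gw w) x :=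
        le_iSup (fun m : ℕ => (∫⁻ y in ball x (Y7.Hl.Rr (rr i) m), Y7.Sp.gw w y)
          / ENNReal.ofReal (Y7.Hl.Rr (rr i) m ^ 3)) n
      refine h1.trans ?_
      have h2 : Y7.Fx (rr i) w x ≤ b := by
        rw [hb]
        exact le_self_add
      have h3 := ENNReal.rpow_le_rpow h2 (show (0 : ℝ) ≤ 6 / 7 by norm_num)
      unfold Y7.Fx at h3
      rw [h76] at h3
      exact h3
  have h4 := ENNReal.rpow_le_rpow h (show (0 : ℝ) ≤ 7 / 6 by norm_num)
  rw [h67] at h4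
  exact h4

lemma rr_mul {i j : ℕ} (h : j ≤ i) : rr i = (1 / 2) ^ (i - j) * rr j := by
  unfold rr
  rw [← pow_add]
  congr 1
  omega

lemma rr3 {i j : ℕ} (h : j ≤ i) : rr i ^ 3 / rr j ^ 3 = (1 / 8) ^ (i - j) := by
  have hj := rr0 j
  rw [rr_mul h, mul_pow, mul_div_assoc, div_self (by positivity), mul_one, ← pow_mul, mul_comm,
    pow_mul]
  norm_num

/-- The estimate at a fixed time. -/
lemma slice : ∃ C : ℝ, 0 < C ∧ ∀ w : V → V, SPV w → ∀ (z : V) (i : ℕ),
    ∫⁻ x in ball z (rr i), Y7.Fx 16 w x ≤ ENNReal.ofReal C *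
      ((∑ j ∈ Finset.range i, ENNReal.ofReal ((1 / 8) ^ (i - j)) *
        ∫⁻ x in ball z (rr j), ENNReal.ofReal (gsq w x))
        + ENNReal.ofReal ((1 / 8) ^ i) * ENNReal.ofReal (enstrophy w)) := by
  obtain ⟨A, hA, hFx⟩ := Y7.D.FxLoc
  obtain ⟨C, hC, hb⟩ := ball_le 16
  refine ⟨128 + 8 * A + (80 + A) * C, by positivity, fun w hw z i => ?_⟩
  obtain ⟨I, hI⟩ : ∃ I : ℕ → ℝ≥0∞, I = fun j => ∫⁻ x in ball z (rr j), ENNReal.ofReal (gsq w x) :=
    ⟨_, rfl⟩
  obtain ⟨Q, hQ⟩ : ∃ Q : ℝ≥0∞, Q = ENNReal.ofReal (C * enstrophy w) := ⟨_, rfl⟩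
  have hgc : Continuous (gsq w) := (gsq_sm hw.1).continuous
  have hball : ∀ (x : V) (R : ℝ), R ≤ 16 → ∫⁻ y in ball x R, ENNReal.ofReal (gsq w y) ≤ Q := by
    intro x R hR
    refine (lintegral_mono_set (ball_subset_ball hR)).trans ?_
    rw [← ofReal_integral_eq_lintegral_ofReal (ballint hgc _ _)
      (Filter.Eventually.of_forall fun x => gsq_nn _ _), hQ]
    apply ENNReal.ofReal_le_ofReal
    have h5 := hb _ hgc (gsq_per hw.2) (gsq_nn w) x
    rw [← enst_eq hw.1] at h5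
    exact h5
  -- the averages over the large balls
  have hlarge : ∀ (x : V) (m : ℕ), m ≤ 4 → av w x (Y7.Hl.Rr 16 m) ^ (7 / 6 : ℝ) ≤ 2 * Q := by
    intro x m hm
    have hR := Y7.Hl.Rr_pos (R₀ := 16) (by norm_num) m
    have hR1 : 1 ≤ Y7.Hl.Rr 16 m := by
      unfold Y7.Hl.Rr
      rw [le_div_iff₀ (by positivity)]
      have : (2 : ℝ) ^ m ≤ 2 ^ 4 := pow_le_pow_right₀ (by norm_num) hm
      linarith
    refine (av_le hw.1 x hR).trans (mul_le_mul' ?_ (hball x _ (Y7.Hl.Rr_le (by norm_num) m)))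
    have h2 : (2 : ℝ≥0∞) = ENNReal.ofReal 2 := by norm_num
    rw [h2]
    apply ENNReal.ofReal_le_ofReal
    apply div_le_self (by norm_num)
    exact one_le_pow₀ hR1
  -- the averages over the balls of middle size
  have hmid : ∀ x ∈ ball z (rr i), ∀ j, j + 1 < i → av w x (Y7.Hl.Rr 16 (j + 5)) ^ (7 / 6 : ℝ)
      ≤ ENNReal.ofReal (16 / rr j ^ 3) * I j := by
    intro x hx j hj
    have e : Y7.Hl.Rr 16 (j + 5) = rr (j + 1) := Rr16 (j + 1)
    rw [e]
    refine (av_le hw.1 x (rr0 _)).trans (mul_le_mul' ?_ ?_)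
    · apply ENNReal.ofReal_le_ofReal
      rw [rrS]
      have := rr0 j
      apply le_of_eq
      field_simp
      norm_num
    · rw [hI]
      refine lintegral_mono_set (ball_subset_ball' ?_)
      rw [mem_ball] at hx
      have h1 : rr i ≤ rr (j + 1) := rr_anti hj.le
      have h2 := rrS j
      linarith
  obtain ⟨S, hS⟩ : ∃ S : ℝ≥0∞, S = ∑ j ∈ Finset.range i, ENNReal.ofReal (16 / rr j ^ 3) * I j :=
    ⟨_, rfl⟩
  have hpt : ∀ x ∈ ball z (rr i), Y7.Fx 16 w x ≤ Y7.Fx (rr i) w x + (10 * Q + S) := by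
    intro x hx
    refine (Fx_le w x i).trans (add_le_add_right ?_ _)
    rw [add_comm i 4, Finset.sum_range_add]
    have h1 : ∑ m ∈ Finset.range 4, av w x (Y7.Hl.Rr 16 m) ^ (7 / 6 : ℝ) ≤ 8 * Q := by
      calc ∑ m ∈ Finset.range 4, av w x (Y7.Hl.Rr 16 m) ^ (7 / 6 : ℝ)
          ≤ ∑ m ∈ Finset.range 4, 2 * Q :=
            Finset.sum_le_sum fun m hm => hlarge x m (Finset.mem_range.1 hm).le
        _ = 8 * Q := by
            rw [Finset.sum_const, Finset.card_range, nsmul_eq_mul]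
            push_cast
            ring
    have h2 : ∑ j ∈ Finset.range i, av w x (Y7.Hl.Rr 16 (4 + j)) ^ (7 / 6 : ℝ) ≤ 2 * Q + S := by
      rcases Nat.eq_zero_or_pos i with h0 | h0
      · rw [h0, Finset.sum_range_zero]
        exact zero_le
      · obtain ⟨n, rfl⟩ := Nat.exists_eq_add_of_le' h0
        rw [Finset.sum_range_succ', add_comm]
        refine add_le_add ?_ ?_
        · exact hlarge x 4 le_rfl
        · rw [hS]
          refine le_trans ?_ (Finset.sum_le_sum_of_subset (Finset.range_mono (Nat.le_succ n)))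
          refine Finset.sum_le_sum fun j hj => ?_
          rw [Finset.mem_range] at hj
          have := hmid x hx j (by omega)
          have e : 4 + (j + 1) = j + 5 := by ring
          rw [e]
          exact this
    calc _ ≤ 8 * Q + (2 * Q + S) := add_le_add h1 h2
      _ = 10 * Q + S := by ring
  -- the integral
  have h1 : ∫⁻ x in ball z (rr i), Y7.Fx 16 w x
      ≤ (∫⁻ x in ball z (rr i), Y7.Fx (rr i) w x)
        + 8 * ENNReal.ofReal (rr i ^ 3) * (10 * Q + S) := by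
    calc ∫⁻ x in ball z (rr i), Y7.Fx 16 w x
        ≤ ∫⁻ x in ball z (rr i), (Y7.Fx (rr i) w x + (10 * Q + S)) :=
          setLIntegral_mono' measurableSet_ball hpt
      _ = _ := by
          rw [lintegral_add_right _ measurable_const, setLIntegral_const,
            Y7.Hl.vol_ball z (rr0 i)]
          ring
  obtain ⟨M, hM⟩ := Y7.per_grad hw.1 hw.2
  have h2 := hFx (rr i) (rr0 i) (ball z (2 * rr i)) (ball z (rr i)) measurableSet_ball
    measurableSet_ball (fun x hx => ball_subset_ball' (by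
      rw [mem_ball] at hx
      linarith)) w hw.1 M hM
  obtain ⟨R, hR⟩ : ∃ R : ℝ≥0∞, R = ∑ j ∈ Finset.range i, ENNReal.ofReal ((1 / 8) ^ (i - j)) * I j :=
    ⟨_, rfl⟩
  obtain ⟨U, hU⟩ : ∃ U : ℝ≥0∞, U = ENNReal.ofReal ((1 / 8) ^ i) * ENNReal.ofReal (enstrophy w) :=
    ⟨_, rfl⟩
  have hQU : ENNReal.ofReal ((1 / 8) ^ i) * Q = ENNReal.ofReal C * U := by
    rw [hQ, hU, ENNReal.ofReal_mul hC.le]
    ring
  have h3 : ENNReal.ofReal A * ∫⁻ x in ball z (2 * rr i), ENNReal.ofReal (gsq w x)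
      ≤ ENNReal.ofReal (8 * A) * R + ENNReal.ofReal (A * C) * U := by
    rcases Nat.eq_zero_or_pos i with h0 | h0
    · have h4 := hball z (2 * rr i) (by have := rr1 i; linarith)
      refine (mul_le_mul_right h4 _).trans (le_trans ?_ le_add_self)
      have h5 := hQU
      rw [h0, pow_zero, ENNReal.ofReal_one, one_mul] at h5
      rw [h5, ENNReal.ofReal_mul hA.le, mul_assoc]
    · obtain ⟨n, rfl⟩ := Nat.exists_eq_add_of_le' h0
      refine le_trans ?_ le_self_add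
      have e : 2 * rr (n + 1) = rr n := by rw [rrS]; ring
      rw [e]
      have h4 : ENNReal.ofReal (1 / 8) * I n ≤ R := by
        rw [hR]
        have := Finset.single_le_sum (f := fun j => ENNReal.ofReal ((1 / 8) ^ (n + 1 - j)) * I j)
          (s := Finset.range (n + 1)) (fun _ _ => zero_le) (Finset.self_mem_range_succ n)
        simpa using this
      have h5 : ENNReal.ofReal A * I n = ENNReal.ofReal (8 * A) * (ENNReal.ofReal (1 / 8) * I n) := by
        rw [← mul_assoc, ← ENNReal.ofReal_mul (by positivity)]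
        congr 2
        ring
      have h6 : ENNReal.ofReal A * ∫⁻ x in ball z (rr n), ENNReal.ofReal (gsq w x)
          = ENNReal.ofReal A * I n := by rw [hI]
      rw [h6, h5]
      exact mul_le_mul_right h4 _
  have h8 : 8 * ENNReal.ofReal (rr i ^ 3) * (10 * Q + S)
      = ENNReal.ofReal (80 * C) * U + ENNReal.ofReal 128 * R := by
    have e8 : (8 : ℝ≥0∞) = ENNReal.ofReal 8 := by norm_num
    have e10 : (10 : ℝ≥0∞) = ENNReal.ofReal 10 := by norm_num
    have hri : rr i ^ 3 = (1 / 8) ^ i := by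
      unfold rr
      rw [← pow_mul, mul_comm, pow_mul]
      norm_num
    rw [mul_add]
    congr 1
    · have : 8 * ENNReal.ofReal (rr i ^ 3) * (10 * Q)
          = (8 * 10) * (ENNReal.ofReal (rr i ^ 3) * Q) := by ring
      rw [this, hri, hQU, e8, e10, ← ENNReal.ofReal_mul (by norm_num), ← mul_assoc,
        ← ENNReal.ofReal_mul (by norm_num)]
      norm_num
    · rw [hS, hR, Finset.mul_sum, Finset.mul_sum]
      refine Finset.sum_congr rfl fun j hj => ?_
      rw [Finset.mem_range] at hj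
      have hj0 := rr0 j
      have hi0 := rr0 i
      rw [e8, ← mul_assoc, ← mul_assoc, ← ENNReal.ofReal_mul (by norm_num),
        ← ENNReal.ofReal_mul (by positivity), ← ENNReal.ofReal_mul (by norm_num),
        ← rr3 hj.le]
      congr 2
      ring
  have h9 : ∫⁻ x in ball z (rr i), Y7.Fx 16 w x
      ≤ (ENNReal.ofReal (8 * A) * R + ENNReal.ofReal (A * C) * U)
        + (ENNReal.ofReal (80 * C) * U + ENNReal.ofReal 128 * R) := by
    refine h1.trans (add_le_add (h2.trans h3) h8.le)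
  have e1 : (∑ j ∈ Finset.range i, ENNReal.ofReal ((1 / 8) ^ (i - j)) *
        ∫⁻ x in ball z (rr j), ENNReal.ofReal (gsq w x)) = R := by
    rw [hR, hI]
  rw [e1, ← hU]
  refine h9.trans ?_
  have e2 : (ENNReal.ofReal (8 * A) * R + ENNReal.ofReal (A * C) * U)
        + (ENNReal.ofReal (80 * C) * U + ENNReal.ofReal 128 * R)
      = ENNReal.ofReal (128 + 8 * A) * R + ENNReal.ofReal ((80 + A) * C) * U := by
    have e3 : (80 + A) * C = A * C + 80 * C := by ring
    rw [e3, ENNReal.ofReal_add (by norm_num) (by positivity),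
      ENNReal.ofReal_add (by positivity) (by positivity)]
    ring
  rw [e2, mul_add]
  refine add_le_add (mul_le_mul_left (ENNReal.ofReal_le_ofReal ?_) _)
    (mul_le_mul_left (ENNReal.ofReal_le_ofReal ?_) _)
  · have : 0 ≤ (80 + A) * C := by positivity
    linarith
  · linarith

section

variable {T E D : ℝ} {G : Set ℝ} {u : ℝ → V → V} {p : ℝ → V → ℝ}

lemma gG_meas (hN : Turb 1 T E D G u p) : Measurable (gG G u) := by
  have hgs : ContinuousOn (fun z : ℝ × V => gsq (u z.1) z.2) (G ×ˢ univ) :=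
    (gsq_joint hN.openG hN.smooth_u).continuousOn
  have hS : MeasurableSet (G ×ˢ (univ : Set V)) := hN.openG.measurableSet.prod MeasurableSet.univ
  exact W919.MH.MARK3.measurable_indicator hS hgs

lemma lint_Cy {F : ℝ × V → ℝ≥0∞} (hF : Measurable F) (i : ℕ) (z : ℝ × V) :
    ∫⁻ q in Cy i z, F q = ∫⁻ τ in Wi z.1 i, ∫⁻ y in ball z.2 (rr i), F (τ, y) := by
  unfold Cy
  rw [Measure.volume_eq_prod, ← Measure.prod_restrict, lintegral_prod _ hF.aemeasurable]

lemma Wi_mono (t : ℝ) {j i : ℕ} (h : j ≤ i) : Wi t i ⊆ Wi t j := by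
  have h1 := rr0 i
  have h2 : rr i ^ 2 ≤ rr j ^ 2 := pow_le_pow_left₀ (rr0 _).le (rr_anti h) 2
  exact Ioo_subset_Ioo (by linarith) (by linarith)

lemma enst_lint (hN : Turb 1 T E D G u p) :
    ∫⁻ τ in G, ENNReal.ofReal (enstrophy (u τ)) ≤ ENNReal.ofReal D := by
  rw [← ofReal_integral_eq_lintegral_ofReal hN.enst_int
    (Filter.Eventually.of_forall fun τ => enst_nn _)]
  exact ENNReal.ofReal_le_ofReal hN.enst_le

end

end D1

open D1 in
theorem t_D1 : S_D1 := by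
  obtain ⟨C, hC, hs⟩ := slice
  refine ⟨C, hC, fun T E D G u p hN z i => ?_⟩
  have hFm := Y7.FtG_meas 16 hN
  have hgm := gG_meas hN
  have h0 : ∀ τ ∉ G, ∀ y, Y7.FtG 16 G u (τ, y) = 0 := by
    intro τ hτ y
    unfold Y7.FtG Y7.Hl.Mx
    have e : ∀ z : V, (G ×ˢ (univ : Set V)).indicator
        (fun z : ℝ × V => Y7.Sp.gw (u z.1) z.2) (τ, z) = 0 := by
      intro z
      exact indicator_of_notMem (fun h => hτ h.1) _
    simp only [e]
    simp
  obtain ⟨en, hen⟩ : ∃ en : ℝ → ℝ≥0∞, en = G.indicator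
    (fun τ => ENNReal.ofReal (enstrophy (u τ))) := ⟨_, rfl⟩
  have h1 : ∀ τ, ∫⁻ y in ball z.2 (rr i), Y7.FtG 16 G u (τ, y) ≤ ENNReal.ofReal C *
      ((∑ j ∈ Finset.range i, ENNReal.ofReal ((1 / 8) ^ (i - j)) *
        ∫⁻ y in ball z.2 (rr j), gG G u (τ, y))
        + ENNReal.ofReal ((1 / 8) ^ i) * en τ) := by
    intro τ
    by_cases hτ : τ ∈ G
    · have h3 : ∫⁻ y in ball z.2 (rr i), Y7.FtG 16 G u (τ, y)
          = ∫⁻ y in ball z.2 (rr i), Y7.Fx 16 (u τ) y :=
        lintegral_congr fun y => Y7.FtG_eq 16 u hτ y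
      have h4 : ∀ y, gG G u (τ, y) = ENNReal.ofReal (gsq (u τ) y) := by
        intro y
        unfold gG
        exact indicator_of_mem (show (τ, y) ∈ G ×ˢ (univ : Set V) from ⟨hτ, mem_univ _⟩) _
      rw [h3, hen, indicator_of_mem hτ]
      simp only [h4]
      exact hs (u τ) (hN.spv hτ) z.2 i
    · simp only [h0 τ hτ, lintegral_zero]
      exact zero_le
  have hgi : ∀ j, Measurable fun τ => ∫⁻ y in ball z.2 (rr j), gG G u (τ, y) :=
    fun j => hgm.lintegral_prod_right'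
  rw [lint_Cy hFm]
  refine (lintegral_mono h1).trans ?_
  rw [lintegral_const_mul' _ _ ENNReal.ofReal_ne_top]
  refine mul_le_mul_right ?_ _
  rw [lintegral_add_left (Finset.measurable_fun_sum _ fun j _ => (hgi j).const_mul _),
    lintegral_finsetSum _ fun j _ => (hgi j).const_mul _]
  refine add_le_add ?_ ?_
  · refine Finset.sum_le_sum fun j hj => ?_
    rw [lintegral_const_mul _ (hgi j), lint_Cy hgm]
    exact mul_le_mul_right (lintegral_mono_set (Wi_mono _ (Finset.mem_range.1 hj).le)) _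
  · rw [lintegral_const_mul' _ _ ENNReal.ofReal_ne_top, ENNReal.ofReal_mul (by positivity)]
    refine mul_le_mul_right ?_ _
    refine (setLIntegral_le_lintegral _ _).trans ?_
    rw [hen, lintegral_indicator hN.openG.measurableSet]
    exact enst_lint hN

end Pool.Agent.N976.TL
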