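import Pool.Agent.N976.TL.A1
import Pool.Agent.N976.TL.A1a
import Pool.Agent.N976.TL.A2a
import Pool.Agent.N976.TL.A2
import Pool.Agent.N976.TL.A3
import Pool.Agent.N976.TL.A4
import Pool.Agent.N976.TL.A5
import Pool.Agent.N976.TL.A6
import Pool.Agent.N976.TL.A78
import Pool.Agent.N976.TL.A9
import Pool.Agent.N976.TL.B1
import Pool.Agent.N976.TL.B2
import Pool.Agent.N976.TL.B3
import Pool.Agent.N976.TL.B4
import Pool.Agent.N976.TL.B5
import Pool.Agent.N976.TL.BM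
import Pool.Agent.N976.TL.C1
import Pool.Agent.N976.TL.C2
import Pool.Agent.N976.TL.D1
import Pool.Agent.N976.TL.D2
import Pool.Agent.N976.TL.Fin2

/-!
Assembly of the project TL (helper976).
-/

set_option autoImplicit false

namespace Pool.Agent.N976.TL

theorem p_A1 : S_A1 := t_A1 t_A1a
theorem p_A2 : S_A2 := t_A2 (t_A2a p_A1)
theorem p_A4 : S_A4 := t_A4 p_A2 t_A3
theorem p_A6 : S_A6 := t_A6 p_A2
theorem p_A9 : S_A9 := t_A9 p_A4 t_A5 p_A6 t_A7 t_A8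
theorem p_B2 : S_B2 := t_B2 t_B1
theorem p_B4 : S_B4 := t_B4 t_B3
theorem p_BM : S_BM := t_BM p_B2 p_B4 t_B5
theorem p_C2 : S_C2 := t_C2 p_A9 p_BM t_C0 t_C1
theorem p_D2 : S_D2 := t_D2 p_A9 p_BM t_D1

end Pool.Agent.N976.TL
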