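import Pool.Agent.N976.TL.Stm

/-!
TL/A1: from slices to weak solutions in the frame.
-/

set_option autoImplicit false

open MeasureTheory Set Metric
open scoped ContDiff ENNReal Topology

namespace Pool.Agent.N976.TL

open H459R3.NS W221.NS Pool.Agent.Y7 Pool.Agent.Y8 Pool.Agent.W327.ME
open Pool.Agent.Y458.NS.HY (sliceH sliceH1 dtH_smooth A2_diff)
open Pool.Agent.Y8.W4

theorem t_A1 : S_A1a → S_A1 := by
  intro hA
  obtain ⟨g, Cg, hCg, hg⟩ := Pool.Agent.Y8.B.p_green
  obtain ⟨CD, hCD, hdec⟩ := Pool.Agent.Y8.B.p_dec g Cg hg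
  obtain ⟨CT, hCT, hdect⟩ := Dect.dect Pool.Agent.Y8.B.p_td Pool.Agent.Y8.B.p_harm hg
  obtain ⟨C1, hC1, hbase⟩ := hA
  set C' : ℝ := 2 + 257 * CD ^ 2 + 257 * CT ^ 2 + CT with hC'
  have e1 : 0 < 257 * CD ^ 2 := by positivity
  have e3 : 0 < 257 * CT ^ 2 := by positivity
  have hC'pos : 0 < C' := by rw [hC']; linarith
  have hC'1 : 1 ≤ C' := by rw [hC']; linarith
  refine ⟨C1 * C' ^ 2 + CD, by positivity, ?_⟩
  intro H v q k hL h ε hh hh1 hε hint hle
  obtain ⟨hWs, hWt⟩ := Pool.Agent.Y8.B.p_tsmh g Cg hg H v hL.openH hL.smooth_v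
  obtain ⟨F, hF, hFe⟩ := Pool.Agent.Y8.B.p_fld g Cg hg H v q k hL
  have hen : EnW H (fun t => TT g (v t)) :=
    Pool.Agent.Y8.B.p_wen H v (fun t => TT g (v t)) F q k hL hF hWs hFe
  have hsub : ∀ t ∈ H, t ∈ Icc (-1 : ℝ) 0 := fun t ht =>
    ⟨(hL.subH ht).1.le, (hL.subH ht).2.le⟩
  have hsl : ∀ t ∈ H, ∃ P, Sl (v t) (TT g (v t))
      (fun x i => deriv (fun s => TT g (v s) x i) t) P (C' * √(L4 0 4 (v t))) := by
    intro t ht
    have hv : ContDiff ℝ ∞ (v t) := sliceH hL.smooth_v ht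
    have hq : ContDiff ℝ ∞ (q t) := sliceH1 hL.smooth_q ht
    have hN : ContDiff ℝ ∞ (fun x i => deriv (fun s => v s x i) t) :=
      dtH_smooth hL.openH hL.smooth_v ht
    set B := √(L4 0 4 (v t)) with hB
    have hB0 : 0 ≤ B := Real.sqrt_nonneg _
    have hs0 : 0 ≤ √B := Real.sqrt_nonneg B
    have hL40 : 0 ≤ L4 0 4 (v t) := integral_nonneg fun z => by positivity
    have hBB : L4 0 4 (v t) = B ^ 2 := (Real.sq_sqrt hL40).symm
    have hA2 : A2 0 4 (v t) ≤ 257 * B := A2_le hv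
    have hA20 : 0 ≤ A2 0 4 (v t) := integral_nonneg fun z => nsq_nonneg _ z
    obtain ⟨hW1, hW2, hW3, hW4⟩ := hdec (v t) hv (fun x _ => hL.divfree t ht x)
    obtain ⟨P, hP1, hP2, hP3, hP4⟩ := hdect (v t) (fun x i => deriv (fun s => v s x i) t) (q t)
      hv hN hq (fun x _ => hL.divfree t ht x) (fun x _ i => hL.momentum t ht x i)
    have hb12 : ball (0 : V) 1 ⊆ ball 0 2 := ball_subset_ball (by norm_num)
    have hgen : ∀ D : ℝ, 0 < D → 257 * D ^ 2 ≤ C' → D * √(A2 0 4 (v t)) ≤ √(C' * B) := by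
      intro D hD hle
      have : D * √(A2 0 4 (v t)) = √(D ^ 2 * A2 0 4 (v t)) := by
        rw [Real.sqrt_mul (by positivity), Real.sqrt_sq hD.le]
      rw [this]
      apply Real.sqrt_le_sqrt
      calc D ^ 2 * A2 0 4 (v t) ≤ D ^ 2 * (257 * B) :=
            mul_le_mul_of_nonneg_left hA2 (by positivity)
        _ = (257 * D ^ 2) * B := by ring
        _ ≤ C' * B := mul_le_mul_of_nonneg_right hle hB0
    have hsq := hgen CD hCD (by rw [hC']; linarith)
    have hsq2 := hgen CT hCT (by rw [hC']; linarith)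
    refine ⟨P, ?_⟩
    refine
      { sv := hv
        sW := hW1
        sN := (dtH_smooth hL.openH hWs ht).continuous
        sP := hP1
        divv := fun x _ => hL.divfree t ht x
        divW := fun x _ => hW2 x
        pos := by positivity
        l4 := ?_
        dD := fun z hz i => ((hW4 z hz i).1).trans hsq
        gD := fun z hz i j => ((hW4 z hz i).2 j).trans hsq
        lapD := fun z hz i => hW3 z (hb12 hz) i
        eqP := hP2
        nP := ?_
        evo := ?_ }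
    · calc B = 1 * B := by rw [one_mul]
        _ ≤ C' * B := mul_le_mul_of_nonneg_right (by rw [hC']; linarith) hB0
    · refine hP3.trans ?_
      rw [hBB, mul_pow]
      apply mul_le_mul_of_nonneg_right _ (by positivity)
      have h5 : 1 ≤ C' := by rw [hC']; linarith
      have h6 : CT ≤ C' := by rw [hC']; linarith
      nlinarith
    · intro x hx i
      have h5 := hP4 x hx i
      have h6 : deriv (fun s => TT g (v s) x i) t =
          TT g (fun y i => deriv (fun s => v s y i) t) x i := hWt t ht x i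
      show |deriv (fun s => TT g (v s) x i) t + adv (v t) (fun y => v t y i) x -
        lap (fun y => v t y i) x + pd i P x| ≤ √(C' * B) + C' * B
      rw [h6]
      refine h5.trans ?_
      have h9 : CT * B ≤ C' * B := by
        apply mul_le_mul_of_nonneg_right _ hB0
        rw [hC']
        linarith
      calc CT * (√(A2 0 4 (v t)) + √(L4 0 4 (v t))) = CT * √(A2 0 4 (v t)) + CT * B := by
            rw [mul_add]
        _ ≤ √(C' * B) + C' * B := add_le_add hsq2 h9
  have hbd : ∃ B : ℝ, ∀ t ∈ H, A2 0 1 (TT g (v t)) ≤ B := by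
    obtain ⟨B0, hB0⟩ := hL.bdd
    obtain ⟨M, hM⟩ := hF.bd
    refine ⟨2 * B0 + 48 * M ^ 2, ?_⟩
    intro t ht
    have h7 : A2 0 1 (TT g (v t)) ≤ 2 * A2 0 8 (v t) + 48 * M ^ 2 := by
      apply A2_diff (sliceH hL.smooth_v ht).continuous (sliceH hWs ht).continuous
      intro x hx i
      rw [← hFe t ht x hx i]
      exact (norm_le_pi_norm (F t x) i).trans (hM t (hsub t ht) x)
    have h8 := hB0 t ht
    linarith
  have hle' : ∫ t in Ioo (-h) 0, C' * √(L4 0 4 (v t)) ≤ C' * ε := by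
    rw [integral_const_mul]
    exact mul_le_mul_of_nonneg_left hle hC'pos.le
  obtain ⟨⟨h1, h2⟩, h3⟩ := hbase h (C' * ε) hh hh1 (by positivity) H v (fun t => TT g (v t))
    (fun t => C' * √(L4 0 4 (v t))) hL.openH hL.subH hL.fullH hL.smooth_v hWs hsl
    (hint.const_mul C') hle' hbd hen
  have e5 : 0 < ε / h := by positivity
  have e6 : 0 < ε ^ 2 := by positivity
  have hfin : C1 * (C' * ε / h + (C' * ε) ^ 2) ≤ (C1 * C' ^ 2 + CD) * (ε / h + ε ^ 2) := by
    have e7 : C' * ε / h + (C' * ε) ^ 2 ≤ C' ^ 2 * (ε / h + ε ^ 2) := by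
      have e8 : C' * ε / h = C' * (ε / h) := by ring
      have e9 : C' * (ε / h) ≤ C' ^ 2 * (ε / h) := by
        apply mul_le_mul_of_nonneg_right _ e5.le
        nlinarith
      rw [e8]
      nlinarith
    calc C1 * (C' * ε / h + (C' * ε) ^ 2) ≤ C1 * (C' ^ 2 * (ε / h + ε ^ 2)) :=
          mul_le_mul_of_nonneg_left e7 hC1.le
      _ = (C1 * C' ^ 2) * (ε / h + ε ^ 2) := by ring
      _ ≤ (C1 * C' ^ 2 + CD) * (ε / h + ε ^ 2) := by
          apply mul_le_mul_of_nonneg_right _ (by positivity)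
          linarith
  refine ⟨⟨h1, h2.trans hfin⟩, ?_⟩
  intro t ht ht'
  have hv : ContDiff ℝ ∞ (v t) := sliceH hL.smooth_v ht
  obtain ⟨hW1, hW2, hW3, hW4⟩ := hdec (v t) hv (fun x _ => hL.divfree t ht x)
  have hCDle : CD * √(A2 0 4 (v t)) ≤ (C1 * C' ^ 2 + CD) * √(A2 0 4 (v t)) := by
    apply mul_le_mul_of_nonneg_right _ (Real.sqrt_nonneg _)
    have : 0 < C1 * C' ^ 2 := by positivity
    linarith
  exact ⟨TT g (v t), hW1, (h3 t ht ht').trans hfin, fun z hz i =>
    ⟨((hW4 z hz i).1).trans hCDle, fun j => ((hW4 z hz i).2 j).trans hCDle⟩⟩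

end Pool.Agent.N976.TL

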