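import Pool.Agent.N976.TL.Glue
import Pool.Agent.Y96.NS.Scal

/-!
The final form: general gauges and viscosity (helper976).
-/

set_option autoImplicit false

open MeasureTheory Set Metric
open scoped ContDiff ENNReal

namespace Pool.Agent.N976.TL

open H459R3.NS W221.NS Pool.Agent.Y8 Pool.Agent.N977.H

/-- From the gauge to the sequence. -/
lemma gseq {h : ℝ → ℝ} {r₀ : ℝ} (hr₀ : 0 < r₀) (hpos : ∀ r ∈ Ioc 0 r₀, 0 < h r)
    (hmono : MonotoneOn (fun r => r / h r) (Ioc 0 r₀))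
    (hlim : ∀ η > 0, ∀ ρ > 0, ∃ r ∈ Ioo 0 ρ,
      h r * (1 + Real.log (1 + |Real.log r|)) ^ 6 ≤ η * (r * Real.log r ^ 2))
    (J₀ : ℕ) (hJ : rr J₀ ≤ r₀) :
    ∃ g : ℕ → ℝ, (∀ i, 0 ≤ g i) ∧ Monotone g ∧ (∀ J, J₀ ≤ J → rr J * g J = h (rr J)) ∧
      ∀ η > 0, ∀ n : ℕ, ∃ J ≥ n, g J * (1 + Real.log J) ^ 6 ≤ η * J ^ 2 := by
  have hin : ∀ J, J₀ ≤ J → rr J ∈ Ioc 0 r₀ := fun J h1 => ⟨rr0 J, (rr_anti h1).trans hJ⟩
  refine ⟨fun J => h (rr (max J J₀)) / rr (max J J₀), fun i => ?_, ?_, ?_, ?_⟩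
  · have h1 := hpos _ (hin (max i J₀) (le_max_right _ _))
    have h2 := rr0 (max i J₀)
    positivity
  · intro a b hab
    have h1 : max a J₀ ≤ max b J₀ := max_le_max_right _ hab
    have ha := hin (max a J₀) (le_max_right _ _)
    have hb := hin (max b J₀) (le_max_right _ _)
    have h2 := hmono hb ha (rr_anti h1)
    simp only at h2
    have pa := hpos _ ha
    have pb := hpos _ hb
    have ra := ha.1
    have rb := hb.1
    show h (rr (max a J₀)) / rr (max a J₀) ≤ h (rr (max b J₀)) / rr (max b J₀)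
    rw [div_le_div_iff₀ pb pa] at h2
    rw [div_le_div_iff₀ ra rb]
    linarith
  · intro J h1
    have h2 := rr0 J
    simp only [max_eq_left h1]
    field_simp
  · intro η hη n
    obtain ⟨r, hr, hle⟩ := hlim (η / 256) (by positivity) (rr (max n J₀ + 2)) (rr0 _)
    have hr0 : 0 < r := hr.1
    have hr1 : r ≤ 1 := hr.2.le.trans (rr1 _)
    obtain ⟨J, hJ1, hJ2⟩ := exists_nat_pow_near_of_lt_one hr0 hr1
      (show (0 : ℝ) < 1 / 2 by norm_num) (by norm_num)
    have hJ1' : rr (J + 1) < r := hJ1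
    have hJ2' : r ≤ rr J := hJ2
    have hJm : max n J₀ + 2 ≤ J := by
      by_contra hcon
      have h3 : rr (max n J₀ + 2) ≤ rr (J + 1) := rr_anti (by omega)
      linarith [hr.2]
    have hJn : n ≤ J := (le_max_left n J₀).trans (by omega)
    have hJJ₀ : J₀ ≤ J := (le_max_right n J₀).trans (by omega)
    have hJ2n : 2 ≤ J := by omega
    have hJR : (2 : ℝ) ≤ J := by exact_mod_cast hJ2n
    refine ⟨J, hJn, ?_⟩
    simp only [max_eq_left hJJ₀]
    have hJin := hin J hJJ₀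
    have hrin : r ∈ Ioc 0 r₀ := ⟨hr0, hJ2'.trans hJin.2⟩
    have h2 := hmono hrin hJin hJ2'
    simp only at h2
    have pr := hpos _ hrin
    have pJ := hpos _ hJin
    have rJ := hJin.1
    -- the logarithm
    have hlr : |Real.log r| = -Real.log r := abs_of_nonpos (Real.log_nonpos hr0.le hr1)
    have hlog2 := Real.log_two_gt_d9
    have hlog2' := Real.log_two_lt_d9
    have e1 : Real.log (rr J) = -(J * Real.log 2) := by
      unfold rr
      rw [Real.log_pow, one_div, Real.log_inv]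
      ring
    have e2 : Real.log (rr (J + 1)) = -((J + 1) * Real.log 2) := by
      unfold rr
      rw [Real.log_pow, one_div, Real.log_inv]
      push_cast
      ring
    have h3 := Real.log_le_log hr0 hJ2'
    have h4 := Real.log_le_log (rr0 _) hJ1'.le
    rw [e1] at h3
    rw [e2] at h4
    have h5 : |Real.log r| ≤ 2 * J := by
      rw [hlr]
      nlinarith
    have h6 : (J : ℝ) / 2 ≤ |Real.log r| := by
      rw [hlr]
      nlinarith
    have h7 : Real.log r ^ 2 ≤ 4 * (J : ℝ) ^ 2 := by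
      rw [← sq_abs]
      nlinarith [abs_nonneg (Real.log r)]
    have h8 : 1 + Real.log J ≤ 2 * (1 + Real.log (1 + |Real.log r|)) := by
      have h9 : Real.log (J / 2) ≤ Real.log (1 + |Real.log r|) :=
        Real.log_le_log (by positivity) (by linarith)
      rw [Real.log_div (by positivity) (by norm_num)] at h9
      have h10 : 0 ≤ Real.log (1 + |Real.log r|) :=
        Real.log_nonneg (by linarith [abs_nonneg (Real.log r)])
      linarith
    have h9 : 0 ≤ 1 + Real.log (J : ℝ) := by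
      have := Real.log_nonneg (show (1 : ℝ) ≤ J by linarith)
      linarith
    have h10 : (1 + Real.log (J : ℝ)) ^ 6 ≤ 64 * (1 + Real.log (1 + |Real.log r|)) ^ 6 := by
      have := pow_le_pow_left₀ h9 h8 6
      rw [mul_pow] at this
      norm_num at this
      exact this
    have h11 : h (rr J) / rr J ≤ h r / r := by
      rw [div_le_div_iff₀ pr pJ] at h2
      rw [div_le_div_iff₀ rJ hr0]
      linarith
    have h12 : 0 ≤ h (rr J) / rr J := by positivity
    calc h (rr J) / rr J * (1 + Real.log (J : ℝ)) ^ 6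
        ≤ h r / r * (64 * (1 + Real.log (1 + |Real.log r|)) ^ 6) := by
          apply mul_le_mul h11 h10 (by positivity) (by positivity)
      _ = 64 / r * (h r * (1 + Real.log (1 + |Real.log r|)) ^ 6) := by
          field_simp
      _ ≤ 64 / r * (η / 256 * (r * Real.log r ^ 2)) :=
          mul_le_mul_of_nonneg_left hle (by positivity)
      _ = η / 4 * Real.log r ^ 2 := by
          field_simp
          ring
      _ ≤ η / 4 * (4 * (J : ℝ) ^ 2) := mul_le_mul_of_nonneg_left h7 (by positivity)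
      _ = η * (J : ℝ) ^ 2 := by ring

/-- Small levels. -/
lemma ex_rr {ρ : ℝ} (hρ : 0 < ρ) : ∃ N : ℕ, rr N ≤ ρ := by
  obtain ⟨N, hN⟩ := exists_pow_lt_of_lt_one hρ (show (1 / 2 : ℝ) < 1 by norm_num)
  exact ⟨N, hN.le⟩

/-- The first main theorem. -/
theorem fin1 (hC : S_C2) {ν T E D : ℝ} {G : Set ℝ} {u : ℝ → V → V} {p : ℝ → V → ℝ} (hν : 0 < ν)
    (hN : Turb ν T E D G u p) {h : ℝ → ℝ} {r₀ : ℝ} (hr₀ : 0 < r₀)
    (hpos : ∀ r ∈ Ioc 0 r₀, 0 < h r) (hmono : MonotoneOn (fun r => r / h r) (Ioc 0 r₀))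
    (hlim : ∀ η > 0, ∀ ρ > 0, ∃ r ∈ Ioo 0 ρ,
      h r * (1 + Real.log (1 + |Real.log r|)) ^ 6 ≤ η * (r * Real.log r ^ 2))
    {ε : ℝ} (hε : 0 < ε) :
    ∃ (ι : Type) (_ : Countable ι) (s : ι → ℝ) (y : ι → V) (r : ι → ℝ),
      (∀ i, 0 < r i ∧ r i ≤ r₀ ∧ r i ≤ ε) ∧
      ∑' i, ENNReal.ofReal (h (r i)) ≤ ENNReal.ofReal ε ∧
      ∀ t ∈ Ioo 0 T, ∀ x : V, SingPt G u t x →
        ∃ i, ν * |t - s i| < r i ^ 2 ∧ ‖x - y i‖ < r i := by
  obtain ⟨J₀, hJ₀⟩ := ex_rr (lt_min hr₀ hε)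
  obtain ⟨g, hg0, hgm, hgh, hgl⟩ := gseq hr₀ hpos hmono hlim J₀ (hJ₀.trans (min_le_left _ _))
  obtain ⟨h1, h2⟩ := Pool.Agent.Y96.NS.t_WSCAL ν T E D G u p hν hN
  obtain ⟨ι, hι, s, y, l, hl, hs, hc⟩ := cov1 hC h1 hg0 hgm hgl J₀ hε
  refine ⟨ι, hι, fun i => s i / ν, y, fun i => rr (l i), fun i => ⟨rr0 _, ?_, ?_⟩, ?_, ?_⟩
  · exact (rr_anti (hl i)).trans (hJ₀.trans (min_le_left _ _))
  · exact (rr_anti (hl i)).trans (hJ₀.trans (min_le_right _ _))
  · refine le_trans (le_of_eq ?_) hs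
    exact tsum_congr fun i => by rw [hgh (l i) (hl i)]
  · intro t ht x hx
    obtain ⟨i, hi1, hi2⟩ := hc (ν * t) ⟨mul_pos hν ht.1, mul_lt_mul_of_pos_left ht.2 hν⟩ x
      (h2 t x hx)
    refine ⟨i, ?_, hi2⟩
    have e : ν * |t - s i / ν| = |ν * t - s i| := by
      rw [← abs_of_pos hν, ← abs_mul, abs_of_pos hν]
      congr 1
      field_simp
    rw [e]
    exact hi1

end Pool.Agent.N976.TL
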