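import Pool.Agent.N976.TL.Asm

/-!
The two main theorems without hypotheses (helper976).
-/

set_option autoImplicit false

open MeasureTheory Set Metric
open scoped ContDiff ENNReal

namespace Pool.Agent.N976.TL

open H459R3.NS W221.NS Pool.Agent.Y8 Pool.Agent.N977.H

/-- Smaller weights. -/
lemma CovG.mono {g g' : ℕ → ℝ} {K : Set (ℝ × V)} (h : CovG g K) (hg : ∀ i, g' i ≤ g i) :
    CovG g' K := by
  intro N ε hε
  obtain ⟨S, h1, h2, h3⟩ := h N ε hε
  exact ⟨S, h1, h2, (Finset.sum_le_sum fun q _ =>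
    mul_le_mul_of_nonneg_left (hg q.1) (rr0 _).le).trans h3⟩

lemma dM_den {M : ℝ} (hM : 0 ≤ M) : 1 ≤ √(1 + M) * (1 + Real.log (1 + M)) ^ 2 := by
  have h1 : 1 ≤ √(1 + M) := Real.one_le_sqrt.2 (by linarith)
  have h2 : 0 ≤ Real.log (1 + M) := Real.log_nonneg (by linarith)
  nlinarith [sq_nonneg (Real.log (1 + M))]

/-- The second theorem with a gain less than one. -/
theorem d2 : ∃ c : ℝ, 0 < c ∧ c < 1 ∧
    ∀ (T E D : ℝ) (G : Set ℝ) (u : ℝ → V → V) (p : ℝ → V → ℝ),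
    Turb 1 T E D G u p → ∀ τ₁ τ₂ L : ℝ, 0 < τ₁ → τ₂ < T → ∀ (M : ℝ) (k : ℕ), 0 ≤ M →
      CovG (fun i => 2 ^ (dM c M * i)) (SgM G u τ₁ τ₂ L M k) := by
  obtain ⟨c, hc, h⟩ := p_D2
  refine ⟨min c (1 / 2), lt_min hc (by norm_num), (min_le_right _ _).trans_lt (by norm_num), ?_⟩
  intro T E D G u p hN τ₁ τ₂ L h1 h2 M k hM
  refine (h T E D G u p hN τ₁ τ₂ L h1 h2 M k hM).mono fun i => ?_
  have h3 := dM_den hM
  have h4 : dM (min c (1 / 2)) M ≤ dM c M := by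
    unfold dM
    exact div_le_div_of_nonneg_right (min_le_left _ _) (by linarith)
  exact Real.rpow_le_rpow_of_exponent_le (by norm_num)
    (mul_le_mul_of_nonneg_right h4 (Nat.cast_nonneg i))

end Pool.Agent.N976.TL
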