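import Pool.Agent.N977.H.Crit
import Pool.Agent.Y8.WEn5

/-!
Statements of the parts of the project TL (helper976): the singular set of a suitable weak periodic
solution of the Navier-Stokes equations and gauges between `r` and `r log² (1 / r)`.
-/

set_option autoImplicit false

open MeasureTheory Set Metric
open scoped ContDiff ENNReal

namespace Pool.Agent.N976.TL

open H459R3.NS W221.NS Pool.Agent.Y8 Pool.Agent.N977.H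

/-! ### Definitions -/

/-- The parabolic cylinder of the level `i`. -/
def Cy (i : ℕ) (z : ℝ × V) : Set (ℝ × V) := Wi z.1 i ×ˢ ball z.2 (rr i)

/-- The neighbourhood of the level `j` of the set `K`. -/
def Nb (K : Set (ℝ × V)) (j : ℕ) : Set (ℝ × V) := ⋃ z ∈ K, Cy j z

/-- The size of the velocity field at the level `i` around `x`. -/
noncomputable def XX (w : V → V) (x : V) (i : ℕ) : ℝ :=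
  (rr i * ‖mo (rr i) w x‖) ^ 2 + A2 0 4 (Y7.fr (rr i) w x)

/-- The decomposition of `v` with the bounds `f` of the energy of the first part and `A` of the
second one. -/
def Dc (C f A : ℝ) (v : V → V) : Prop := ∃ W : V → V, ContDiff ℝ ∞ W ∧ A2 0 (3 / 4) W ≤ f ∧
  ∀ z ∈ ball (0 : V) 1, ∀ i, |v z i - W z i| ≤ C * √A ∧
    ∀ j, |pd j (fun y => v y i - W y i) z| ≤ C * √A

/-- The data of a singular point. -/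
structure PtD (F : ℝ × V → ℝ≥0∞) (m : ℕ) (C θ B : ℝ) (i₀ : ℕ) (z : ℝ × V) (e X : ℕ → ℝ) :
    Prop where
  e0 : ∀ i, 0 ≤ e i
  X0 : ∀ i, 0 ≤ X i
  low : ∀ i ≥ i₀, ∀ᵐ y ∂(volume.restrict (ball z.2 (rr (i + 6)))),
    ENNReal.ofReal (e i / rr i ^ 2) ≤ ∫⁻ τ in Wi z.1 i, F (τ, y)
  rcs : ∀ i ≥ i₀, X (i + m) ≤ X i / 4 + C * (e i + e i ^ 2)
  crit : ∀ i ≥ i₀, θ < X i ∨ θ < e i
  mass : ∀ i ≥ i₀, ∫⁻ q in Cy (i + 3) z, F q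
    ≤ ENNReal.ofReal (C * rr i * ((1 + √(X i)) * e i + e i ^ 2))
  base : ∀ i ≥ i₀, X i ≤ B * 2 ^ i

/-- The data used in the geometric part. -/
structure Gd (F : ℝ × V → ℝ≥0∞) (a b Λ : ℝ) (w k J : ℕ) (z : ℝ × V) : Prop where
  dens : ∀ i, k ≤ i → i ≤ J → ∫⁻ q in Cy i z, F q ≤ ENNReal.ofReal (Λ * rr i)
  low : ∀ i, k ≤ i → i + w ≤ J → ENNReal.ofReal (b * rr i) ≤ ∫⁻ q in Cy i z, F q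
  good : ∀ l, k ≤ l → l + w ≤ J → ∃ (i : ℕ) (e : ℝ), l ≤ i ∧ i ≤ l + w ∧ 0 < e ∧
    (∀ᵐ y ∂(volume.restrict (ball z.2 (rr (i + 6)))),
      ENNReal.ofReal (e / rr i ^ 2) ≤ ∫⁻ τ in Wi z.1 i, F (τ, y)) ∧
    ∫⁻ q in Cy (i + 3) z, F q ≤ ENNReal.ofReal (a * rr i * e)

/-- The set `K` has arbitrarily fine covers by cylinders with small sum of `rr i * g i`. -/
def CovG (g : ℕ → ℝ) (K : Set (ℝ × V)) : Prop := ∀ (N : ℕ) (ε : ℝ), 0 < ε →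
  ∃ S : Finset (ℕ × (ℝ × V)), (∀ q ∈ S, N ≤ q.1) ∧ K ⊆ ⋃ q ∈ S, Cy q.1 q.2 ∧
    ∑ q ∈ S, rr q.1 * g q.1 ≤ ε

/-! ### Part A: the estimates for the solution -/

/-- The energy estimate on a short window (slices). -/
def S_A1a : Prop := ∃ C : ℝ, 0 < C ∧ ∀ h ε : ℝ, 0 < h → h ≤ 1 → 0 < ε →
  ∀ (H : Set ℝ) (v W : ℝ → V → V) (G : ℝ → ℝ), IsOpen H → H ⊆ Ioo (-1) 0 →
    volume (Ioo (-1 : ℝ) 0 \ H) = 0 →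
    ContDiffOn ℝ ∞ (fun z : ℝ × V => v z.1 z.2) (H ×ˢ univ) →
    ContDiffOn ℝ ∞ (fun z : ℝ × V => W z.1 z.2) (H ×ˢ univ) →
    (∀ t ∈ H, ∃ P, Y7.Sl (v t) (W t) (fun x i => deriv (fun s => W s x i) t) P (G t)) →
    IntegrableOn G (Ioo (-h) 0) → ∫ t in Ioo (-h) 0, G t ≤ ε →
    (∃ B : ℝ, ∀ t ∈ H, A2 0 1 (W t) ≤ B) → EnW H W →
      (IntegrableOn (fun t => B2 0 (3 / 4) (v t)) (Ioo (-(9 / 16 * h)) 0) ∧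
        ∫ t in Ioo (-(9 / 16 * h)) 0, B2 0 (3 / 4) (v t) ≤ C * (ε / h + ε ^ 2)) ∧
      ∀ t ∈ H, -(9 / 16 * h) < t → A2 0 (3 / 4) (W t) ≤ C * (ε / h + ε ^ 2)

/-- The energy estimate on a short window. -/
def S_A1 : Prop := ∃ C : ℝ, 0 < C ∧ ∀ (H : Set ℝ) (v : ℝ → V → V) (q : ℝ → V → ℝ) (k : ℝ → ℝ),
  WL2 H v q k → ∀ h ε : ℝ, 0 < h → h ≤ 1 → 0 < ε →
    IntegrableOn (fun t => √(L4 0 4 (v t))) (Ioo (-h) 0) →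
    ∫ t in Ioo (-h) 0, √(L4 0 4 (v t)) ≤ ε →
      (IntegrableOn (fun t => B2 0 (3 / 4) (v t)) (Ioo (-(9 / 16 * h)) 0) ∧
        ∫ t in Ioo (-(9 / 16 * h)) 0, B2 0 (3 / 4) (v t) ≤ C * (ε / h + ε ^ 2)) ∧
      ∀ t ∈ H, -(9 / 16 * h) < t → Dc C (C * (ε / h + ε ^ 2)) (A2 0 4 (v t)) (v t)

/-- The hypotheses at the level `i`: `y` is a point near `x₀` at which the integral of the function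
of the gradient is at most `e / rr i ^ 2`. -/
structure LvD (T : ℝ) (G : Set ℝ) (u : ℝ → V → V) (t₀ : ℝ) (x₀ y : V) (i : ℕ) (e : ℝ) : Prop where
  lo : 2 * rr i ^ 2 < t₀
  hi : t₀ + rr i ^ 2 < T
  dy : ‖x₀ - y‖ ≤ rr (i + 6)
  e0 : 0 < e
  hF : ∫⁻ τ in Wi t₀ i, Y7.FtG 16 G u (τ, y) ≤ ENNReal.ofReal (e / rr i ^ 2)

/-- One window. -/
def S_A2a : Prop := ∃ C c : ℝ, 0 < C ∧ 0 < c ∧ c ≤ 1 / 2 ∧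
  ∀ (T E D : ℝ) (G : Set ℝ) (u : ℝ → V → V) (p : ℝ → V → ℝ), Turb 1 T E D G u p →
  ∀ (t₀ : ℝ) (x₀ y : V) (i : ℕ) (a e : ℝ), LvD T G u t₀ x₀ y i e → 0 ≤ a →
  (∀ t ∈ Wi t₀ i ∩ G, rr i * ‖mo (rr i) (u t) x₀‖ ≤ a) →
  ∀ h : ℝ, 0 < h → h * (1 + a + e) ≤ c → ∀ s t₁ e₁ : ℝ, t₀ - rr i ^ 2 ≤ s - h * rr i ^ 2 →
  s < t₀ + rr i ^ 2 → t₁ ∈ Icc (s - h * rr i ^ 2) s → 0 < e₁ →
  ∫⁻ τ in Ioo (s - h * rr i ^ 2) s, Y7.FtG 16 G u (τ, y) ≤ ENNReal.ofReal (e₁ / rr i ^ 2) →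
    (∫⁻ t in Ioo (s - 9 / 16 * h * rr i ^ 2) s, ENNReal.ofReal (B2 x₀ (rr (i + 1)) (u t))
      ≤ ENNReal.ofReal (C * rr i * (e₁ / h + e₁ ^ 2))) ∧
    (t₁ ∈ G → s - 9 / 16 * h * rr i ^ 2 < t₁ → t₁ < s →
      Dc C (C * (e₁ / h + e₁ ^ 2)) (A2 0 4 (Y7.fr (rr i) (u t₁) x₀)) (Y7.fr (rr i) (u t₁) x₀))

/-- The estimate at the level `i`. -/
def S_A2 : Prop := ∃ C : ℝ, 0 < C ∧
  ∀ (T E D : ℝ) (G : Set ℝ) (u : ℝ → V → V) (p : ℝ → V → ℝ), Turb 1 T E D G u p →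
  ∀ (t₀ : ℝ) (x₀ y : V) (i : ℕ) (a e : ℝ), LvD T G u t₀ x₀ y i e → 0 ≤ a →
  (∀ t ∈ Wi t₀ i ∩ G, rr i * ‖mo (rr i) (u t) x₀‖ ≤ a) →
    (∫⁻ t in Wi t₀ (i + 1), ENNReal.ofReal (B2 x₀ (rr (i + 1)) (u t))
      ≤ ENNReal.ofReal (C * rr i * ((1 + a) * e + e ^ 2))) ∧
    ∀ t ∈ Wi t₀ (i + 1) ∩ G, Dc C (C * ((1 + a) * e + e ^ 2))
      (A2 0 4 (Y7.fr (rr i) (u t) x₀)) (Y7.fr (rr i) (u t) x₀)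

/-- The passage to smaller scales at a fixed time. -/
def S_A3 : Prop := ∀ C₀ : ℝ, 0 < C₀ → ∃ C : ℝ, 0 < C ∧ ∀ w : V → V, ContDiff ℝ ∞ w →
  ∀ (i m : ℕ) (x : V) (f : ℝ), 3 ≤ m → 0 ≤ f →
    Dc C₀ f (A2 0 4 (Y7.fr (rr i) w x)) (Y7.fr (rr i) w x) →
      A2 0 4 (Y7.fr (rr (i + m)) w x) ≤ C * (2 ^ m * f + A2 0 4 (Y7.fr (rr i) w x) / 16 ^ m) ∧
      rr (i + m) * ‖mo (rr (i + m)) w x‖ ≤ rr i * ‖mo (rr i) w x‖ / 2 ^ m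
        + C * (√(2 ^ m * f) + √(A2 0 4 (Y7.fr (rr i) w x)) / 2 ^ m)

/-- The recursion. -/
def S_A4 : Prop := ∃ (m : ℕ) (C : ℝ), 3 ≤ m ∧ 0 < C ∧
  ∀ (T E D : ℝ) (G : Set ℝ) (u : ℝ → V → V) (p : ℝ → V → ℝ), Turb 1 T E D G u p →
  ∀ (t₀ : ℝ) (x₀ y : V) (i : ℕ) (e X : ℝ), LvD T G u t₀ x₀ y i e → 0 ≤ X →
  (∀ t ∈ Wi t₀ i ∩ G, XX (u t) x₀ i ≤ X) →
    (∀ t ∈ Wi t₀ (i + m) ∩ G, XX (u t) x₀ (i + m) ≤ X / 4 + C * (e + e ^ 2)) ∧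
    ∫⁻ t in Wi t₀ (i + 1), ENNReal.ofReal (B2 x₀ (rr (i + 1)) (u t))
      ≤ ENNReal.ofReal (C * rr i * ((1 + √X) * e + e ^ 2))

/-- The integral of the function of the gradient over the cylinder. -/
def S_A5 : Prop := ∃ C : ℝ, 0 < C ∧
  ∀ (T E D : ℝ) (G : Set ℝ) (u : ℝ → V → V) (p : ℝ → V → ℝ), Turb 1 T E D G u p →
  ∀ (t₀ : ℝ) (x₀ y : V) (i : ℕ) (e M : ℝ), LvD T G u t₀ x₀ y i e → 0 ≤ M →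
  ∫⁻ t in Wi t₀ (i + 1), ENNReal.ofReal (B2 x₀ (rr (i + 1)) (u t)) ≤ ENNReal.ofReal M →
    ∫⁻ q in Cy (i + 3) (t₀, x₀), Y7.FtG 16 G u q ≤ ENNReal.ofReal (C * (M + rr i * e))

/-- The criterion of regularity. -/
def S_A6 : Prop := ∃ θ : ℝ, 0 < θ ∧
  ∀ (T E D : ℝ) (G : Set ℝ) (u : ℝ → V → V) (p : ℝ → V → ℝ), Turb 1 T E D G u p →
  ∀ (t₀ : ℝ) (x₀ y : V) (i : ℕ), LvD T G u t₀ x₀ y i θ →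
  (∀ t ∈ Wi t₀ i ∩ G, XX (u t) x₀ i ≤ θ) → ¬SingPt G u t₀ x₀

/-- The bound by the energy. -/
def S_A7 : Prop := ∃ C : ℝ, 0 < C ∧ ∀ (w : V → V) (E : ℝ), SPV w → energy w ≤ E ^ 2 →
  ∀ (i : ℕ) (x : V), 3 ≤ i → XX w x i ≤ C * E ^ 2 * 2 ^ i

/-- The essential infimum. -/
def S_A8 : Prop := ∀ (T E D : ℝ) (G : Set ℝ) (u : ℝ → V → V) (p : ℝ → V → ℝ),
  Turb 1 T E D G u p → ∀ (t₀ : ℝ) (x₀ : V) (i : ℕ), ∃ e : ℝ, 0 ≤ e ∧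
    (∀ᵐ y ∂(volume.restrict (ball x₀ (rr (i + 6)))),
      ENNReal.ofReal (e / rr i ^ 2) ≤ ∫⁻ τ in Wi t₀ i, Y7.FtG 16 G u (τ, y)) ∧
    ∀ e' > e, ∃ y : V, ‖x₀ - y‖ ≤ rr (i + 6) ∧
      ∫⁻ τ in Wi t₀ i, Y7.FtG 16 G u (τ, y) ≤ ENNReal.ofReal (e' / rr i ^ 2)

/-- All properties of the singular points. -/
def S_A9 : Prop := ∃ (m : ℕ) (C θ : ℝ), 3 ≤ m ∧ 0 < C ∧ 0 < θ ∧
  ∀ (T E D : ℝ) (G : Set ℝ) (u : ℝ → V → V) (p : ℝ → V → ℝ), Turb 1 T E D G u p →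
  ∃ B : ℝ, 1 ≤ B ∧ ∀ (i₀ : ℕ) (z : ℝ × V), 3 ≤ i₀ → 2 * rr i₀ ^ 2 < z.1 → z.1 + rr i₀ ^ 2 < T →
    SingPt G u z.1 z.2 → ∃ e X : ℕ → ℝ, PtD (Y7.FtG 16 G u) m C θ B i₀ z e X

/-! ### Part B: the combinatorial part -/

/-- The lemma on sequences. -/
def S_B1 : Prop := ∀ (m : ℕ) (C θ : ℝ), 1 ≤ m → 0 < C → 0 < θ → ∃ P θ' : ℝ, 1 ≤ P ∧ 0 < θ' ∧
  ∀ (e X : ℕ → ℝ) (B Λ : ℝ) (k₀ J : ℕ), (∀ i, 0 ≤ e i) → (∀ i, 0 ≤ X i) → 1 ≤ B → 1 ≤ Λ →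
  (∀ i ≥ k₀, X (i + m) ≤ X i / 4 + C * (e i + e i ^ 2)) → (∀ i ≥ k₀, θ < X i ∨ θ < e i) →
  (∀ i ≥ k₀, X i ≤ B * 2 ^ i) → (∀ i, k₀ ≤ i → i ≤ J → e i ≤ C * Λ) →
  ∀ l w : ℕ, P * (k₀ + 1 + Real.log B) ≤ l → P * (1 + Real.log Λ) ≤ w → l + w ≤ J →
    ∃ i, l ≤ i ∧ i ≤ l + w ∧ θ' ≤ e i ∧ X i ≤ P * e i ^ 2

/-- The good levels. -/
def S_B2 : Prop := ∀ (m : ℕ) (C θ : ℝ), 1 ≤ m → 0 < C → 0 < θ → ∃ P : ℝ, 1 ≤ P ∧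
  ∀ F : ℝ × V → ℝ≥0∞, Measurable F → ∀ (z : ℝ × V) (e X : ℕ → ℝ) (B Λ : ℝ) (k₀ J : ℕ),
  1 ≤ B → 1 ≤ Λ → PtD F m C θ B k₀ z e X →
  (∀ i, k₀ ≤ i → i ≤ J → ∫⁻ q in Cy i z, F q ≤ ENNReal.ofReal (Λ * rr i)) →
  ∀ k w : ℕ, P * (k₀ + 1 + Real.log B) ≤ k → P * (1 + Real.log Λ) ≤ w →
    Gd F (P * √Λ) (1 / (P * Λ ^ P)) Λ w k J z

/-- The lines which do not meet the neighbourhood. -/
def S_B3 : Prop := ∀ F : ℝ × V → ℝ≥0∞, Measurable F → ∀ (K : Set (ℝ × V)) (a b Λ : ℝ)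
  (w k J : ℕ), 0 < b → 1 ≤ Λ → (∀ z ∈ K, Gd F a b Λ w k J z) → ∀ z ∈ K, ∀ (i j : ℕ) (e : ℝ),
  k + 1 ≤ i → i + 1 ≤ j → j + w ≤ J → 28311552 * Λ * rr j ^ 2 ≤ b * rr i ^ 2 → 0 < e →
  (∀ᵐ y ∂(volume.restrict (ball z.2 (rr (i + 6)))),
    ENNReal.ofReal (e / rr i ^ 2) ≤ ∫⁻ τ in Wi z.1 i, F (τ, y)) →
    ENNReal.ofReal (rr i * e / 65536) ≤ ∫⁻ q in Cy i z \ Nb K j, F q

/-- The decay of the mass of the neighbourhoods: one step. -/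
def S_B4 : Prop := ∃ C : ℝ, 0 < C ∧ ∀ F : ℝ × V → ℝ≥0∞, Measurable F →
  ∀ (K : Set (ℝ × V)) (a b Λ : ℝ) (w k J : ℕ), 0 < a → 0 < b → 1 ≤ Λ →
  (∀ z ∈ K, Gd F a b Λ w k J z) → ∀ l j : ℕ, k + 1 ≤ l → l + w + 4 ≤ j → j + w ≤ J →
  28311552 * Λ * rr j ^ 2 ≤ b * rr (l + w) ^ 2 →
    ∫⁻ q in Nb K j, F q ≤ ENNReal.ofReal (C * a * (w + 1)) * ∫⁻ q in Nb K l \ Nb K j, F q

/-- The number of the cylinders. -/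
def S_B5 : Prop := ∀ F : ℝ × V → ℝ≥0∞, Measurable F → ∀ (K : Set (ℝ × V)) (b D : ℝ) (j : ℕ),
  0 < b → 0 ≤ D → 1 ≤ j → (∀ z ∈ K, ENNReal.ofReal (b * rr j) ≤ ∫⁻ q in Cy j z, F q) →
  ∫⁻ q in Nb K j, F q ≤ ENNReal.ofReal D →
    ∃ S : Finset (ℝ × V), (∀ z ∈ S, z ∈ K) ∧ K ⊆ ⋃ z ∈ S, Cy (j - 1) z ∧
      b * (S.card * rr j) ≤ D

/-- The main result of the combinatorial part. -/
def S_BM : Prop := ∀ (m : ℕ) (C θ : ℝ), 1 ≤ m → 0 < C → 0 < θ → ∃ P : ℝ, 1 ≤ P ∧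
  ∀ F : ℝ × V → ℝ≥0∞, Measurable F → ∀ (K : Set (ℝ × V)) (B D Λ : ℝ) (k₀ J : ℕ),
  1 ≤ B → 0 ≤ D → 1 ≤ Λ → (∀ z ∈ K, ∃ e X : ℕ → ℝ, PtD F m C θ B k₀ z e X) →
  (∀ z ∈ K, ∀ i, k₀ ≤ i → i ≤ J → ∫⁻ q in Cy i z, F q ≤ ENNReal.ofReal (Λ * rr i)) →
  ∫⁻ q in Nb K k₀, F q ≤ ENNReal.ofReal D →
  P * (k₀ + 1 + Real.log B + Real.log Λ) ≤ J →
    ∃ (S : Finset (ℝ × V)) (J' : ℕ), J' ≤ J ∧ (J : ℝ) ≤ J' + P * (1 + Real.log Λ) ∧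
      K ⊆ ⋃ z ∈ S, Cy J' z ∧ S.card * rr J' ≤ P * Λ ^ P * D * Real.exp
        (-(J - P * (k₀ + 1 + Real.log B + Real.log Λ)) / (P * √Λ * (1 + Real.log Λ) ^ 2))

/-! ### Part C: the gauges -/

/-- The points of large density. -/
def S_C0 : Prop := ∀ F : ℝ × V → ℝ≥0∞, Measurable F → ∀ (K : Set (ℝ × V)) (D Λ : ℝ) (k₀ J : ℕ),
  0 ≤ D → 0 < Λ → 1 ≤ k₀ →
  (∀ z ∈ K, ∃ i, k₀ ≤ i ∧ i ≤ J ∧ ENNReal.ofReal (Λ * rr i) < ∫⁻ q in Cy i z, F q) →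
  ∫⁻ q in Nb K k₀, F q ≤ ENNReal.ofReal D →
    ∃ S : Finset (ℕ × (ℝ × V)), (∀ q ∈ S, k₀ - 1 ≤ q.1 ∧ q.1 + 1 ≤ J) ∧
      K ⊆ ⋃ q ∈ S, Cy q.1 q.2 ∧ ∑ q ∈ S, rr q.1 ≤ 2 * D / Λ

/-- The choice of the density. -/
def S_C1 : Prop := ∀ (P B D δ : ℝ) (k₀ N : ℕ) (g : ℕ → ℝ), 1 ≤ P → 1 ≤ B → 0 ≤ D → 0 < δ →
  (∀ i, 0 ≤ g i) → (∀ η > 0, ∀ n : ℕ, ∃ J ≥ n, g J * (1 + Real.log J) ^ 6 ≤ η * J ^ 2) →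
    ∃ J ≥ N, ∃ Λ : ℝ, 1 ≤ Λ ∧ P * (k₀ + 1 + Real.log B + Real.log Λ) ≤ J / 2 ∧
      g J * (D / Λ) ≤ δ ∧ g J * (P * Λ ^ P * D * Real.exp
        (-(J - P * (k₀ + 1 + Real.log B + Real.log Λ)) / (P * √Λ * (1 + Real.log Λ) ^ 2))) ≤ δ

/-- The singular points in a compact set of times and a ball. -/
def Sg (G : Set ℝ) (u : ℝ → V → V) (τ₁ τ₂ L : ℝ) : Set (ℝ × V) :=
  {z | z.1 ∈ Icc τ₁ τ₂ ∧ ‖z.2‖ < L ∧ SingPt G u z.1 z.2}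

/-- The covers of the singular set. -/
def S_C2 : Prop := ∀ (T E D : ℝ) (G : Set ℝ) (u : ℝ → V → V) (p : ℝ → V → ℝ),
  Turb 1 T E D G u p → ∀ τ₁ τ₂ L : ℝ, 0 < τ₁ → τ₂ < T → ∀ g : ℕ → ℝ, (∀ i, 0 ≤ g i) →
  Monotone g → (∀ η > 0, ∀ n : ℕ, ∃ J ≥ n, g J * (1 + Real.log J) ^ 6 ≤ η * J ^ 2) →
    CovG g (Sg G u τ₁ τ₂ L)

/-! ### Part D: the points of bounded density -/

/-- The dissipation. -/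
noncomputable def gG (G : Set ℝ) (u : ℝ → V → V) (z : ℝ × V) : ℝ≥0∞ :=
  (G ×ˢ (univ : Set V)).indicator (fun z => ENNReal.ofReal (gsq (u z.1) z.2)) z

/-- The function of the gradient and the dissipation at larger scales. -/
def S_D1 : Prop := ∃ C : ℝ, 0 < C ∧
  ∀ (T E D : ℝ) (G : Set ℝ) (u : ℝ → V → V) (p : ℝ → V → ℝ), Turb 1 T E D G u p →
  ∀ (z : ℝ × V) (i : ℕ), ∫⁻ q in Cy i z, Y7.FtG 16 G u q ≤ ENNReal.ofReal C *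
    ((∑ j ∈ Finset.range i, ENNReal.ofReal ((1 / 8) ^ (i - j)) * ∫⁻ q in Cy j z, gG G u q)
      + ENNReal.ofReal ((1 / 8) ^ i * D))

/-- The singular points at which the density of the dissipation is at most `M` from the level `k`
on. -/
def SgM (G : Set ℝ) (u : ℝ → V → V) (τ₁ τ₂ L M : ℝ) (k : ℕ) : Set (ℝ × V) :=
  {z ∈ Sg G u τ₁ τ₂ L | ∀ i ≥ k, ∫⁻ q in Cy i z, gG G u q ≤ ENNReal.ofReal (M * rr i)}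

/-- The gain in the dimension. -/
noncomputable def dM (c M : ℝ) : ℝ := c / (√(1 + M) * (1 + Real.log (1 + M)) ^ 2)

/-- The covers of the set of the singular points of bounded density. -/
def S_D2 : Prop := ∃ c : ℝ, 0 < c ∧
  ∀ (T E D : ℝ) (G : Set ℝ) (u : ℝ → V → V) (p : ℝ → V → ℝ),
  Turb 1 T E D G u p → ∀ τ₁ τ₂ L : ℝ, 0 < τ₁ → τ₂ < T → ∀ (M : ℝ) (k : ℕ), 0 ≤ M →
    CovG (fun i => 2 ^ (dM c M * i)) (SgM G u τ₁ τ₂ L M k)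

end Pool.Agent.N976.TL
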